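import Pool.Agent.Lib.MP_9a7843_ag_M.D

/-!
# Block M, Kil: being killed by a small vector is a closed condition
-/

namespace MP9a7843.M

open Polynomial

universe u

/-- Names of the equations. -/
private abbrev KJ : Type := (Fin 10 × Fin 10 × Fin 10) × (Fin 10 × Fin 10 × Fin 10)

/-- Shifted coefficient. -/
private def sh {R : Type*} [CommRing R] (c : Idx × ℕ → R) (I : Idx) (j m : ℕ) : R :=
  if j ≤ m then c (I, m - j) else 0

/-- The matrix of the linear system. -/
private def ent {R : Type*} [CommRing R] (n E : ℕ) (c : Idx × ℕ → R) :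
    Matrix (KJ × Fin E) (Fin 10 × Fin (n + 1)) R := fun p q =>
  (if p.1.2.1 = q.1 then sh c (p.1.1, (p.1.2.2.1, p.1.2.2.2)) q.2 p.2 else 0)
    - (if p.1.2.2.1 = q.1 then sh c (p.1.1, (p.1.2.1, p.1.2.2.2)) q.2 p.2 else 0)
    + (if p.1.2.2.2 = q.1 then sh c (p.1.1, (p.1.2.1, p.1.2.2.1)) q.2 p.2 else 0)

private theorem sh_map {R S : Type*} [CommRing R] [CommRing S] (f : R →+* S)
    (c : Idx × ℕ → R) (I : Idx) (j m : ℕ) : f (sh c I j m) = sh (fun p => f (c p)) I j m := by
  unfold sh
  split_ifs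
  · rfl
  · exact map_zero f

private theorem ent_map {R S : Type*} [CommRing R] [CommRing S] (f : R →+* S) (n E : ℕ)
    (c : Idx × ℕ → R) : (ent n E c).map f = ent n E (fun p => f (c p)) := by
  ext p q
  simp only [ent, Matrix.map_apply, map_add, map_sub, apply_ite f, map_zero, sh_map]

private theorem coeff_mul_sum {R : Type*} [CommRing R] (n : ℕ) (y : Fin (n + 1) → R) (P : R[X])
    (m : ℕ) : ((∑ j : Fin (n + 1), C (y j) * X ^ (j : ℕ)) * P).coeff m
      = ∑ j : Fin (n + 1), (if (j : ℕ) ≤ m then P.coeff (m - j) else 0) * y j := by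
  rw [Finset.sum_mul, finsetSum_coeff]
  refine Finset.sum_congr rfl fun j _ => ?_
  rw [mul_assoc, coeff_C_mul, coeff_X_pow_mul', mul_comm]

private theorem ent_mulVec {R : Type*} [CommRing R] (n E : ℕ) (g : Idx → R[X])
    (x : Fin 10 × Fin (n + 1) → R) (s : Fin 10 × Fin 10 × Fin 10) (a b d : Fin 10) (m : Fin E) :
    (ent n E (cf g)).mulVec x ((s, (a, b, d)), m)
      = ((∑ j : Fin (n + 1), C (x (a, j)) * X ^ (j : ℕ)) * g (s, (b, d))
        - (∑ j : Fin (n + 1), C (x (b, j)) * X ^ (j : ℕ)) * g (s, (a, d))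
        + (∑ j : Fin (n + 1), C (x (d, j)) * X ^ (j : ℕ)) * g (s, (a, b))).coeff m := by
  rw [coeff_add, coeff_sub, coeff_mul_sum, coeff_mul_sum, coeff_mul_sum]
  have key : ∀ (e : Fin 10) (I : Idx),
      ∑ q : Fin 10 × Fin (n + 1), (if e = q.1 then sh (cf g) I q.2 m else 0) * x q
        = ∑ j : Fin (n + 1), (if (j : ℕ) ≤ m then (g I).coeff (m - j) else 0) * x (e, j) := by
    intro e I
    rw [Fintype.sum_prod_type, Finset.sum_eq_single e]
    · refine Finset.sum_congr rfl fun j _ => ?_
      simp only [if_true, sh, cf]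
    · intro i _ hi
      refine Finset.sum_eq_zero fun j _ => ?_
      rw [if_neg (Ne.symm hi), zero_mul]
    · intro h
      exact absurd (Finset.mem_univ e) h
  rw [← key a, ← key b, ← key d, ← Finset.sum_sub_distrib, ← Finset.sum_add_distrib]
  unfold Matrix.mulVec dotProduct
  refine Finset.sum_congr rfl fun q _ => ?_
  simp only [ent]
  ring

/-- Row M3. Some non-zero `w` of degree `≤ n` is killed by all rows: this is a closed condition.
Proof: suppose no such `w` exists for `g`.  Let `E` be larger than all `natDegree (g I) + n`.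
The `k`-linear map `L_g` from `Fin 10 × Fin (n + 1) → k` (coefficients of `w`) to
`J × Fin E → k`, `J = (Fin 10 × Fin 10 × Fin 10) × (Fin 10 × Fin 10 × Fin 10)` (the coefficients of
the polynomials in the definition of `Kills`) is injective, so it has a left inverse `B`;
`det (B * L)` is a polynomial `Φ` in the coefficients of the tuple, and its value at `g` is `1`.
So `Φ ∉ vI S`, hence its value at some `g' ∈ S` is not zero, and `L_{g'}` is injective,
contradicting `h`. -/
theorem exists_kills_of_mem_zcl {k : Type u} [Field k] (S : Set (Idx → k[X])) (n : ℕ)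
    (h : ∀ g ∈ S, ∃ w : Fin 10 → k[X], w ≠ 0 ∧ (∀ i, (w i).natDegree ≤ n) ∧ Kills g w)
    {g : Idx → k[X]} (hg : g ∈ zcl S) :
    ∃ w : Fin 10 → k[X], w ≠ 0 ∧ (∀ i, (w i).natDegree ≤ n) ∧ Kills g w := by
  classical
  by_contra hne
  obtain ⟨D, hD⟩ := (Set.finite_range fun I : Idx => (g I).natDegree).bddAbove
  have hdeg : ∀ I, (g I).natDegree ≤ D := fun I => hD ⟨I, rfl⟩
  obtain ⟨E, hE⟩ : ∃ E : ℕ, E = n + D + 1 := ⟨_, rfl⟩
  -- the matrix at `g` is injective
  have hinj : ∀ x : Fin 10 × Fin (n + 1) → k, (ent n E (cf g)).mulVec x = 0 → x = 0 := by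
    intro x hx
    by_contra hx0
    apply hne
    have hwd : ∀ i, (∑ j : Fin (n + 1), C (x (i, j)) * X ^ (j : ℕ) : k[X]).natDegree ≤ n := by
      intro i
      refine natDegree_sum_le_of_forall_le _ _ fun j _ => ?_
      exact (natDegree_C_mul_X_pow_le _ _).trans (Nat.lt_succ_iff.1 j.2)
    refine ⟨fun i => ∑ j : Fin (n + 1), C (x (i, j)) * X ^ (j : ℕ), ?_, hwd, ?_⟩
    · intro h0
      apply hx0
      funext q
      obtain ⟨i, j⟩ := q
      have h1 := congrFun h0 i
      have h2 : (∑ j : Fin (n + 1), C (x (i, j)) * X ^ (j : ℕ) : k[X]).coeff j = 0 := by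
        have := congrArg (fun P : k[X] => P.coeff j) h1
        simpa using this
      rw [finsetSum_coeff, Finset.sum_eq_single j] at h2
      · simpa using h2
      · intro b _ hb
        rw [coeff_C_mul_X_pow, if_neg]
        intro hc
        exact hb (Fin.ext hc.symm)
      · intro hc
        exact absurd (Finset.mem_univ j) hc
    · intro s a b d
      ext m
      rw [coeff_zero]
      by_cases hm : m < E
      · have h1 := congrFun hx ((s, (a, b, d)), ⟨m, hm⟩)
        rw [ent_mulVec] at h1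
        simpa using h1
      · have hb : ∀ (i : Fin 10) (I : Idx),
            ((∑ j : Fin (n + 1), C (x (i, j)) * X ^ (j : ℕ) : k[X]) * g I).coeff m = 0 := by
          intro i I
          apply coeff_eq_zero_of_natDegree_lt
          refine lt_of_le_of_lt natDegree_mul_le ?_
          have h1 := hwd i
          have h2 := hdeg I
          omega
        rw [coeff_add, coeff_sub, hb, hb, hb, sub_zero, add_zero]
  -- left inverse
  have hker : LinearMap.ker (Matrix.toLin' (ent n E (cf g))) = ⊥ := by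
    rw [LinearMap.ker_eq_bot']
    intro x hx
    exact hinj x (by rwa [Matrix.toLin'_apply] at hx)
  obtain ⟨B, hB⟩ := LinearMap.exists_leftInverse_of_injective _ hker
  have hB' : LinearMap.toMatrix' B * ent n E (cf g) = 1 := by
    have h1 := congrArg LinearMap.toMatrix' hB
    rw [LinearMap.toMatrix'_comp, LinearMap.toMatrix'_toLin', LinearMap.toMatrix'_id] at h1
    exact h1
  set M := LinearMap.toMatrix' B with hM
  set M1 : Matrix (Fin 10 × Fin (n + 1)) (KJ × Fin E) (MvPolynomial (Idx × ℕ) k) :=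
    M.map (MvPolynomial.C : k →+* MvPolynomial (Idx × ℕ) k) with hM1
  set L1 : Matrix (KJ × Fin E) (Fin 10 × Fin (n + 1)) (MvPolynomial (Idx × ℕ) k) :=
    ent n E (MvPolynomial.X : Idx × ℕ → MvPolynomial (Idx × ℕ) k) with hL1
  set Φ : MvPolynomial (Idx × ℕ) k := (M1 * L1).det with hΦ
  have heval : ∀ g' : Idx → k[X],
      MvPolynomial.eval (cf g') Φ = (M * ent n E (cf g')).det := by
    intro g'
    rw [hΦ, RingHom.map_det, RingHom.mapMatrix_apply, Matrix.map_mul, hL1, ent_map, hM1,
      Matrix.map_map]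
    congr 2
    · ext p q
      simp
    · congr 1
      funext p
      simp
  have hn : Φ ∉ vI S := by
    intro hc
    have h1 := hg Φ hc
    rw [heval, hB', Matrix.det_one] at h1
    exact one_ne_zero h1
  rw [mem_vI] at hn
  push Not at hn
  obtain ⟨g', hg', hne'⟩ := hn
  rw [heval] at hne'
  obtain ⟨w, hw0, hwn, hwk⟩ := h g' hg'
  apply hw0
  set x : Fin 10 × Fin (n + 1) → k := fun q => (w q.1).coeff q.2 with hx
  have hwx : ∀ i, (∑ j : Fin (n + 1), C (x (i, j)) * X ^ (j : ℕ) : k[X]) = w i := by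
    intro i
    rw [Fin.sum_univ_eq_sum_range (fun j => C ((w i).coeff j) * X ^ j) (n + 1)]
    exact ((w i).as_sum_range_C_mul_X_pow' (Nat.lt_succ_iff.2 (hwn i))).symm
  have hL : (ent n E (cf g')).mulVec x = 0 := by
    funext p
    obtain ⟨⟨s, a, b, d⟩, m⟩ := p
    rw [ent_mulVec, hwx, hwx, hwx, hwk s a b d]
    simp
  have hx0 : x = 0 := by
    have h1 : (M * ent n E (cf g')).mulVec x = 0 := by
      rw [← Matrix.mulVec_mulVec, hL, Matrix.mulVec_zero]
    exact Matrix.eq_zero_of_mulVec_eq_zero hne' h1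
  funext i
  rw [← hwx i, hx0]
  simp

end MP9a7843.M
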