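import Pool.Agent.Lib.MP_9a7843_ag_M.D

/-!
# Block M, Deg: good factors, degrees
-/

namespace MP9a7843.M

open Polynomial

/-- Row M5d. Factors of a good tuple: if `g = F ⊗ P` has no common zero, as forms of degree
`e + h`, and `deg F ≤ e`, `deg P ≤ h`, then `F` and `P` have no common zero.
Proof: `∑ A I * (F * P) = 1` gives Bezout relations for `F` and for `P`; the coefficient of
`X ^ (e + h)` of `F I.1 * P I.2` is `(F I.1).coeff e * (P I.2).coeff h`
(`coeff_mul_of_natDegree_le`). -/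
theorem Good.factors {K : Type*} [Field K] {e h : ℕ}
    {F : Fin 10 × Fin 10 × Fin 10 → K[X]} {P : Fin 10 × Fin 10 → K[X]}
    (hF : ∀ s, (F s).natDegree ≤ e) (hP : ∀ p, (P p).natDegree ≤ h)
    (hg : Good (e + h) (fun I : Idx => F I.1 * P I.2)) : Good e F ∧ Good h P := by
  obtain ⟨⟨A, hA⟩, -, I, hI⟩ := hg
  rw [Polynomial.coeff_mul_add_eq_of_natDegree_le (hF _) (hP _)] at hI
  refine ⟨⟨⟨fun s => ∑ p, A (s, p) * P p, ?_⟩, hF, I.1, left_ne_zero_of_mul hI⟩,
    ⟨⟨fun p => ∑ s, A (s, p) * F s, ?_⟩, hP, I.2, right_ne_zero_of_mul hI⟩⟩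
  · rw [← hA]
    have h1 := Fintype.sum_prod_type (fun I : Idx => A I * (F I.1 * P I.2))
    rw [h1]
    refine Finset.sum_congr rfl fun s _ => ?_
    rw [Finset.sum_mul]
    refine Finset.sum_congr rfl fun p _ => ?_
    ring
  · rw [← hA]
    have h1 := Fintype.sum_prod_type (fun I : Idx => A I * (F I.1 * P I.2))
    rw [h1, Finset.sum_comm]
    refine Finset.sum_congr rfl fun p _ => ?_
    rw [Finset.sum_mul]
    refine Finset.sum_congr rfl fun s _ => ?_
    ring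

/-- Row M5e. Conversely, the product of good tuples is good. -/
theorem Good.mul {K : Type*} [Field K] {e h : ℕ}
    {F : Fin 10 × Fin 10 × Fin 10 → K[X]} {P : Fin 10 × Fin 10 → K[X]}
    (hF : Good e F) (hP : Good h P) : Good (e + h) (fun I : Idx => F I.1 * P I.2) := by
  obtain ⟨⟨A, hA⟩, hF1, s, hs⟩ := hF
  obtain ⟨⟨B, hB⟩, hP1, p, hp⟩ := hP
  refine ⟨⟨fun I => A I.1 * B I.2, ?_⟩, fun I => ?_, (s, p), ?_⟩
  · have h1 := Fintype.sum_prod_type (fun I : Idx => A I.1 * B I.2 * (F I.1 * P I.2))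
    rw [h1]
    calc ∑ x, ∑ y, A x * B y * (F x * P y) = (∑ x, A x * F x) * ∑ y, B y * P y := by
          rw [Finset.sum_mul_sum]
          refine Finset.sum_congr rfl fun x _ => Finset.sum_congr rfl fun y _ => ?_
          ring
      _ = 1 := by rw [hA, hB, one_mul]
  · exact Polynomial.natDegree_mul_le_of_le (hF1 _) (hP1 _)
  · rw [Polynomial.coeff_mul_add_eq_of_natDegree_le (hF1 _) (hP1 _)]
    exact mul_ne_zero hs hp

/-- Row M5f. Degrees of `cub`, `plu`, `zfun` from the bounds `Bd`. -/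
theorem Bd.degrees {R : Type*} [CommRing R] {e b1 b2 : ℕ} {u v : Fin 10 → R[X]}
    {c : Fin 4 → R[X]} (h : Bd e b1 b2 u v c) :
    (∀ a b d, (cub u v c a b d).natDegree ≤ e) ∧ (∀ p q, (plu u v p q).natDegree ≤ b1 + b2) ∧
      ∀ I, (zfun u v c I).natDegree ≤ e + (b1 + b2) := by
  obtain ⟨hu, hv, hc⟩ := h
  have key : ∀ (m : Fin 4) (T : R[X]),
      T.natDegree ≤ (3 - (m : ℕ)) * b1 + (m : ℕ) * b2 → (c m * T).natDegree ≤ e := by
    intro m T hT
    rcases hc m with h0 | h1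
    · rw [h0, zero_mul, Polynomial.natDegree_zero]
      exact Nat.zero_le _
    · exact (Polynomial.natDegree_mul_le_of_le le_rfl hT).trans h1
  have m3 : ∀ (x y z : R[X]) (i j l n : ℕ), x.natDegree ≤ i → y.natDegree ≤ j →
      z.natDegree ≤ l → i + j + l = n → (x * y * z).natDegree ≤ n := by
    intro x y z i j l n h1 h2 h3 h4
    rw [← h4]
    exact Polynomial.natDegree_mul_le_of_le (Polynomial.natDegree_mul_le_of_le h1 h2) h3
  have add2 : ∀ (n : ℕ) (x y : R[X]), x.natDegree ≤ n → y.natDegree ≤ n →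
      (x + y).natDegree ≤ n := fun n x y hx hy =>
    Polynomial.natDegree_add_le_of_degree_le hx hy
  have hcub : ∀ a b d, (cub u v c a b d).natDegree ≤ e := by
    intro a b d
    unfold cub
    have e0 : (3 - ((0 : Fin 4) : ℕ)) * b1 + ((0 : Fin 4) : ℕ) * b2 = b1 + b1 + b1 := by
      simp
      ring
    have e1 : (3 - ((1 : Fin 4) : ℕ)) * b1 + ((1 : Fin 4) : ℕ) * b2 = b1 + b1 + b2 := by
      simp
      ring
    have e2 : (3 - ((2 : Fin 4) : ℕ)) * b1 + ((2 : Fin 4) : ℕ) * b2 = b1 + b2 + b2 := by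
      simp
      ring
    have e3 : (3 - ((3 : Fin 4) : ℕ)) * b1 + ((3 : Fin 4) : ℕ) * b2 = b2 + b2 + b2 := by
      simp
      ring
    refine add2 _ _ _ (add2 _ _ _ (add2 _ _ _ (key 0 _ ?_) (key 1 _ ?_)) (key 2 _ ?_))
      (key 3 _ ?_)
    · rw [e0]
      exact m3 _ _ _ b1 b1 b1 _ (hu _) (hu _) (hu _) rfl
    · rw [e1]
      exact add2 _ _ _ (add2 _ _ _ (m3 _ _ _ b1 b1 b2 _ (hu _) (hu _) (hv _) rfl)
        (m3 _ _ _ b1 b2 b1 _ (hu _) (hv _) (hu _) (by ring)))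
        (m3 _ _ _ b2 b1 b1 _ (hv _) (hu _) (hu _) (by ring))
    · rw [e2]
      exact add2 _ _ _ (add2 _ _ _ (m3 _ _ _ b1 b2 b2 _ (hu _) (hv _) (hv _) rfl)
        (m3 _ _ _ b2 b1 b2 _ (hv _) (hu _) (hv _) (by ring)))
        (m3 _ _ _ b2 b2 b1 _ (hv _) (hv _) (hu _) (by ring))
    · rw [e3]
      exact m3 _ _ _ b2 b2 b2 _ (hv _) (hv _) (hv _) rfl
  have hplu : ∀ p q, (plu u v p q).natDegree ≤ b1 + b2 := by
    intro p q
    unfold plu
    refine (Polynomial.natDegree_sub_le_of_le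
      (Polynomial.natDegree_mul_le_of_le (hu _) (hv _))
      (Polynomial.natDegree_mul_le_of_le (hu _) (hv _))).trans (by simp)
  exact ⟨hcub, hplu, fun I => Polynomial.natDegree_mul_le_of_le (hcub _ _ _) (hplu _ _)⟩

end MP9a7843.M
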