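import Pool.Agent.Lib.MP_9a7843_ag_M.Lin
import Pool.Agent.Lib.MP_9a7843_ag_M.Deg

/-!
# Block M, Ksp: the vectors killed by a tuple
-/

namespace MP9a7843.M

open Polynomial

private theorem ksp_good {K : Type*} [Field K] {e b1 b2 : ℕ} {u v : Fin 10 → K[X]}
    {c : Fin 4 → K[X]} (h : Bd e b1 b2 u v c) (hg : Good (e + (b1 + b2)) (zfun u v c)) :
    Good e (fun s : Fin 10 × Fin 10 × Fin 10 => cub u v c s.1 s.2.1 s.2.2) ∧
      Good (b1 + b2) (fun p : Fin 10 × Fin 10 => plu u v p.1 p.2) :=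
  Good.factors (F := fun s : Fin 10 × Fin 10 × Fin 10 => cub u v c s.1 s.2.1 s.2.2)
    (P := fun p : Fin 10 × Fin 10 => plu u v p.1 p.2)
    (fun s => h.degrees.1 s.1 s.2.1 s.2.2) (fun p => h.degrees.2.1 p.1 p.2) hg

/-- Row M5g. For `g = zfun u v c` good, with the bounds `Bd`: `P` is good and the vectors killed by
the rows are the combinations of `u` and `v`, with control of degrees.
Proof: `Good.factors`; a row `s` with `F s ≠ 0` gives `w ∧ P = 0` (cancel `F s` in a domain);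
`exists_coeffs`, `degree_coeffs`. -/
theorem kills_iff {K : Type*} [Field K] {e b1 b2 n : ℕ} {u v : Fin 10 → K[X]}
    {c : Fin 4 → K[X]} (h : Bd e b1 b2 u v c) (hg : Good (e + (b1 + b2)) (zfun u v c))
    {w : Fin 10 → K[X]} (hw : Kills (zfun u v c) w) (hn : ∀ i, (w i).natDegree ≤ n) :
    ∃ α β : K[X], (∀ i, w i = α * u i + β * v i) ∧ (α = 0 ∨ α.natDegree + b1 ≤ n) ∧
      (β = 0 ∨ β.natDegree + b2 ≤ n) := by
  obtain ⟨⟨-, -, s, hs⟩, hP1, -, hP3⟩ := ksp_good h hg
  have hs0 : cub u v c s.1 s.2.1 s.2.2 ≠ 0 := by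
    intro h0
    apply hs
    change (cub u v c s.1 s.2.1 s.2.2).coeff e = 0
    rw [h0, coeff_zero]
  have hw' : ∀ a b d, w a * plu u v b d - w b * plu u v a d + w d * plu u v a b = 0 := by
    intro a b d
    have h1 : w a * (cub u v c s.1 s.2.1 s.2.2 * plu u v b d) -
        w b * (cub u v c s.1 s.2.1 s.2.2 * plu u v a d) +
        w d * (cub u v c s.1 s.2.1 s.2.2 * plu u v a b) = 0 := hw s a b d
    refine (mul_eq_zero.1 (?_ : cub u v c s.1 s.2.1 s.2.2 * _ = 0)).resolve_left hs0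
    linear_combination h1
  obtain ⟨α, β, hαβ⟩ := exists_coeffs hP1 hw'
  have hd := degree_coeffs (α := α) (β := β) (n := n) h.hu h.hv hP3 fun i => by
    rw [← hαβ i]
    exact hn i
  exact ⟨α, β, hαβ, hd.1, hd.2⟩

/-- Row M5h. `u` itself is killed, and is not zero. -/
theorem kills_self {K : Type*} [Field K] {e b1 b2 : ℕ} {u v : Fin 10 → K[X]}
    {c : Fin 4 → K[X]} (h : Bd e b1 b2 u v c) (hg : Good (e + (b1 + b2)) (zfun u v c)) :
    u ≠ 0 ∧ Kills (zfun u v c) u := by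
  obtain ⟨-, -, -, p, hp⟩ := ksp_good h hg
  refine ⟨fun hu => hp ?_, fun s a b d => ?_⟩
  · change (plu u v p.1 p.2).coeff (b1 + b2) = 0
    unfold plu
    rw [hu]
    simp
  · change u a * (cub u v c s.1 s.2.1 s.2.2 * (u b * v d - u d * v b)) -
        u b * (cub u v c s.1 s.2.1 s.2.2 * (u a * v d - u d * v a)) +
        u d * (cub u v c s.1 s.2.1 s.2.2 * (u a * v b - u b * v a)) = 0
    ring

end MP9a7843.M
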