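import Pool.Agent.Lib.MP_9a7843_ag_M.SlD

/-!
# Block M, SlC: numbers of parameters
-/

namespace MP9a7843.M

open Polynomial

universe u

private theorem slC_ge (b1 : ℕ) :
    ∀ m, ∑ n ∈ Finset.range m, (if b1 ≤ n then 1 else 0) = m - b1
  | 0 => by simp
  | m + 1 => by
    rw [Finset.sum_range_succ, slC_ge b1 m]
    split_ifs <;> omega

private theorem slC_geF (b1 m : ℕ) : ∑ n : Fin m, (if b1 ≤ (n : ℕ) then 1 else 0) = m - b1 := by
  rw [← slC_ge b1 m]
  exact Fin.sum_univ_eq_sum_range (fun n => if b1 ≤ n then 1 else 0) m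

private theorem slC_eqF (b : ℕ) : ∑ n : Fin (b + 1), (if (n : ℕ) = b then 1 else 0) = 1 := by
  rw [Fin.sum_univ_castSucc]
  have h1 : ∑ n : Fin b, (if ((Fin.castSucc n : Fin (b + 1)) : ℕ) = b then 1 else 0) = 0 := by
    refine Finset.sum_eq_zero fun n _ => if_neg ?_
    have := n.2
    simp only [Fin.val_castSucc]
    omega
  rw [h1]
  simp

/-- Row M16c. Number of parameters. -/
theorem card_par (b1 b2 : ℕ) (q : Fin 4 → ℕ) :
    Fintype.card (Par b1 b2 q) = 10 * (b1 + 1) + 10 * (b2 + 1) + ∑ m, q m := by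
  simp only [Par, Fintype.card_sum, Fintype.card_prod, Fintype.card_sigma, Fintype.card_fin]
  ring

/-- Row M16d. Number of normalised coordinates (`b2 - b1 + 3`, and `4` if `b1 = b2`). -/
theorem card_slc {b1 b2 : ℕ} (hb : b1 ≤ b2) (q : Fin 4 → ℕ) :
    Nat.card {s : Par b1 b2 q // ¬ IsNrm s} + (b2 - b1 + 3 + if b1 = b2 then 1 else 0) =
      Fintype.card (Par b1 b2 q) := by
  classical
  have hA : ∑ i : Fin 10, ∑ n : Fin (b1 + 1),
      (if IsNrm (.inl (i, n) : Par b1 b2 q) then 1 else 0) = 1 + if b1 = b2 then 1 else 0 := by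
    have h : ∀ i : Fin 10, ∑ n : Fin (b1 + 1),
        (if IsNrm (.inl (i, n) : Par b1 b2 q) then 1 else 0) =
          if (i = 0 ∨ (i = 1 ∧ b1 = b2)) then 1 else 0 := by
      intro i
      by_cases hi : (i = 0 ∨ (i = 1 ∧ b1 = b2))
      · rw [if_pos hi]
        refine Eq.trans ?_ (slC_eqF b1)
        refine Finset.sum_congr rfl fun n _ => ?_
        simp only [IsNrm, hi, and_true]
      · rw [if_neg hi]
        refine Finset.sum_eq_zero fun n _ => if_neg ?_
        rintro ⟨_, h2⟩
        exact hi h2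
    rw [Finset.sum_congr rfl fun i _ => h i]
    by_cases e : b1 = b2
    · simp only [e, and_true, if_true]
      decide
    · simp only [e, and_false, or_false, if_false]
      decide
  have hB : ∑ i : Fin 10, ∑ n : Fin (b2 + 1),
      (if IsNrm (.inr (.inl (i, n)) : Par b1 b2 q) then 1 else 0) = b2 + 1 - b1 + 1 := by
    have h : ∀ i : Fin 10, ∑ n : Fin (b2 + 1),
        (if IsNrm (.inr (.inl (i, n)) : Par b1 b2 q) then 1 else 0) =
          if i = 0 then b2 + 1 - b1 else if i = 1 then 1 else 0 := by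
      intro i
      by_cases h0 : i = 0
      · rw [if_pos h0, ← slC_geF b1 (b2 + 1)]
        refine Finset.sum_congr rfl fun n _ => ?_
        subst h0
        simp [IsNrm]
      · rw [if_neg h0]
        by_cases h1 : i = 1
        · rw [if_pos h1]
          refine Eq.trans ?_ (slC_eqF b2)
          refine Finset.sum_congr rfl fun n _ => ?_
          subst h1
          simp [IsNrm]
        · rw [if_neg h1]
          refine Finset.sum_eq_zero fun n _ => if_neg ?_
          rintro (⟨h2, _⟩ | ⟨h2, _⟩)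
          · exact h0 h2
          · exact h1 h2
    have h3 : ∀ c : ℕ, ∑ i : Fin 10, (if i = 0 then c else if i = 1 then 1 else 0) = c + 1 := by
      intro c
      rw [Fin.sum_univ_succ, Fin.sum_univ_succ, if_pos rfl]
      have h4 : ∀ i : Fin 8, (if i.succ.succ = (0 : Fin 10) then c else
          if i.succ.succ = (1 : Fin 10) then 1 else 0) = 0 := by
        intro i
        have h5 : i.succ.succ ≠ (0 : Fin 10) := Fin.succ_ne_zero _
        have h6 : i.succ.succ ≠ (1 : Fin 10) := fun h7 => by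
          have := congrArg Fin.val h7
          simp at this
        rw [if_neg h5, if_neg h6]
      rw [Finset.sum_congr rfl fun i _ => h4 i]
      simp
    rw [Finset.sum_congr rfl fun i _ => h i, h3]
  have hC : ∑ s : (Σ m : Fin 4, Fin (q m)),
      (if IsNrm (.inr (.inr s) : Par b1 b2 q) then 1 else 0) = 0 :=
    Finset.sum_eq_zero fun s _ => if_neg fun h => h
  have h1 : Fintype.card {s : Par b1 b2 q // IsNrm s} =
      b2 - b1 + 3 + if b1 = b2 then 1 else 0 := by
    rw [Fintype.card_subtype, Finset.card_filter, Fintype.sum_sum_type, Fintype.sum_sum_type,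
      Fintype.sum_prod_type, Fintype.sum_prod_type, hA, hB, hC]
    omega
  have h2 := Fintype.card_subtype_le (fun s : Par b1 b2 q => IsNrm s)
  rw [Nat.card_eq_fintype_card, Fintype.card_subtype_compl, h1]
  rw [h1] at h2
  omega

/-- Row M17b. Comparison of the numbers of parameters of the types `(b - δ, b + δ)`, `δ < x`, and
`(b - x, b + x)` for `e = 3 b + x`.
Proof: `card_par`, `card_slc`, `qf`: the sums of the `qf` are
`(x + 1 + 3 δ) + (x + 1 + δ) + (x + 1 - δ) + (x + 1 - 3 δ)` (truncated), and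
`20 b + 20 + 4 x + 4 - 4` (`δ = 0`), `20 b + 20 + 4 x + 1 - 2 δ` (`1 ≤ δ`, `3 δ ≤ x + 1`),
`20 b + 20 + 3 x + δ` (`3 δ ≥ x + 1`) are at most `20 b + 20 + 4 x`. -/
theorem card_slc_le {b x δ : ℕ} (hx : x ≤ b) (hδ : δ < x) :
    Nat.card {s : Par (b - δ) (b + δ) (qf (3 * b + x) (b - δ) (b + δ)) // ¬ IsNrm s} +
        (b + x - (b - x) + 3) ≤
      Fintype.card (Par (b - x) (b + x) (qf (3 * b + x) (b - x) (b + x))) := by
  have h1 := card_slc (b1 := b - δ) (b2 := b + δ) (by omega)
    (qf (3 * b + x) (b - δ) (b + δ))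
  rw [card_par, Fin.sum_univ_four] at h1
  rw [card_par, Fin.sum_univ_four]
  simp only [qf] at h1 ⊢
  have e0 : ((0 : Fin 4) : ℕ) = 0 := rfl
  have e1 : ((1 : Fin 4) : ℕ) = 1 := rfl
  have e2 : ((2 : Fin 4) : ℕ) = 2 := rfl
  have e3 : ((3 : Fin 4) : ℕ) = 3 := rfl
  rw [e0, e1, e2, e3] at h1
  rw [e0, e1, e2, e3]
  split_ifs at h1 with h2 <;> omega

end MP9a7843.M
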