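import Pool.Agent.Lib.MP_9a7843_ag_M.Fam

/-!
# Block M, Cov: a family which is covered by another one
-/

namespace MP9a7843.M

open Polynomial

universe u

/-- Row M16a. If almost all members of a family are members of another family, then the kernels
are ordered.  Proof: for `Φ ∈ ker (cH G')` and `Ψ(a) ≠ 0`, `eval a (cH G Φ) = eval (cf (spec a G)) Φ
= eval (cf (spec a' G')) Φ = eval a' (cH G' Φ) = 0` (`eval_cH`), so `cH G Φ * Ψ = 0`
(`MvPolynomial.funext`). -/
theorem ker_le_of_cover {k : Type u} [Field k] [Infinite k] {ι τ τ' : Type*}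
    (G : ι → (MvPolynomial τ k)[X]) (G' : ι → (MvPolynomial τ' k)[X]) (Ψ : MvPolynomial τ k)
    (hΨ : Ψ ≠ 0)
    (h : ∀ a, MvPolynomial.eval a Ψ ≠ 0 → ∃ a', spec a G = spec a' G') :
    RingHom.ker (cH G') ≤ RingHom.ker (cH G) := by
  intro Φ hΦ
  rw [RingHom.mem_ker] at hΦ ⊢
  have h3 : cH G Φ * Ψ = 0 := by
    refine MvPolynomial.funext fun a => ?_
    rw [map_mul, map_zero]
    by_cases h4 : MvPolynomial.eval a Ψ = 0
    · rw [h4, mul_zero]
    · obtain ⟨a', ha'⟩ := h a h4
      rw [eval_cH, ha', ← eval_cH, hΦ, map_zero, zero_mul]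
  exact (mul_eq_zero.1 h3).resolve_right hΨ

end MP9a7843.M
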