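import Pool.Agent.Lib.MP_9a7843_ag_M.Chg

/-!
# Block M, Nrm: normal forms
-/

namespace MP9a7843.M

open Polynomial

private def Lo {k : Type*} [Field k] (e w : ℕ) (p : k[X]) : Prop := p = 0 ∨ p.natDegree + w ≤ e

private theorem Lo.add {k : Type*} [Field k] {e w : ℕ} {p q : k[X]} (hp : Lo e w p)
    (hq : Lo e w q) : Lo e w (p + q) := by
  rcases hp with hp | hp
  · rw [hp, zero_add]
    exact hq
  · rcases hq with hq | hq
    · rw [hq, add_zero]
      exact Or.inr hp
    · right
      have := natDegree_add_le p q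
      omega

private theorem Lo.term {k : Type*} [Field k] {e w w' n : ℕ} {p γ : k[X]} (hp : Lo e w p)
    (s : k) (j : ℕ) (hγ : γ.natDegree ≤ n) (h : j * n + w' ≤ w) :
    Lo e w' (C s * γ ^ j * p) := by
  rcases hp with hp | hp
  · left
    rw [hp, mul_zero]
  · right
    have h1 : (C s * γ ^ j * p).natDegree ≤ (C s * γ ^ j).natDegree + p.natDegree :=
      natDegree_mul_le
    have h2 : (C s * γ ^ j).natDegree ≤ (γ ^ j).natDegree := natDegree_C_mul_le _ _
    have h3 : (γ ^ j).natDegree ≤ j * γ.natDegree := natDegree_pow_le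
    have h4 : j * γ.natDegree ≤ j * n := Nat.mul_le_mul_left j hγ
    omega

private theorem step_one {k : Type*} [Field k] {e b1 b2 : ℕ} (hb : b1 ≤ b2)
    {u' v' : Fin 10 → k[X]} {c : Fin 4 → k[X]} (a d : k) (γ : k[X])
    (hγ : γ.natDegree ≤ b2 - b1)
    (hc : ∀ m : Fin 4, c m = 0 ∨ (c m).natDegree + ((3 - (m : ℕ)) * b1 + (m : ℕ) * b2) ≤ e)
    (hu : ∀ i, (u' i).natDegree ≤ b1) (hv : ∀ i, (v' i).natDegree ≤ b2) :
    Bd e b1 b2 u' v' (fun m => (C a * C d - 0 * γ) * chc (C a) 0 γ (C d) c m) := by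
  obtain ⟨t, rfl⟩ := Nat.exists_eq_add_of_le hb
  rw [Nat.add_sub_cancel_left] at hγ
  have c0 : Lo e (3 * b1) (c 0) := by
    have := hc 0
    simpa [Lo] using this
  have c1 : Lo e (3 * b1 + t) (c 1) := by
    have := hc 1
    simp only [Fin.val_one] at this
    unfold Lo
    refine this.imp_right fun h => ?_
    omega
  have c2 : Lo e (3 * b1 + 2 * t) (c 2) := by
    have := hc 2
    simp only [Fin.val_two] at this
    unfold Lo
    refine this.imp_right fun h => ?_
    omega
  have c3 : Lo e (3 * b1 + 3 * t) (c 3) := by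
    have := hc 3
    have h3 : ((3 : Fin 4) : ℕ) = 3 := rfl
    rw [h3] at this
    unfold Lo
    refine this.imp_right fun h => ?_
    omega
  refine ⟨hu, hv, fun m => ?_⟩
  show Lo e _ _
  fin_cases m
  · have h : (C a * C d - 0 * γ) * chc (C a) 0 γ (C d) c 0 =
        C (a * d * a ^ 3) * γ ^ 0 * c 0 + C (a * d * (3 * a ^ 2)) * γ ^ 1 * c 1 +
          C (a * d * (3 * a)) * γ ^ 2 * c 2 + C (a * d) * γ ^ 3 * c 3 := by
      simp only [chc, Matrix.cons_val_zero, C_mul, C_pow]
      have : (C 3 : k[X]) = 3 := rfl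
      rw [this]
      ring
    simp only [Fin.zero_eta]
    rw [h]
    refine Lo.add (Lo.add (Lo.add (c0.term _ 0 hγ ?_) (c1.term _ 1 hγ ?_))
      (c2.term _ 2 hγ ?_)) (c3.term _ 3 hγ ?_) <;> simp <;> omega
  · have h : (C a * C d - 0 * γ) * chc (C a) 0 γ (C d) c 1 =
        C (a * d * (a ^ 2 * d)) * γ ^ 0 * c 1 + C (a * d * (2 * a * d)) * γ ^ 1 * c 2 +
          C (a * d * d) * γ ^ 2 * c 3 := by
      simp only [chc, Matrix.cons_val_one, Matrix.cons_val_zero, C_mul, C_pow]
      have : (C 2 : k[X]) = 2 := rfl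
      rw [this]
      ring
    simp only [Fin.mk_one]
    rw [h]
    refine Lo.add (Lo.add (c1.term _ 0 hγ ?_) (c2.term _ 1 hγ ?_)) (c3.term _ 2 hγ ?_) <;>
      simp <;> omega
  · have h : (C a * C d - 0 * γ) * chc (C a) 0 γ (C d) c 2 =
        C (a * d * (a * d ^ 2)) * γ ^ 0 * c 2 + C (a * d * d ^ 2) * γ ^ 1 * c 3 := by
      simp only [chc, Matrix.cons_val, C_mul, C_pow]
      ring
    simp only [Fin.reduceFinMk]
    rw [h]
    refine Lo.add (c2.term _ 0 hγ ?_) (c3.term _ 1 hγ ?_) <;> simp <;> omega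
  · have h : (C a * C d - 0 * γ) * chc (C a) 0 γ (C d) c 3 =
        C (a * d * d ^ 3) * γ ^ 0 * c 3 := by
      simp only [chc, Matrix.cons_val, C_mul, C_pow]
      ring
    simp only [Fin.reduceFinMk]
    rw [h]
    refine c3.term _ 0 hγ ?_
    simp
    omega

/-- Row M15. Proof: let `γ = v 0 / u 0` (Euclidean division; `natDegree (u 0) = b1` exactly), so
`natDegree γ ≤ b2 - b1` and `v 0 - γ * u 0` has no coefficients in degrees `≥ b1`.  With
`a = (u 0).coeff b1` let `u1 = a⁻¹ u`, `v1 = r (v - γ u)`, where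
`r⁻¹ = (v 1 - γ * u 1).coeff b2 = det / a ≠ 0` (`γ.coeff (b2 - b1) = (v 0).coeff b2 / a`).  If
`b1 < b2` take `u' = u1`, `v' = v1`; if `b1 = b2` then `γ` is constant, and `u' = u1 - s v1`,
`s = (u1 1).coeff b1`, `v' = v1`.  In both cases `u = A u' + B v'`, `v = C u' + D v'` with constants
`A`, `B`, `D` (`B = 0` if `b1 < b2`) and `natDegree C ≤ b2 - b1`, and `zfun_change` gives `c'`; the
degrees of `c'` follow from the formula for `chc` (every factor `C` raises the degree by at most
`b2 - b1` and replaces one `b1` by `b2`). -/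
theorem exists_normal {k : Type*} [Field k] {e b1 b2 : ℕ} (hb : b1 ≤ b2)
    {u v : Fin 10 → k[X]} {c : Fin 4 → k[X]} (h : Bd e b1 b2 u v c)
    (h0 : (u 0).coeff b1 ≠ 0)
    (hdet : (u 0).coeff b1 * (v 1).coeff b2 - (u 1).coeff b1 * (v 0).coeff b2 ≠ 0) :
    ∃ (u' v' : Fin 10 → k[X]) (c' : Fin 4 → k[X]), Bd e b1 b2 u' v' c' ∧
      zfun u' v' c' = zfun u v c ∧ (u' 0).coeff b1 = 1 ∧ (∀ n, b1 ≤ n → (v' 0).coeff n = 0) ∧
      (v' 1).coeff b2 = 1 ∧ (b1 = b2 → (u' 1).coeff b1 = 0) := by
  set a : k := (u 0).coeff b1 with ha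
  have hu0 : u 0 ≠ 0 := by
    intro h1
    rw [ha, h1] at h0
    simp at h0
  have hdeg0 : (u 0).natDegree = b1 :=
    le_antisymm (h.hu 0) (le_natDegree_of_ne_zero h0)
  set γ : k[X] := v 0 / u 0 with hγdef
  have hγ : γ.natDegree ≤ b2 - b1 := by
    rw [hγdef, Polynomial.div_def]
    refine (natDegree_C_mul_le _ _).trans ?_
    rw [natDegree_divByMonic _ (monic_mul_leadingCoeff_inv hu0),
      natDegree_mul_leadingCoeff_inv _ hu0, hdeg0]
    exact Nat.sub_le_sub_right (h.hv 0) b1
  have hrem : ∀ n, b1 ≤ n → (v 0 - γ * u 0).coeff n = 0 := by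
    intro n hn
    have h1 : v 0 - γ * u 0 = v 0 % u 0 := by
      have := EuclideanDomain.div_add_mod (v 0) (u 0)
      rw [hγdef]
      linear_combination -this
    rw [h1]
    refine coeff_eq_zero_of_degree_lt ?_
    refine (degree_mod_lt _ hu0).trans_le ?_
    rw [degree_eq_natDegree hu0, hdeg0]
    exact_mod_cast hn
  have hγtop : γ.coeff (b2 - b1) * a = (v 0).coeff b2 := by
    have h1 := hrem b2 hb
    rw [coeff_sub, sub_eq_zero] at h1
    rw [h1]
    have h2 := coeff_mul_add_eq_of_natDegree_le (f := γ) (g := u 0) hγ (h.hu 0)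
    rw [Nat.sub_add_cancel hb] at h2
    rw [h2]
  have hcoef1 : (v 1 - γ * u 1).coeff b2 =
      (v 1).coeff b2 - γ.coeff (b2 - b1) * (u 1).coeff b1 := by
    have h2 := coeff_mul_add_eq_of_natDegree_le (f := γ) (g := u 1) hγ (h.hu 1)
    rw [Nat.sub_add_cancel hb] at h2
    rw [coeff_sub, h2]
  set d : k := (v 1 - γ * u 1).coeff b2 with hd
  have hd0 : d ≠ 0 := by
    intro h1
    apply hdet
    have : (v 1).coeff b2 = γ.coeff (b2 - b1) * (u 1).coeff b1 := by
      rw [hcoef1, sub_eq_zero] at h1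
      exact h1
    rw [this, ← hγtop]
    ring
  -- first step
  set u1 : Fin 10 → k[X] := fun i => C a⁻¹ * u i with hu1
  set v1 : Fin 10 → k[X] := fun i => C d⁻¹ * (v i - γ * u i) with hv1
  have hCa : (C a * C a⁻¹ : k[X]) = 1 := by
    rw [← C_mul, mul_inv_cancel₀ h0, C_1]
  have hCd : (C d * C d⁻¹ : k[X]) = 1 := by
    rw [← C_mul, mul_inv_cancel₀ hd0, C_1]
  have hu_eq : u = fun i => C a * u1 i + 0 * v1 i := by
    funext i
    simp only [hu1]
    linear_combination (-(u i)) * hCa
  have hv_eq : v = fun i => (γ * C a) * u1 i + C d * v1 i := by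
    funext i
    simp only [hu1, hv1]
    linear_combination (-(γ * u i)) * hCa + (-(v i - γ * u i)) * hCd
  have hu1deg : ∀ i, (u1 i).natDegree ≤ b1 := fun i =>
    (natDegree_C_mul_le _ _).trans (h.hu i)
  have hv1deg : ∀ i, (v1 i).natDegree ≤ b2 := by
    intro i
    refine (natDegree_C_mul_le _ _).trans ((natDegree_sub_le _ _).trans (max_le (h.hv i) ?_))
    refine natDegree_mul_le.trans ?_
    have := h.hu i
    omega
  have hγa : (γ * C a).natDegree ≤ b2 - b1 := (natDegree_mul_C_le _ _).trans hγ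
  have hBd1 := step_one (e := e) hb a d (γ * C a) hγa h.hc hu1deg hv1deg
  have hz1 : zfun u v c = zfun u1 v1
      (fun m => (C a * C d - 0 * (γ * C a)) * chc (C a) 0 (γ * C a) (C d) c m) := by
    conv_lhs => rw [hu_eq, hv_eq]
    exact zfun_change _ _ _ _ _ _ _
  set c1 : Fin 4 → k[X] :=
    (fun m => (C a * C d - 0 * (γ * C a)) * chc (C a) 0 (γ * C a) (C d) c m) with hc1
  have p1 : (u1 0).coeff b1 = 1 := by
    simp only [hu1, coeff_C_mul]
    exact inv_mul_cancel₀ h0
  have p2 : ∀ n, b1 ≤ n → (v1 0).coeff n = 0 := by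
    intro n hn
    simp only [hv1, coeff_C_mul]
    rw [hrem n hn, mul_zero]
  have p3 : (v1 1).coeff b2 = 1 := by
    simp only [hv1, coeff_C_mul]
    rw [← hd]
    exact inv_mul_cancel₀ hd0
  by_cases hbb : b1 = b2
  · set s : k := (u1 1).coeff b1 with hs
    refine ⟨fun i => u1 i - C s * v1 i, v1,
      fun m => (1 * 1 - C s * 0) * chc 1 (C s) 0 1 c1 m, ?_, ?_, ?_, p2, p3, ?_⟩
    · refine ⟨fun i => ?_, hv1deg, fun m => ?_⟩
      · refine (natDegree_sub_le _ _).trans (max_le (hu1deg i) ?_)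
        refine (natDegree_C_mul_le _ _).trans ?_
        rw [hbb]
        exact hv1deg i
      · subst hbb
        have hL : ∀ m : Fin 4, Lo e (3 * b1) (c1 m) := by
          intro m
          refine (hBd1.hc m).imp_right fun h3 => ?_
          have hm := m.2
          have h4 : (3 - (m : ℕ)) * b1 + (m : ℕ) * b1 = 3 * b1 := by
            rw [← Nat.add_mul]
            congr 1
            omega
          omega
        have hw : ((3 - (m : ℕ)) * b1 + (m : ℕ) * b1) = 3 * b1 := by
          have hm := m.2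
          rw [← Nat.add_mul]
          congr 1
          omega
        rw [hw]
        show Lo e (3 * b1) _
        have hT : ∀ (x : k) (m : Fin 4), Lo e (3 * b1) (C x * c1 m) := by
          intro x m
          have := (hL m).term x 0 (γ := (0 : k[X])) (n := 0) (w' := 3 * b1) (by simp) (by simp)
          simpa using this
        fin_cases m
        · have h5 : (1 * 1 - C s * 0) * chc 1 (C s) 0 1 c1 0 = C 1 * c1 0 := by
            simp [chc]
          simp only [Fin.zero_eta]
          rw [h5]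
          exact hT _ _
        · have h5 : (1 * 1 - C s * 0) * chc 1 (C s) 0 1 c1 1 = C s * c1 0 + C 1 * c1 1 := by
            simp [chc]
          simp only [Fin.mk_one]
          rw [h5]
          exact (hT _ _).add (hT _ _)
        · have h5 : (1 * 1 - C s * 0) * chc 1 (C s) 0 1 c1 2 =
              C (s ^ 2) * c1 0 + C (2 * s) * c1 1 + C 1 * c1 2 := by
            have h2 : (C 2 : k[X]) = 2 := rfl
            simp [chc, h2]
          simp only [Fin.reduceFinMk]
          rw [h5]
          exact ((hT _ _).add (hT _ _)).add (hT _ _)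
        · have h5 : (1 * 1 - C s * 0) * chc 1 (C s) 0 1 c1 3 =
              C (s ^ 3) * c1 0 + C (3 * s ^ 2) * c1 1 + C (3 * s) * c1 2 + C 1 * c1 3 := by
            have h2 : (C 3 : k[X]) = 3 := rfl
            simp [chc, h2]
          simp only [Fin.reduceFinMk]
          rw [h5]
          exact (((hT _ _).add (hT _ _)).add (hT _ _)).add (hT _ _)
    · rw [hz1]
      have e1 : u1 = fun i => 1 * (u1 i - C s * v1 i) + C s * v1 i := by
        funext i
        ring
      have e2 : v1 = fun i => 0 * (u1 i - C s * v1 i) + 1 * v1 i := by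
        funext i
        ring
      have := zfun_change 1 (C s) 0 1 (fun i => u1 i - C s * v1 i) v1 c1
      rw [← this]
      rw [← e1]
      congr 1
      exact e2.symm
    · simp only [coeff_sub, coeff_C_mul]
      rw [p1, p2 b1 le_rfl, mul_zero, sub_zero]
    · intro _
      simp only [coeff_sub, coeff_C_mul]
      have p3' : (v1 1).coeff b1 = 1 := by
        rw [hbb]
        exact p3
      rw [p3', ← hs, mul_one, sub_self]
  · exact ⟨u1, v1, c1, hBd1, hz1.symm, p1, p2, p3, fun h => absurd h hbb⟩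

end MP9a7843.M
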