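import Pool.Agent.Lib.MP_9a7843_ag_M.Chg

/-!
# Block M, ParL: tuples and their parameters
-/

namespace MP9a7843.M

open Polynomial

private theorem pl_coeff {R : Type*} [CommRing R] {N : ℕ} (f : Fin N → R) (m : ℕ) :
    (∑ n : Fin N, C (f n) * X ^ (n : ℕ)).coeff m = if h : m < N then f ⟨m, h⟩ else 0 := by
  rw [finsetSum_coeff]
  simp only [coeff_C_mul_X_pow]
  split_ifs with h
  · rw [Finset.sum_eq_single (⟨m, h⟩ : Fin N)]
    · rw [if_pos rfl]
    · intro n _ hn
      rw [if_neg]
      intro h1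
      exact hn (Fin.ext h1.symm)
    · exact fun h1 => absurd (Finset.mem_univ _) h1
  · refine Finset.sum_eq_zero fun n _ => ?_
    rw [if_neg]
    intro h1
    exact h (h1 ▸ n.2)

private theorem pl_coeff' {R : Type*} [CommRing R] {N : ℕ} (f : Fin N → R) (n : Fin N) :
    (∑ n : Fin N, C (f n) * X ^ (n : ℕ)).coeff n = f n := by
  rw [pl_coeff, dif_pos n.2]

private theorem pl_of {R : Type*} [CommRing R] {N : ℕ} {p : R[X]}
    (h : ∀ m, N ≤ m → p.coeff m = 0) :
    ∑ n : Fin N, C (p.coeff n) * X ^ (n : ℕ) = p := by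
  ext m
  rw [pl_coeff]
  split_ifs with h1
  · rfl
  · exact (h m (not_lt.1 h1)).symm

private theorem pl_deg {R : Type*} [CommRing R] {N : ℕ} (f : Fin (N + 1) → R) :
    (∑ n : Fin (N + 1), C (f n) * X ^ (n : ℕ)).natDegree ≤ N := by
  rw [natDegree_le_iff_coeff_eq_zero]
  intro m hm
  rw [pl_coeff, dif_neg (by omega)]

private theorem pl_high {R : Type*} [CommRing R] {N : ℕ} {p : R[X]} (h : p.natDegree ≤ N) :
    ∀ m, N + 1 ≤ m → p.coeff m = 0 :=
  fun _ hm => coeff_eq_zero_of_natDegree_lt (by omega)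

private theorem pl_map {R S : Type*} [CommRing R] [CommRing S] (f : R →+* S) {N : ℕ}
    (g : Fin N → R) : (∑ n : Fin N, C (g n) * X ^ (n : ℕ)).map f =
      ∑ n : Fin N, C (f (g n)) * X ^ (n : ℕ) := by
  simp only [Polynomial.map_sum, Polynomial.map_mul, map_C, Polynomial.map_pow, map_X]

/-- Row M8a. Polynomials with bounded degrees have parameters.
Proof: take the coefficients (`qf` counts them; if `qf e b1 b2 m = 0` then `c m = 0`). -/
theorem Bd.exists_par {R : Type*} [CommRing R] {e b1 b2 : ℕ} {u v : Fin 10 → R[X]}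
    {c : Fin 4 → R[X]} (h : Bd e b1 b2 u v c) :
    ∃ a : Par b1 b2 (qf e b1 b2) → R, pU a = u ∧ pV a = v ∧ pC a = c := by
  refine ⟨Sum.elim (fun p => (u p.1).coeff p.2) (Sum.elim (fun p => (v p.1).coeff p.2)
    (fun p => (c p.1).coeff p.2)), ?_, ?_, ?_⟩
  · funext i
    exact pl_of (p := u i) (N := b1 + 1) (pl_high (h.hu i))
  · funext i
    exact pl_of (p := v i) (N := b2 + 1) (pl_high (h.hv i))
  · funext m
    refine pl_of (p := c m) (N := qf e b1 b2 m) fun n hn => ?_
    rcases h.hc m with h1 | h1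
    · rw [h1, coeff_zero]
    · refine coeff_eq_zero_of_natDegree_lt ?_
      unfold qf at hn
      omega

/-- Row M8b. The converse. -/
theorem bd_par {R : Type*} [CommRing R] {e b1 b2 : ℕ} (a : Par b1 b2 (qf e b1 b2) → R) :
    Bd e b1 b2 (pU a) (pV a) (pC a) := by
  refine ⟨fun i => pl_deg _, fun i => pl_deg _, fun m => ?_⟩
  rcases Nat.eq_zero_or_pos (qf e b1 b2 m) with h | h
  · left
    unfold pC
    ext n
    rw [pl_coeff, dif_neg (by omega), coeff_zero]
  · right
    have h1 : (pC a m).natDegree ≤ qf e b1 b2 m - 1 := by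
      rw [natDegree_le_iff_coeff_eq_zero]
      intro n hn
      unfold pC
      rw [pl_coeff, dif_neg (by omega)]
    have h2 : qf e b1 b2 m = e + 1 - ((3 - (m : ℕ)) * b1 + (m : ℕ) * b2) := rfl
    omega

/-- Row M8c. Coefficients of the families. -/
theorem pU_coeff {R : Type*} [CommRing R] {b1 b2 : ℕ} {q : Fin 4 → ℕ} (a : Par b1 b2 q → R)
    (i : Fin 10) (n : Fin (b1 + 1)) : (pU a i).coeff n = a (.inl (i, n)) :=
  pl_coeff' (fun n => a (.inl (i, n))) n

theorem pV_coeff {R : Type*} [CommRing R] {b1 b2 : ℕ} {q : Fin 4 → ℕ} (a : Par b1 b2 q → R)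
    (i : Fin 10) (n : Fin (b2 + 1)) : (pV a i).coeff n = a (.inr (.inl (i, n))) :=
  pl_coeff' (fun n => a (.inr (.inl (i, n)))) n

theorem pC_coeff {R : Type*} [CommRing R] {b1 b2 : ℕ} {q : Fin 4 → ℕ} (a : Par b1 b2 q → R)
    (m : Fin 4) (n : Fin (q m)) : (pC a m).coeff n = a (.inr (.inr ⟨m, n⟩)) :=
  pl_coeff' (fun n => a (.inr (.inr ⟨m, n⟩))) n

/-- Row M8d. The families are compatible with homomorphisms (use `zfun_map`). -/
theorem fam_map {R S : Type*} [CommRing R] [CommRing S] (f : R →+* S) {b1 b2 : ℕ} {q : Fin 4 → ℕ}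
    (a : Par b1 b2 q → R) (I : Idx) : (fam a I).map f = fam (fun s => f (a s)) I := by
  have h1 := zfun_map (mapRingHom f) (pU a) (pV a) (pC a) I
  rw [coe_mapRingHom] at h1
  unfold fam
  rw [h1]
  congr 1
  · funext i
    exact pl_map f _
  · funext i
    exact pl_map f _
  · funext m
    exact pl_map f _

theorem famH_map {R S : Type*} [CommRing R] [CommRing S] (f : R →+* S) {b1 b2 d0 : ℕ}
    (a : ParH b1 b2 d0 → R) (I : Idx) : (famH a I).map f = famH (fun s => f (a s)) I := by
  have h1 := zfun_map (mapRingHom f) (hU a) (hV a) ![hA a, 0, 1, 0] I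
  rw [coe_mapRingHom] at h1
  unfold famH
  rw [h1]
  congr 1
  · funext i
    exact pl_map f _
  · funext i
    exact pl_map f _
  · funext m
    fin_cases m
    · exact pl_map f _
    · exact Polynomial.map_zero f
    · exact Polynomial.map_one f
    · exact Polynomial.map_zero f

/-- Row M8e. Specialisations of the generic member of a family. -/
theorem spec_fam {k : Type*} [Field k] {b1 b2 : ℕ} {q : Fin 4 → ℕ} (a : Par b1 b2 q → k) :
    spec a (fam (MvPolynomial.X (R := k) (σ := Par b1 b2 q))) = fam a := by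
  funext I
  unfold spec
  rw [fam_map]
  simp only [MvPolynomial.eval_X]

theorem spec_famH {k : Type*} [Field k] {b1 b2 d0 : ℕ} (a : ParH b1 b2 d0 → k) :
    spec a (famH (MvPolynomial.X (R := k) (σ := ParH b1 b2 d0))) = famH a := by
  funext I
  unfold spec
  rw [famH_map]
  simp only [MvPolynomial.eval_X]

/-- Row M8f. Parameters for the polynomials of the family `famH`. -/
theorem exists_parH {R : Type*} [CommRing R] {b1 b2 d0 : ℕ} {u v : Fin 10 → R[X]} {a0 : R[X]}
    (hu : ∀ i, (u i).natDegree ≤ b1) (hv : ∀ i, (v i).natDegree ≤ b2) (ha : a0.natDegree ≤ d0) :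
    ∃ a : ParH b1 b2 d0 → R, hU a = u ∧ hV a = v ∧ hA a = a0 := by
  refine ⟨Sum.elim (fun p => (u p.1).coeff p.2) (Sum.elim (fun p => (v p.1).coeff p.2)
    (fun n => a0.coeff n)), ?_, ?_, ?_⟩
  · funext i
    exact pl_of (p := u i) (N := b1 + 1) (pl_high (hu i))
  · funext i
    exact pl_of (p := v i) (N := b2 + 1) (pl_high (hv i))
  · exact pl_of (p := a0) (N := d0 + 1) (pl_high ha)

end MP9a7843.M
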