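import Pool.Agent.Lib.MP_9a7843_ag_M.SlD
import Pool.Agent.Lib.MP_9a7843_ag_M.Nrm
import Pool.Agent.Lib.MP_9a7843_ag_M.ParL
import Pool.Agent.Lib.MP_9a7843_ag_M.Cov

/-!
# Block M, SlK: the normalised members have the same vanishing ideal
-/

namespace MP9a7843.M

open Polynomial

universe u

private theorem slk_spec {k : Type u} [Field k] {b1 b2 : ℕ} {q : Fin 4 → ℕ}
    (a : {s : Par b1 b2 q // ¬ IsNrm s} → k) :
    spec a (fam (slc k b1 b2 q)) = fam (fun s => MvPolynomial.eval a (slc k b1 b2 q s)) := by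
  funext I
  exact fam_map (MvPolynomial.eval a) (slc k b1 b2 q) I

private theorem slk_eval {k : Type u} [Field k] {b1 b2 : ℕ} {q : Fin 4 → ℕ}
    (a : Par b1 b2 q → k) (h : ∀ s, IsNrm s → a s = nval k s) :
    (fun s => MvPolynomial.eval (fun s : {s : Par b1 b2 q // ¬ IsNrm s} => a s.1)
      (slc k b1 b2 q s)) = a := by
  funext s
  by_cases hs : IsNrm s
  · rw [slc, dif_pos hs, MvPolynomial.eval_C, h s hs]
  · rw [slc, dif_neg hs, MvPolynomial.eval_X]

/-- Row M16b. Proof: `≤` is `ker_le_of_cover` with `Ψ = u_0,b1 * det` and `exists_normal`,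
`Bd.exists_par`, `bd_par`; `≥`: every member of the slice is a member of the family
(`ker_le_of_cover` with `Ψ = 1`, `a' = (slc evaluated at a)`; `fam_map`). -/
theorem ker_slc {k : Type u} [Field k] [Infinite k] {e b1 b2 : ℕ} (hb : b1 ≤ b2) :
    RingHom.ker (cH (fam (slc k b1 b2 (qf e b1 b2)))) =
      RingHom.ker (cH (fam (MvPolynomial.X (R := k) (σ := Par b1 b2 (qf e b1 b2))))) := by
  apply le_antisymm
  · refine ker_le_of_cover _ _
      (MvPolynomial.X (.inl (0, Fin.last b1)) *
        (MvPolynomial.X (.inl (0, Fin.last b1)) * MvPolynomial.X (.inr (.inl (1, Fin.last b2))) -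
          MvPolynomial.X (.inl (1, Fin.last b1)) *
            MvPolynomial.X (.inr (.inl (0, Fin.last b2))))) ?_ ?_
    · intro h
      have h1 := congrArg (MvPolynomial.eval (fun s : Par b1 b2 (qf e b1 b2) =>
        match s with
        | .inl (i, _) => if i = 0 then (1 : k) else 0
        | .inr (.inl (i, _)) => if i = 1 then (1 : k) else 0
        | .inr (.inr _) => 0)) h
      simp at h1
    · intro a ha
      simp only [map_mul, map_sub, MvPolynomial.eval_X] at ha
      have ha1 := left_ne_zero_of_mul ha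
      have ha2 := right_ne_zero_of_mul ha
      have hU : ∀ i, (pU a i).coeff b1 = a (.inl (i, Fin.last b1)) := fun i =>
        pU_coeff a i (Fin.last b1)
      have hV : ∀ i, (pV a i).coeff b2 = a (.inr (.inl (i, Fin.last b2))) := fun i =>
        pV_coeff a i (Fin.last b2)
      obtain ⟨u', v', c', hBd, hz, h1, h2, h3, h4⟩ := exists_normal hb (bd_par a)
        (by rw [hU]; exact ha1) (by rw [hU, hU, hV, hV]; exact ha2)
      obtain ⟨a', hu', hv', hc'⟩ := hBd.exists_par
      refine ⟨fun s => a' s.1, ?_⟩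
      rw [slk_spec, spec_fam, slk_eval a']
      · rw [fam, fam, hu', hv', hc', hz]
      · rintro (⟨i, n⟩ | ⟨i, n⟩ | x) hs
        · obtain ⟨hn, hi⟩ := hs
          rw [← pU_coeff a' i n, hu', hn]
          rcases hi with hi | ⟨hi, hbb⟩
          · rw [hi, h1]
            simp [nval]
          · rw [hi, h4 hbb]
            simp [nval]
        · rw [← pV_coeff a' i n, hv']
          rcases hs with ⟨hi, hn⟩ | ⟨hi, hn⟩
          · rw [hi, h2 n hn]
            simp [nval]
          · rw [hi, hn, h3]
            simp [nval]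
        · exact hs.elim
  · refine ker_le_of_cover _ _ 1 one_ne_zero fun a _ => ?_
    refine ⟨fun s => MvPolynomial.eval a (slc k b1 b2 (qf e b1 b2) s), ?_⟩
    rw [slk_spec, spec_fam]

end MP9a7843.M
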