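import Mathlib

/-!
# Block M, TrdA: comparison of kernels by transcendence degrees
-/

namespace MP9a7843.M

open MvPolynomial

universe u v w z

/-- Row M12a. Comparison of two prime ideals by transcendence degrees.
Proof: let `a ∈ ker φ` and suppose `φ' a ≠ 0`.  The elements `φ' (X s)`, `s ∈ B`, are
algebraically independent (a relation is in `ker φ' ≤ ker φ`), and since `card τ' ≤ card B`
they are a transcendence basis of the fraction field of `MvPolynomial τ' k`
(transcendence degree `card τ'`), so `φ' a` is algebraic over them: there are `N ≥ 1` and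
`r_0, ..., r_N ∈ MvPolynomial B k`, not all zero, with `∑ φ' (r_i) * (φ' a) ^ i = 0`, and we may
assume `r_0 ≠ 0` (divide by a power of `φ' a ≠ 0`, domain).  So
`∑ r_i * a ^ i ∈ ker φ' ≤ ker φ`, and since `φ a = 0` we get `φ r_0 = 0`, a contradiction to the
independence of the `φ (X s)`, `s ∈ B`. -/
theorem ker_eq_of_trdeg {k : Type u} [Field k] {σ : Type v} {τ' : Type w} [Finite τ']
    {A : Type z} [CommRing A] [IsDomain A] [Algebra k A]
    (φ' : MvPolynomial σ k →ₐ[k] MvPolynomial τ' k) (φ : MvPolynomial σ k →ₐ[k] A)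
    (hle : RingHom.ker φ' ≤ RingHom.ker φ) (B : Finset σ)
    (hB : AlgebraicIndependent k (fun s : B => φ (X (s : σ))))
    (hcard : Nat.card τ' ≤ B.card) : RingHom.ker φ' = RingHom.ker φ := by
  have e' : φ'.comp (rename (fun s : B => (s : σ))) = aeval (fun s : B => φ' (X (s : σ))) := by
    ext s : 1
    simp
  have e : φ.comp (rename (fun s : B => (s : σ))) = aeval (fun s : B => φ (X (s : σ))) := by
    ext s : 1
    simp
  have e1' : ∀ p : MvPolynomial B k, φ' (rename (fun s : B => (s : σ)) p) =
      aeval (fun s : B => φ' (X (s : σ))) p := fun p => DFunLike.congr_fun e' p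
  have e1 : ∀ p : MvPolynomial B k, φ (rename (fun s : B => (s : σ)) p) =
      aeval (fun s : B => φ (X (s : σ))) p := fun p => DFunLike.congr_fun e p
  have hind : AlgebraicIndependent k (fun s : B => φ' (X (s : σ))) := by
    rw [algebraicIndependent_iff]
    intro p hp
    have h1 : φ' (rename (fun s : B => (s : σ)) p) = 0 := by rw [e1', hp]
    have h2 : φ (rename (fun s : B => (s : σ)) p) = 0 := hle h1
    rw [e1] at h2
    exact (algebraicIndependent_iff.1 hB) p h2
  have htb : IsTranscendenceBasis k (fun s : B => φ' (X (s : σ))) := by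
    refine hind.isTranscendenceBasis_of_lift_trdeg_le_of_finite ?_
    rw [MvPolynomial.trdeg_of_isDomain, ← Nat.cast_card, Cardinal.mk_coe_finset]
    simpa using hcard
  have halg := htb.isAlgebraic
  refine le_antisymm hle fun a ha => ?_
  rw [RingHom.mem_ker] at ha ⊢
  by_contra hne
  have hne' : φ' a ∈ nonZeroDivisors (MvPolynomial τ' k) := mem_nonZeroDivisors_iff_ne_zero.2 hne
  obtain ⟨q, hq0, hq⟩ := (halg.isAlgebraic (φ' a)).exists_nonzero_coeff_and_aeval_eq_zero hne'
  have hl : ∀ c : Algebra.adjoin k (Set.range fun s : B => φ' (X (s : σ))),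
      ∃ p : MvPolynomial B k, aeval (fun s : B => φ' (X (s : σ))) p = (c : MvPolynomial τ' k) := by
    rintro ⟨c, hc⟩
    rw [Algebra.adjoin_range_eq_range_aeval] at hc
    exact hc
  choose l hl using hl
  have hP : φ' (∑ i ∈ q.support, rename (fun s : B => (s : σ)) (l (q.coeff i)) * a ^ i) = 0 := by
    rw [map_sum, ← hq, Polynomial.aeval_eq_sum_range' (n := q.natDegree + 1) (Nat.lt_succ_self _)]
    refine Finset.sum_subset_zero_on_sdiff Polynomial.supp_subset_range_natDegree_succ ?_ ?_
    · intro i hi
      rw [Polynomial.notMem_support_iff.1 (Finset.mem_sdiff.1 hi).2, zero_smul]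
    · intro i _
      rw [map_mul, e1', hl, map_pow, Algebra.smul_def]
      rfl
  have hP2 : φ (∑ i ∈ q.support, rename (fun s : B => (s : σ)) (l (q.coeff i)) * a ^ i) = 0 :=
    hle hP
  rw [map_sum, Finset.sum_eq_single 0] at hP2
  · rw [map_mul, e1, pow_zero, map_one, mul_one] at hP2
    have h3 := (algebraicIndependent_iff.1 hB) _ hP2
    have h4 := hl (q.coeff 0)
    rw [h3, map_zero] at h4
    exact hq0 (Subtype.ext h4.symm)
  · intro i _ hi
    rw [map_mul, map_pow]
    have h5 : φ a = 0 := ha
    rw [h5, zero_pow hi, mul_zero]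
  · intro h0
    exact absurd (Polynomial.notMem_support_iff.1 h0) hq0

end MP9a7843.M
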