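import Pool.Agent.Lib.MP_9a7843_ag_M.D

/-!
# Block M, Fam: vanishing ideals of families
-/

namespace MP9a7843.M

open Polynomial

section Families

variable {k : Type*} [Field k] {ι τ : Type*}

/-- Row M1a. Evaluate the image of `Φ` at the parameter value `a`.
Proof: both sides are ring homomorphisms in `Φ`; compare on constants and on `X (i, n)`:
`eval a ((G i).coeff n) = ((G i).map (eval a)).coeff n` (`coeff_map`). -/
theorem eval_cH (G : ι → (MvPolynomial τ k)[X]) (a : τ → k) (Φ : MvPolynomial (ι × ℕ) k) :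
    MvPolynomial.eval a (cH G Φ) = MvPolynomial.eval (cf (spec a G)) Φ := by
  have h : (MvPolynomial.eval a).comp (cH G : MvPolynomial (ι × ℕ) k →+* MvPolynomial τ k) =
      MvPolynomial.eval (cf (spec a G)) := by
    refine MvPolynomial.ringHom_ext (fun c => ?_) fun p => ?_
    · simp [cH]
    · simp [cH, cf, spec, coeff_map]
  exact congrArg (fun f => f Φ) h

/-- Row M1b. The vanishing ideal of (a dense subset of) a family is the kernel of `cH G`.
Proof: `≤`: if `Φ ∈ vI S = vI (zcl S)` then `cH G Φ * Ψ` vanishes at every `a : τ → k`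
(`eval_cH`, `h1`), so it is zero (`MvPolynomial.funext`), and `Ψ ≠ 0`, domain.
`≥`: `h2`. -/
theorem vI_eq_ker [Infinite k] (S : Set (ι → k[X])) (G : ι → (MvPolynomial τ k)[X])
    (Ψ : MvPolynomial τ k) (hΨ : Ψ ≠ 0)
    (h1 : ∀ a, MvPolynomial.eval a Ψ ≠ 0 → spec a G ∈ zcl S)
    (h2 : ∀ g ∈ S, ∀ Φ, cH G Φ = 0 → MvPolynomial.eval (cf g) Φ = 0) :
    vI S = RingHom.ker (cH G) := by
  refine le_antisymm (fun Φ hΦ => ?_) fun Φ hΦ g hg => h2 g hg Φ hΦ
  rw [RingHom.mem_ker]
  have h3 : cH G Φ * Ψ = 0 := by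
    refine MvPolynomial.funext fun a => ?_
    rw [map_mul, map_zero]
    by_cases h4 : MvPolynomial.eval a Ψ = 0
    · rw [h4, mul_zero]
    · have h5 : MvPolynomial.eval (cf (spec a G)) Φ = 0 := h1 a h4 Φ hΦ
      rw [eval_cH, h5, zero_mul]
  exact (mul_eq_zero.1 h3).resolve_right hΨ

/-- Row M1c. Kernels of homomorphisms to domains are prime. -/
theorem ker_cH_isPrime (G : ι → (MvPolynomial τ k)[X]) : (RingHom.ker (cH G)).IsPrime := by
  exact RingHom.ker_isPrime _

/-- Row M1d. A point of a one-parameter family lies in the closure of the other points.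
Proof: for `Φ ∈ vI S` the polynomial `Q = aeval (cf G) Φ ∈ k[s]` satisfies
`Q.eval s = eval (cf (fun i => (G i).map (evalRingHom s))) Φ` for all `s`; it vanishes for all `s`
with `(Ψ * X).eval s ≠ 0`, i.e. `Q * (Ψ * X)` has infinitely many roots; so `Q = 0` and
`Q.eval 0 = 0`. -/
theorem mem_zcl_of_family [Infinite k] (S : Set (ι → k[X])) (G : ι → (k[X])[X]) (Ψ : k[X])
    (hΨ : Ψ ≠ 0)
    (h : ∀ s : k, s ≠ 0 → Ψ.eval s ≠ 0 → (fun i => (G i).map (evalRingHom s)) ∈ S) :
    (fun i => (G i).map (evalRingHom 0)) ∈ zcl S := by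
  intro Φ hΦ
  have hev : ∀ s : k, (MvPolynomial.aeval (cf G) Φ : k[X]).eval s =
      MvPolynomial.eval (cf (fun i => (G i).map (evalRingHom s))) Φ := by
    intro s
    have h1 : (evalRingHom s).comp
        (MvPolynomial.aeval (cf G) : MvPolynomial (ι × ℕ) k →ₐ[k] k[X]).toRingHom =
        MvPolynomial.eval (cf (fun i => (G i).map (evalRingHom s))) := by
      refine MvPolynomial.ringHom_ext (fun c => ?_) fun p => ?_
      · simp
      · simp [cf, coeff_map]
    exact congrArg (fun f => f Φ) h1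
  have hQ : (MvPolynomial.aeval (cf G) Φ : k[X]) * (Ψ * X) = 0 := by
    refine Polynomial.funext fun s => ?_
    rw [eval_mul, eval_mul, eval_X, eval_zero]
    by_cases hs : s = 0
    · rw [hs, mul_zero, mul_zero]
    · by_cases hs2 : Ψ.eval s = 0
      · rw [hs2, zero_mul, mul_zero]
      · rw [hev, hΦ _ (h s hs hs2), zero_mul]
  have hQ0 : (MvPolynomial.aeval (cf G) Φ : k[X]) = 0 :=
    (mul_eq_zero.1 hQ).resolve_right (mul_ne_zero hΨ X_ne_zero)
  rw [← hev, hQ0, eval_zero]

end Families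

end MP9a7843.M
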