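import Pool.Agent.Lib.MP_9a7843_ag_M.Inv

/-!
# Block M, Opn: good tuples are an open condition
-/

namespace MP9a7843.M

open Polynomial

universe u v w

/-- Row M2b. No common zero is an open condition.
Proof: take `M`, `B` from `Good.exists_inverse`, and let `Ψ` be the determinant of the square matrix
over `R` with entries `Ψ_{n m} = (∑ i, (B m i).map (algebraMap k R) * G i).coeff n`,
`n, m ≤ M + D`.  `ρ` maps it to the determinant of the identity matrix.  If `σ Ψ ≠ 0` then the
matrix of `(q i) ↦ ∑ q i * (G i).map σ`, restricted to combinations of the `B m`, is invertible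
over `L`: so `1` is a combination (`Prim`), and `X ^ (M + D)` is a combination
`∑ q i * (G i).map σ` with `natDegree (q i) ≤ M`, so not all `((G i).map σ).coeff D` vanish. -/
theorem Good.exists_open {ι : Type v} [Fintype ι] {k : Type u} [Field k] {D : ℕ}
    {R : Type w} [CommRing R] [Algebra k R] (G : ι → R[X]) (hD : ∀ i, (G i).natDegree ≤ D)
    (ρ : R →ₐ[k] k) (h : Good D (fun i => (G i).map (ρ : R →+* k))) :
    ∃ Ψ : R, ρ Ψ ≠ 0 ∧ ∀ (L : Type w) [Field L] (σ : R →+* L), σ Ψ ≠ 0 →
      Good D (fun i => (G i).map σ) := by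
  classical
  obtain ⟨M, B, hB, hX⟩ := h.exists_inverse
  obtain ⟨N, hN⟩ : ∃ N, N = M + D + 1 := ⟨_, rfl⟩
  let P : ℕ → R[X] := fun m => ∑ i, (B m i).map (algebraMap k R) * G i
  let A : Matrix (Fin N) (Fin N) R := fun n m => (P m).coeff n
  have hPρ : ∀ m ≤ M + D, (P m).map (ρ : R →+* k) = X ^ m := by
    intro m hm
    rw [← hX m hm]
    simp only [P, Polynomial.map_sum, Polynomial.map_mul, Polynomial.map_map]
    refine Finset.sum_congr rfl fun i _ => ?_
    have h1 : (ρ : R →+* k).comp (algebraMap k R) = RingHom.id k := by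
      ext x
      simp
    rw [h1, Polynomial.map_id]
  refine ⟨A.det, ?_, ?_⟩
  · have h1 : (ρ : R →+* k) A.det = 1 := by
      rw [RingHom.map_det]
      have h3 : (ρ : R →+* k).mapMatrix A = 1 := by
        ext n m
        have h2 : (ρ : R →+* k) ((P m).coeff n) = ((P m).map (ρ : R →+* k)).coeff n :=
          (Polynomial.coeff_map _ _).symm
        rw [RingHom.mapMatrix_apply, Matrix.map_apply]
        change (ρ : R →+* k) ((P m).coeff n) = _
        rw [h2, hPρ m (by omega), coeff_X_pow, Matrix.one_apply]
        simp only [Fin.ext_iff]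
      rw [h3, Matrix.det_one]
    change (ρ : R →+* k) A.det ≠ 0
    rw [h1]
    exact one_ne_zero
  · intro L _ σ hσ
    have hdet : IsUnit (σ.mapMatrix A).det := by
      rw [← RingHom.map_det]
      exact isUnit_iff_ne_zero.2 hσ
    let b : ℕ → ι → L[X] := fun m i => (B m i).map (σ.comp (algebraMap k R))
    let g : ι → L[X] := fun i => (G i).map σ
    have hb : ∀ m i, (b m i).natDegree ≤ M := fun m i => natDegree_map_le.trans (hB m i)
    have hg : ∀ i, (g i).natDegree ≤ D := fun i => natDegree_map_le.trans (hD i)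
    have hP : ∀ m, (P m).map σ = ∑ i, b m i * g i := by
      intro m
      simp only [P, b, g, Polynomial.map_sum, Polynomial.map_mul, Polynomial.map_map]
    have hPd : ∀ m, ((P m).map σ).natDegree ≤ M + D := by
      intro m
      rw [hP]
      refine natDegree_sum_le_of_forall_le _ _ fun i _ => ?_
      exact natDegree_mul_le.trans (Nat.add_le_add (hb m i) (hg i))
    have key : ∀ c : Fin N → L, ∃ x : Fin N → L, ∀ n : Fin N,
        (∑ m : Fin N, C (x m) * (P m).map σ).coeff n = c n := by
      intro c
      refine ⟨(σ.mapMatrix A)⁻¹.mulVec c, fun n => ?_⟩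
      have hx : (σ.mapMatrix A).mulVec ((σ.mapMatrix A)⁻¹.mulVec c) = c := by
        rw [Matrix.mulVec_mulVec, Matrix.mul_nonsing_inv _ hdet, Matrix.one_mulVec]
      have h1 := congrFun hx n
      rw [← h1]
      rw [finsetSum_coeff]
      simp only [Matrix.mulVec, dotProduct]
      refine Finset.sum_congr rfl fun m _ => ?_
      rw [coeff_C_mul, coeff_map, RingHom.mapMatrix_apply, Matrix.map_apply, mul_comm]
    have hq : ∀ x : Fin N → L, ∑ m : Fin N, C (x m) * (P m).map σ =
        ∑ i, (∑ m : Fin N, C (x m) * b m i) * g i := by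
      intro x
      simp only [hP, Finset.mul_sum, Finset.sum_mul]
      rw [Finset.sum_comm]
      refine Finset.sum_congr rfl fun i _ => Finset.sum_congr rfl fun m _ => ?_
      ring
    have hsd : ∀ x : Fin N → L, (∑ m : Fin N, C (x m) * (P m).map σ).natDegree ≤ M + D := by
      intro x
      refine natDegree_sum_le_of_forall_le _ _ fun m _ => ?_
      exact (natDegree_C_mul_le _ _).trans (hPd m)
    refine ⟨?_, hg, ?_⟩
    · obtain ⟨x, hx⟩ := key (fun n => if (n : ℕ) = 0 then 1 else 0)
      refine ⟨fun i => ∑ m : Fin N, C (x m) * b m i, ?_⟩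
      change ∑ i, (∑ m : Fin N, C (x m) * b m i) * g i = 1
      rw [← hq]
      ext j
      by_cases hj : j < N
      · have h1 := hx ⟨j, hj⟩
        simp only at h1
        rw [h1, coeff_one]
      · have h1 : (∑ m : Fin N, C (x m) * (P m).map σ).coeff j = 0 :=
          coeff_eq_zero_of_natDegree_lt ((hsd x).trans_lt (by omega))
        rw [h1, coeff_one, if_neg (by omega)]
    · obtain ⟨x, hx⟩ := key (fun n => if (n : ℕ) = M + D then 1 else 0)
      by_contra hcon
      push Not at hcon
      have h1 := hx ⟨M + D, by omega⟩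
      simp only [if_true] at h1
      rw [hq, finsetSum_coeff] at h1
      have h2 : ∑ i, ((∑ m : Fin N, C (x m) * b m i) * g i).coeff (M + D) = 0 := by
        refine Finset.sum_eq_zero fun i _ => ?_
        have h3 : (∑ m : Fin N, C (x m) * b m i).natDegree ≤ M := by
          refine natDegree_sum_le_of_forall_le _ _ fun m _ => ?_
          exact (natDegree_C_mul_le _ _).trans (hb m i)
        rw [coeff_mul_add_eq_of_natDegree_le h3 (hg i)]
        have h4 : (g i).coeff D = 0 := hcon i
        rw [h4, mul_zero]
      rw [h2] at h1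
      exact zero_ne_one h1

end MP9a7843.M
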