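import Pool.Agent.Lib.MP_9a7843_ag_M.ParL
import Pool.Agent.Lib.MP_9a7843_ag_M.Fam
import Pool.Agent.Lib.MP_9a7843_ag_M.Opn
import Pool.Agent.Lib.MP_9a7843_ag_M.Deg

/-!
# Block M, TyI: the strata `Ty` are not empty and irreducible
-/

namespace MP9a7843.M

open Polynomial

universe u

/-- The explicit member `u = (1, 0, X ^ b1, 0, ...)`, `v = (0, 1, 0, X ^ b2, 0, ...)`,
`c = (X ^ (e - 3 b1), 0, 1, 0)` of the stratum of type `(b1, b2)`. -/
noncomputable def tyPt (k : Type*) [Field k] (e b1 b2 : ℕ) : Idx → k[X] :=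
  zfun ![1, 0, X ^ b1, 0, 0, 0, 0, 0, 0, 0] ![0, 1, 0, X ^ b2, 0, 0, 0, 0, 0, 0]
    ![X ^ (e - 3 * b1), 0, 1, 0]

private theorem tyI_prim {ι R : Type*} [Fintype ι] [CommRing R] {g : ι → R} (i : ι)
    (h : g i = 1) : Prim g := by
  classical
  refine ⟨Pi.single i 1, ?_⟩
  rw [Finset.sum_eq_single i]
  · rw [Pi.single_eq_same, h, mul_one]
  · intro j _ hj
    rw [Pi.single_eq_of_ne hj, zero_mul]
  · intro hi
    exact absurd (Finset.mem_univ i) hi

private theorem tyI_good {k : Type*} [Field k] {e b1 b2 : ℕ} {u v : Fin 10 → k[X]}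
    {c : Fin 4 → k[X]} (hbd : Bd e b1 b2 u v c) (h1 : cub u v c 0 1 1 = 1)
    (h2 : (cub u v c 2 2 2).coeff e ≠ 0) (h3 : plu u v 0 1 = 1)
    (h4 : (plu u v 2 3).coeff (b1 + b2) ≠ 0) : Good (e + (b1 + b2)) (zfun u v c) := by
  have hF : Good e (fun s : Fin 10 × Fin 10 × Fin 10 => cub u v c s.1 s.2.1 s.2.2) :=
    ⟨tyI_prim (0, 1, 1) h1, fun s => hbd.degrees.1 _ _ _, (2, 2, 2), h2⟩
  have hP : Good (b1 + b2) (fun p : Fin 10 × Fin 10 => plu u v p.1 p.2) :=
    ⟨tyI_prim (0, 1) h3, fun s => hbd.degrees.2.1 _ _, (2, 3), h4⟩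
  exact Good.mul (F := fun s : Fin 10 × Fin 10 × Fin 10 => cub u v c s.1 s.2.1 s.2.2)
    (P := fun p : Fin 10 × Fin 10 => plu u v p.1 p.2) hF hP

/-- Row M9a. The stratum is not empty.
Proof: `Good.mul`: `P_01 = 1`, `P_23 = X ^ (b1 + b2)`; `F_011 = 1`, `F_222 = X ^ e`. -/
theorem tyPt_mem {k : Type u} [Field k] {e b1 b2 : ℕ} (h : b1 ≤ b2) (he : b1 + 2 * b2 ≤ e) :
    tyPt k e b1 b2 ∈ Ty k e b1 b2 := by
  obtain ⟨u, hu⟩ : ∃ u : Fin 10 → k[X], u = ![1, 0, X ^ b1, 0, 0, 0, 0, 0, 0, 0] := ⟨_, rfl⟩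
  obtain ⟨v, hv⟩ : ∃ v : Fin 10 → k[X], v = ![0, 1, 0, X ^ b2, 0, 0, 0, 0, 0, 0] := ⟨_, rfl⟩
  obtain ⟨c, hc⟩ : ∃ c : Fin 4 → k[X], c = ![X ^ (e - 3 * b1), 0, 1, 0] := ⟨_, rfl⟩
  have hu0 : u 0 = 1 := by rw [hu]; rfl
  have hu1 : u 1 = 0 := by rw [hu]; rfl
  have hu2 : u 2 = X ^ b1 := by rw [hu]; rfl
  have hu3 : u 3 = 0 := by rw [hu]; rfl
  have hv0 : v 0 = 0 := by rw [hv]; rfl
  have hv1 : v 1 = 1 := by rw [hv]; rfl
  have hv2 : v 2 = 0 := by rw [hv]; rfl
  have hv3 : v 3 = X ^ b2 := by rw [hv]; rfl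
  have hc0 : c 0 = X ^ (e - 3 * b1) := by rw [hc]; rfl
  have hc1 : c 1 = 0 := by rw [hc]; rfl
  have hc2 : c 2 = 1 := by rw [hc]; rfl
  have hc3 : c 3 = 0 := by rw [hc]; rfl
  have hbd : Bd e b1 b2 u v c := by
    refine ⟨fun i => ?_, fun i => ?_, fun m => ?_⟩
    · rw [hu]
      fin_cases i <;> simp
    · rw [hv]
      fin_cases i <;> simp
    · fin_cases m
      · refine Or.inr ?_
        change (c 0).natDegree + ((3 - 0) * b1 + 0 * b2) ≤ e
        rw [hc0, natDegree_X_pow]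
        omega
      · exact Or.inl hc1
      · refine Or.inr ?_
        change (c 2).natDegree + ((3 - 2) * b1 + 2 * b2) ≤ e
        rw [hc2, natDegree_one]
        omega
      · exact Or.inl hc3
  have hz : tyPt k e b1 b2 = zfun u v c := by
    rw [hu, hv, hc]
    rfl
  rw [hz]
  refine ⟨tyI_good hbd ?_ ?_ ?_ ?_, u, v, c, hbd, rfl⟩
  · unfold cub
    rw [hu0, hu1, hv0, hv1, hc0, hc1, hc2, hc3]
    ring
  · have h1 : cub u v c 2 2 2 = X ^ e := by
      unfold cub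
      rw [hu2, hv2, hc0, hc1, hc2, hc3]
      have h2 : (X : k[X]) ^ e = X ^ (e - 3 * b1) * (X ^ b1 * X ^ b1 * X ^ b1) := by
        rw [← pow_add, ← pow_add, ← pow_add]
        congr 1
        omega
      rw [h2]
      ring
    rw [h1, coeff_X_pow_self]
    exact one_ne_zero
  · unfold plu
    rw [hu0, hu1, hv0, hv1]
    ring
  · have h1 : plu u v 2 3 = X ^ (b1 + b2) := by
      unfold plu
      rw [hu2, hu3, hv2, hv3, pow_add]
      ring
    rw [h1, coeff_X_pow_self]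
    exact one_ne_zero

/-- Good tuples in the family form a nonempty open set. -/
private theorem tyI_open {k : Type u} [Field k] {e b1 b2 : ℕ} (h : b1 ≤ b2)
    (he : b1 + 2 * b2 ≤ e) : ∃ Ψ : MvPolynomial (Par b1 b2 (qf e b1 b2)) k, Ψ ≠ 0 ∧
      ∀ (L : Type u) [Field L] (σ : MvPolynomial (Par b1 b2 (qf e b1 b2)) k →+* L), σ Ψ ≠ 0 →
        Good (e + (b1 + b2)) (fun I =>
          (fam (MvPolynomial.X (R := k) (σ := Par b1 b2 (qf e b1 b2))) I).map σ) := by
  obtain ⟨hg, u, v, c, hbd, hz⟩ := tyPt_mem (k := k) h he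
  obtain ⟨a0, hu, hv, hc⟩ := hbd.exists_par
  have hfam : fam a0 = tyPt k e b1 b2 := by
    rw [hz]
    unfold fam
    rw [hu, hv, hc]
  obtain ⟨Ψ, h1, h2⟩ := Good.exists_open (D := e + (b1 + b2))
    (fam (MvPolynomial.X (R := k) (σ := Par b1 b2 (qf e b1 b2))))
    (bd_par (MvPolynomial.X (R := k) (σ := Par b1 b2 (qf e b1 b2)))).degrees.2.2
    (MvPolynomial.aeval a0) (by
      have h3 : (fun I => (fam (MvPolynomial.X (R := k) (σ := Par b1 b2 (qf e b1 b2))) I).map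
          (MvPolynomial.aeval a0 : MvPolynomial (Par b1 b2 (qf e b1 b2)) k →ₐ[k] k).toRingHom) =
          tyPt k e b1 b2 := by
        rw [← hfam]
        funext I
        rw [fam_map]
        have h4 : (fun s => (MvPolynomial.aeval a0 :
            MvPolynomial (Par b1 b2 (qf e b1 b2)) k →ₐ[k] k).toRingHom (MvPolynomial.X s)) =
            a0 := by
          funext s
          exact MvPolynomial.aeval_X a0 s
        rw [h4]
      change Good _ (fun I => (fam (MvPolynomial.X (R := k)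
        (σ := Par b1 b2 (qf e b1 b2))) I).map (MvPolynomial.aeval a0 :
        MvPolynomial (Par b1 b2 (qf e b1 b2)) k →ₐ[k] k).toRingHom)
      rw [h3]
      exact hg)
  exact ⟨Ψ, fun h0 => h1 (by rw [h0, map_zero]), h2⟩

/-- Row M9b. The vanishing ideal of a stratum is the kernel of the homomorphism to the
polynomials in the coefficients of `u`, `v`, `c`.
Proof: `vI_eq_ker` with `G = fam X`.  Let `a0` be the parameters of `tyPt` (`Bd.exists_par`), `Ψ`
from `Good.exists_open` for `R = MvPolynomial _ k`, `ρ = aeval a0`; `Ψ ≠ 0` since `ρ Ψ ≠ 0`.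
`h1`: if `eval a Ψ ≠ 0` then `spec a G = fam a` is good, and `bd_par`.  `h2`: `g ∈ Ty` is
`fam a = spec a G` by `Bd.exists_par`; `eval_cH`. -/
theorem vI_Ty {k : Type u} [Field k] [Infinite k] {e b1 b2 : ℕ} (h : b1 ≤ b2)
    (he : b1 + 2 * b2 ≤ e) :
    vI (Ty k e b1 b2) = RingHom.ker
      (cH (fam (MvPolynomial.X (R := k) (σ := Par b1 b2 (qf e b1 b2))))) := by
  obtain ⟨Ψ, hΨ, hop⟩ := tyI_open (k := k) h he
  refine vI_eq_ker _ _ Ψ hΨ (fun a ha => subset_zcl _ ?_) ?_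
  · refine ⟨hop k (MvPolynomial.eval a) ha, pU a, pV a, pC a, bd_par a, ?_⟩
    rw [spec_fam]
    rfl
  · rintro g ⟨-, u, v, c, hbd, rfl⟩ Φ hΦ
    obtain ⟨a, hu, hv, hc⟩ := hbd.exists_par
    have h1 := eval_cH (fam (MvPolynomial.X (R := k) (σ := Par b1 b2 (qf e b1 b2)))) a Φ
    rw [hΦ, map_zero, spec_fam] at h1
    have h2 : fam a = zfun u v c := by
      unfold fam
      rw [hu, hv, hc]
    rw [← h2]
    exact h1.symm

/-- Row M9c. The generic member of the stratum is good (over the fraction field of the ring of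
parameters).  Proof: `Good.exists_open` as in `vI_Ty`, with `σ = algebraMap _ (FractionRing _)`,
which is injective. -/
theorem good_generic {k : Type u} [Field k] {e b1 b2 : ℕ} (h : b1 ≤ b2)
    (he : b1 + 2 * b2 ≤ e) :
    Good (e + (b1 + b2)) (fam (fun s : Par b1 b2 (qf e b1 b2) =>
      algebraMap (MvPolynomial (Par b1 b2 (qf e b1 b2)) k)
        (FractionRing (MvPolynomial (Par b1 b2 (qf e b1 b2)) k)) (MvPolynomial.X s))) := by
  obtain ⟨Ψ, hΨ, hop⟩ := tyI_open (k := k) h he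
  have h1 := hop (FractionRing (MvPolynomial (Par b1 b2 (qf e b1 b2)) k))
    (algebraMap (MvPolynomial (Par b1 b2 (qf e b1 b2)) k) _) (by
      intro h0
      exact hΨ ((IsFractionRing.injective (MvPolynomial (Par b1 b2 (qf e b1 b2)) k)
        (FractionRing (MvPolynomial (Par b1 b2 (qf e b1 b2)) k))) (by rw [h0, map_zero])))
  have h2 : (fun I => (fam (MvPolynomial.X (R := k) (σ := Par b1 b2 (qf e b1 b2))) I).map
      (algebraMap (MvPolynomial (Par b1 b2 (qf e b1 b2)) k)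
        (FractionRing (MvPolynomial (Par b1 b2 (qf e b1 b2)) k)))) =
      fam (fun s : Par b1 b2 (qf e b1 b2) =>
      algebraMap (MvPolynomial (Par b1 b2 (qf e b1 b2)) k)
        (FractionRing (MvPolynomial (Par b1 b2 (qf e b1 b2)) k)) (MvPolynomial.X s)) := by
    funext I
    rw [fam_map]
  rw [← h2]
  exact h1

end MP9a7843.M
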