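import Pool.Agent.Lib.MP_9a7843_ag_M.Gen
import Pool.Agent.Lib.MP_9a7843_ag_M.SlK
import Pool.Agent.Lib.MP_9a7843_ag_M.SlC
import Pool.Agent.Lib.MP_9a7843_ag_M.TrdA
import Pool.Agent.Lib.MP_9a7843_ag_M.Kil
import Pool.Agent.Lib.MP_9a7843_ag_M.Ksp
import Pool.Agent.Lib.MP_9a7843_ag_M.TyI

/-!
# Block M, Cmp: the strata `(b, b)` and `(b - x, b + x)` of degree `(3 b + x, 2 b)` are maximal
-/

namespace MP9a7843.M

open Polynomial

universe u

/-- Row M17a. The smaller degree does not go up in the closure.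
Proof: all members of `Ty k e b1' b2'` are killed by a vector `≠ 0` of degree `≤ b1'`
(`kills_self`), so the given member of `Ty k e b1 b2` also is (`exists_kills_of_mem_zcl`), and
`kills_iff` with `n = b1'` gives `b1 ≤ b1'` or `b2 ≤ b1'` (otherwise `α = β = 0`). -/
theorem le_of_subset_zcl {k : Type u} [Field k] {e b1 b2 b1' b2' : ℕ} (hb : b1 ≤ b2)
    (hne : (Ty k e b1 b2).Nonempty) (h : Ty k e b1 b2 ⊆ zcl (Ty k e b1' b2')) : b1 ≤ b1' := by
  obtain ⟨g, hg⟩ := hne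
  have h1 := exists_kills_of_mem_zcl (Ty k e b1' b2') b1' (fun g' hg' => by
    obtain ⟨hgood, u, v, c, hB, rfl⟩ := hg'
    have h2 := kills_self hB hgood
    exact ⟨u, h2.1, hB.hu, h2.2⟩) (h hg)
  obtain ⟨w, hw0, hwn, hwk⟩ := h1
  obtain ⟨hgood, u, v, c, hB, rfl⟩ := hg
  obtain ⟨α, β, hαβ, hα, hβ⟩ := kills_iff hB hgood hwk hwn
  rcases hα with hα | hα
  · rcases hβ with hβ | hβ
    · exfalso
      apply hw0
      funext i
      rw [hαβ i, hα, hβ]
      simp
    · omega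
  · omega

/-- Row M17c. Proof: `vI_Ty`, `ker_slc` and `ker_eq_of_trdeg` (with the set `B` of
`exists_indep_Ty` for the type `(b - x, b + x)`, and `card_slc_le`) give the equality of the
vanishing ideals. -/
theorem subset_zcl_symm {k : Type u} [Field k] [Infinite k] {b x δ : ℕ} (hx : x ≤ b)
    (hδ : δ < x)
    (h : Ty k (3 * b + x) (b - x) (b + x) ⊆ zcl (Ty k (3 * b + x) (b - δ) (b + δ))) :
    Ty k (3 * b + x) (b - δ) (b + δ) ⊆ zcl (Ty k (3 * b + x) (b - x) (b + x)) := by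
  rw [subset_zcl_iff] at h ⊢
  have e1 := vI_Ty (k := k) (e := 3 * b + x) (b1 := b - δ) (b2 := b + δ) (by omega) (by omega)
  have e2 := vI_Ty (k := k) (e := 3 * b + x) (b1 := b - x) (b2 := b + x) (by omega) (by omega)
  have e3 := ker_slc (k := k) (e := 3 * b + x) (b1 := b - δ) (b2 := b + δ) (by omega)
  obtain ⟨B, hB, hcard⟩ := exists_indep_Ty (k := k) (e := 3 * b + x) (b1 := b - x)
    (b2 := b + x) (by omega) (by omega)
  have h4 := card_slc_le hx hδ
  have key := ker_eq_of_trdeg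
    (cH (fam (slc k (b - δ) (b + δ) (qf (3 * b + x) (b - δ) (b + δ)))))
    (cH (fam (MvPolynomial.X (R := k)
      (σ := Par (b - x) (b + x) (qf (3 * b + x) (b - x) (b + x))))))
    (by
      rw [e3, ← e1, ← e2]
      exact h) B hB (by omega)
  rw [e2, ← key, e3, ← e1]

/-- Row M17d. Proof: `le_of_subset_zcl` gives `δ ≤ x`; if `δ < x` then `subset_zcl_symm` and
`le_of_subset_zcl` give `b - δ ≤ b - x`, a contradiction. -/
theorem Tx_max {k : Type u} [Field k] [Infinite k] {b x δ : ℕ} (hx : x ≤ b) (hδ : δ ≤ b)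
    (h : Ty k (3 * b + x) (b - x) (b + x) ⊆ zcl (Ty k (3 * b + x) (b - δ) (b + δ))) : δ = x := by
  have h1 := le_of_subset_zcl (by omega) ⟨_, tyPt_mem (k := k) (e := 3 * b + x) (b1 := b - x)
    (b2 := b + x) (by omega) (by omega)⟩ h
  by_contra hne
  have hlt : δ < x := by omega
  have h2 := subset_zcl_symm hx hlt h
  have h3 := le_of_subset_zcl (by omega) ⟨_, tyPt_mem (k := k) (e := 3 * b + x) (b1 := b - δ)
    (b2 := b + δ) (by omega) (by omega)⟩ h2
  omega

/-- Row M17e. -/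
theorem T0_max {k : Type u} [Field k] {b x δ : ℕ} (hδ : δ ≤ b)
    (h : Ty k (3 * b + x) b b ⊆ zcl (Ty k (3 * b + x) (b - δ) (b + δ))) : δ = 0 := by
  have h1 := le_of_subset_zcl le_rfl ⟨_, tyPt_mem (k := k) (e := 3 * b + x) (b1 := b)
    (b2 := b) le_rfl (by omega)⟩ h
  omega

end MP9a7843.M
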