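import Pool.Agent.Lib.MP_9a7843_ag_M.D

/-!
# Block M, Chg: change of the basis of the plane
-/

namespace MP9a7843.M

open Polynomial

section

variable {R : Type*} [CommRing R]

/-- The coefficients of a cubic after a change of basis. -/
def chc (α β γ δ : R) (c : Fin 4 → R) : Fin 4 → R :=
  ![α ^ 3 * c 0 + 3 * α ^ 2 * γ * c 1 + 3 * α * γ ^ 2 * c 2 + γ ^ 3 * c 3,
    α ^ 2 * β * c 0 + (α ^ 2 * δ + 2 * α * β * γ) * c 1 + (2 * α * γ * δ + β * γ ^ 2) * c 2
      + γ ^ 2 * δ * c 3,
    α * β ^ 2 * c 0 + (β ^ 2 * γ + 2 * α * β * δ) * c 1 + (2 * β * γ * δ + α * δ ^ 2) * c 2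
      + γ * δ ^ 2 * c 3,
    β ^ 3 * c 0 + 3 * β ^ 2 * δ * c 1 + 3 * β * δ ^ 2 * c 2 + δ ^ 3 * c 3]

theorem plu_change (α β γ δ : R) (u v : Fin 10 → R) (d e : Fin 10) :
    plu (fun i => α * u i + β * v i) (fun i => γ * u i + δ * v i) d e =
      (α * δ - β * γ) * plu u v d e := by
  simp only [plu]
  ring

theorem cub_change (α β γ δ : R) (u v : Fin 10 → R) (c : Fin 4 → R) (a b d : Fin 10) :
    cub (fun i => α * u i + β * v i) (fun i => γ * u i + δ * v i) c a b d =
      cub u v (chc α β γ δ c) a b d := by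
  simp only [cub, chc, Matrix.cons_val_zero, Matrix.cons_val_one, Matrix.cons_val]
  ring

/-- Scalars can be moved into the coefficients of the cubic. -/
theorem cub_smul (r : R) (u v : Fin 10 → R) (c : Fin 4 → R) (a b d : Fin 10) :
    cub u v (fun m => r * c m) a b d = r * cub u v c a b d := by
  simp only [cub]
  ring

theorem zfun_change (α β γ δ : R) (u v : Fin 10 → R) (c : Fin 4 → R) :
    zfun (fun i => α * u i + β * v i) (fun i => γ * u i + δ * v i) c =
      zfun u v (fun m => (α * δ - β * γ) * chc α β γ δ c m) := by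
  funext I
  simp only [zfun, plu_change, cub_change, cub_smul]
  ring

theorem zfun_map {S : Type*} [CommRing S] (f : R →+* S) (u v : Fin 10 → R) (c : Fin 4 → R)
    (I : Idx) : f (zfun u v c I) = zfun (fun i => f (u i)) (fun i => f (v i)) (fun m => f (c m)) I := by
  simp only [zfun, cub, plu, map_mul, map_add, map_sub]

theorem plu_map {S : Type*} [CommRing S] (f : R →+* S) (u v : Fin 10 → R) (d e : Fin 10) :
    f (plu u v d e) = plu (fun i => f (u i)) (fun i => f (v i)) d e := by
  simp only [plu, map_mul, map_sub]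

theorem cub_map {S : Type*} [CommRing S] (f : R →+* S) (u v : Fin 10 → R) (c : Fin 4 → R)
    (a b d : Fin 10) :
    f (cub u v c a b d) = cub (fun i => f (u i)) (fun i => f (v i)) (fun m => f (c m)) a b d := by
  simp only [cub, map_mul, map_add]

end

end MP9a7843.M
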