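import Pool.Agent.Lib.MP_9a7843_ag_A.Exports
import Pool.Agent.Lib.MP_9a7843_ag_M.Chg

/-!
# Block M, GPt: the generic tuples are generic points of `X`
-/

noncomputable section

open Polynomial

open Pool.Agent.MP9a7843 Pool.Agent.MP9a7843.ProjVar

namespace MP9a7843.M

universe u

variable {k : Type u} [Field k]

private theorem gpt_scale (u v : Fin 10 → k) (a r : k) (hr : r ≠ 0) :
    zfun (fun i => r⁻¹ * u i) (fun i => r * v i) ![r ^ 3 * a, 0, 1, 0] =
      zfun u v ![a, 0, r, 0] := by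
  funext I
  simp only [zfun, cub, plu, Matrix.cons_val_zero, Matrix.cons_val_one, Matrix.cons_val]
  field_simp
  ring

private theorem gpt_square [CharZero k] (u v : Fin 10 → k) (C : Fin 4 → k) (h2 : C 2 ≠ 0)
    (h3 : C 3 = 0) : ∃ (u' v' : Fin 10 → k) (a0 : k), zfun u v C = zfun u' v' ![a0, 0, 1, 0] := by
  obtain ⟨s, hs⟩ : ∃ s : k, C 1 = 2 * s * C 2 := ⟨C 1 / (2 * C 2), by field_simp⟩
  refine ⟨fun i => (C 2)⁻¹ * u i, fun i => C 2 * (v i + s * u i),
    C 2 ^ 3 * (C 0 - 3 * s * C 1 + 3 * s ^ 2 * C 2), ?_⟩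
  rw [gpt_scale u (fun i => v i + s * u i) _ _ h2]
  have hc := zfun_change 1 0 (-s) 1 u (fun i => v i + s * u i) C
  have e1 : (fun i => 1 * u i + 0 * (v i + s * u i)) = u := by
    funext i; ring
  have e2 : (fun i => -s * u i + 1 * (v i + s * u i)) = v := by
    funext i; ring
  rw [e1, e2] at hc
  rw [hc]
  congr 1
  funext m
  fin_cases m
  · simp [chc]
    rw [h3]
    ring
  · simp [chc]
    rw [hs, h3]
    ring
  · simp [chc, h3]
  · simp [chc, h3]

/-- Row M23a. Normal form of binary cubics over an algebraically closed field.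
Proof: let `f(x) = c0 x^3 + 3 c1 x^2 + 3 c2 x + c3` (`c0 ≠ 0`).  There is a root `ρ` with
`C2 = c0 ρ^2 + 2 c1 ρ + c2 ≠ 0`: let `ρ1` be a root; if `c0 ρ1^2 + 2 c1 ρ1 + c2 = 0`, then with
`ρ = -3 c1 / c0 - 2 ρ1` one has `f(ρ) = 0` and `c0 (c0 ρ^2 + 2 c1 ρ + c2) = 9 (c1 + c0 ρ1)^2`, and
`(c1 + c0 ρ1)^2 = c1^2 - c0 c2 ≠ 0`.  With `u' = u - ρ v` (`u = 1 u' + ρ v`, `v = 0 u' + 1 v`)
`zfun_change` gives coefficients `(C0, C1, C2, 0)`.  Complete the square: `v' = v + (2 C2)⁻¹ C1 u'`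
gives `(C0', 0, C2, 0)`, and `zfun (r⁻¹ u) (r v) ![r ^ 3 C0', 0, 1, 0] = zfun u v ![C0', 0, r, 0]`
for `r = C2`. -/
theorem exists_H_form [IsAlgClosed k] [CharZero k] (u v : Fin 10 → k) (c : Fin 4 → k)
    (hc : c 0 * (c 0 * c 2 - c 1 ^ 2) ≠ 0) :
    ∃ (u' v' : Fin 10 → k) (a0 : k), zfun u v c = zfun u' v' ![a0, 0, 1, 0] := by
  have hc0 : c 0 ≠ 0 := left_ne_zero_of_mul hc
  have hc1 : c 0 * c 2 - c 1 ^ 2 ≠ 0 := right_ne_zero_of_mul hc
  obtain ⟨ρ1, hρ1⟩ : ∃ x : k, c 0 * x ^ 3 + 3 * c 1 * x ^ 2 + 3 * c 2 * x + c 3 = 0 := by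
    have hd : (C (c 0) * X ^ 3 + C (3 * c 1) * X ^ 2 + C (3 * c 2) * X + C (c 3) : k[X]).degree
        = 3 := degree_cubic hc0
    obtain ⟨x, hx⟩ := IsAlgClosed.exists_root
      (C (c 0) * X ^ 3 + C (3 * c 1) * X ^ 2 + C (3 * c 2) * X + C (c 3) : k[X]) (by
        rw [hd]; norm_num)
    refine ⟨x, ?_⟩
    simpa [IsRoot.def] using hx
  obtain ⟨ρ, h1, h2⟩ : ∃ ρ : k, c 0 * ρ ^ 3 + 3 * c 1 * ρ ^ 2 + 3 * c 2 * ρ + c 3 = 0 ∧
      c 0 * ρ ^ 2 + 2 * c 1 * ρ + c 2 ≠ 0 := by
    by_cases h : c 0 * ρ1 ^ 2 + 2 * c 1 * ρ1 + c 2 = 0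
    · have hsq : (c 1 + c 0 * ρ1) ^ 2 = c 1 ^ 2 - c 0 * c 2 := by
        linear_combination c 0 * h
      refine ⟨-3 * c 1 / c 0 - 2 * ρ1, ?_, ?_⟩
      · have e : c 0 ^ 2 * (c 0 * (-3 * c 1 / c 0 - 2 * ρ1) ^ 3 +
            3 * c 1 * (-3 * c 1 / c 0 - 2 * ρ1) ^ 2 +
            3 * c 2 * (-3 * c 1 / c 0 - 2 * ρ1) + c 3) = 0 := by
          have h3 : c 0 * (-3 * c 1 / c 0 - 2 * ρ1) = -3 * c 1 - 2 * c 0 * ρ1 := by
            field_simp
          have h4 : c 0 ^ 2 * (c 0 * (-3 * c 1 / c 0 - 2 * ρ1) ^ 3 +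
            3 * c 1 * (-3 * c 1 / c 0 - 2 * ρ1) ^ 2 +
            3 * c 2 * (-3 * c 1 / c 0 - 2 * ρ1) + c 3) =
            (c 0 * (-3 * c 1 / c 0 - 2 * ρ1)) ^ 3 +
            3 * c 1 * (c 0 * (-3 * c 1 / c 0 - 2 * ρ1)) ^ 2 +
            3 * c 0 * c 2 * (c 0 * (-3 * c 1 / c 0 - 2 * ρ1)) + c 0 ^ 2 * c 3 := by ring
          rw [h4, h3]
          linear_combination (c 0) ^ 2 * hρ1 - 9 * c 0 * (c 1 + c 0 * ρ1) * h
        exact (mul_eq_zero.1 e).resolve_left (pow_ne_zero 2 hc0)
      · intro h0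
        have h3 : c 0 * (-3 * c 1 / c 0 - 2 * ρ1) = -3 * c 1 - 2 * c 0 * ρ1 := by
          field_simp
        have h5 : 3 * (c 1 + c 0 * ρ1) ^ 2 = 0 := by
          have h6 : c 0 * (c 0 * (-3 * c 1 / c 0 - 2 * ρ1) ^ 2 +
              2 * c 1 * (-3 * c 1 / c 0 - 2 * ρ1) + c 2) = 0 := by rw [h0, mul_zero]
          have h7 : c 0 * (c 0 * (-3 * c 1 / c 0 - 2 * ρ1) ^ 2 +
              2 * c 1 * (-3 * c 1 / c 0 - 2 * ρ1) + c 2) =
              (c 0 * (-3 * c 1 / c 0 - 2 * ρ1)) ^ 2 +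
              2 * c 1 * (c 0 * (-3 * c 1 / c 0 - 2 * ρ1)) + c 0 * c 2 := by ring
          rw [h7, h3] at h6
          linear_combination h6 - hsq
        rw [hsq] at h5
        have : c 1 ^ 2 - c 0 * c 2 = 0 := by
          have h9 : (3 : k) ≠ 0 := by norm_num
          exact (mul_eq_zero.1 h5).resolve_left h9
        exact hc1 (by linear_combination -this)
    · exact ⟨ρ1, hρ1, h⟩
  have hch := zfun_change 1 ρ 0 1 (fun i => u i - ρ * v i) v c
  have e1 : (fun i => 1 * (u i - ρ * v i) + ρ * v i) = u := by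
    funext i; ring
  have e2 : (fun i => 0 * (u i - ρ * v i) + 1 * v i) = v := by
    funext i; ring
  rw [e1, e2] at hch
  rw [hch]
  refine gpt_square _ _ _ ?_ ?_
  · simp [chc]
    intro h0
    exact h2 (by linear_combination h0)
  · simp [chc]
    linear_combination h1

private abbrev GptVar : Type := Fin 10 ⊕ Fin 10 ⊕ Fin 4

/-- `G (zfun U V C)` with variables `U`, `V`, `C`. -/
private def gptPoly (G : MvPolynomial Idx k) : MvPolynomial GptVar k :=
  MvPolynomial.aeval (zfun (fun l => MvPolynomial.X (Sum.inl l))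
    (fun l => MvPolynomial.X (Sum.inr (Sum.inl l)))
    (fun m => MvPolynomial.X (Sum.inr (Sum.inr m)))) G

private theorem gpt_aeval {S : Type u} [CommRing S] [Algebra k S] (θ : GptVar → S)
    (G : MvPolynomial Idx k) : MvPolynomial.aeval θ (gptPoly G) =
      MvPolynomial.aeval (zfun (fun l => θ (Sum.inl l)) (fun l => θ (Sum.inr (Sum.inl l)))
        (fun m => θ (Sum.inr (Sum.inr m)))) G := by
  rw [gptPoly, MvPolynomial.comp_aeval_apply]
  congr 2
  funext I
  have := zfun_map (MvPolynomial.aeval (R := k) θ : MvPolynomial GptVar k →ₐ[k] S).toRingHom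
    (fun l => MvPolynomial.X (Sum.inl l)) (fun l => MvPolynomial.X (Sum.inr (Sum.inl l)))
    (fun m => MvPolynomial.X (Sum.inr (Sum.inr m))) I
  simpa using this

private theorem gpt_eval (θ : GptVar → k) (G : MvPolynomial Idx k) :
    MvPolynomial.eval θ (gptPoly G) =
      MvPolynomial.aeval (zfun (fun l => θ (Sum.inl l)) (fun l => θ (Sum.inr (Sum.inl l)))
        (fun m => θ (Sum.inr (Sum.inr m)))) G := by
  rw [← gpt_aeval, MvPolynomial.aeval_eq_eval]

private theorem gpt_zero_of_poly (G : MvPolynomial Idx k) (h : gptPoly G = 0) :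
    MvPolynomial.aeval (XX k).z G = 0 := by
  have := gpt_aeval (S := KX k) (Sum.elim (xU k) (Sum.elim (xV k) (xC k))) G
  rw [h, map_zero] at this
  exact this.symm

/-- Row M23b. Proof: consider the polynomial `G (zfun U V C)` in the `24` variables
`U i`, `V i`, `C m`; it vanishes at all `(u, v, c)` with `c 0 * (c 0 * c 2 - c 1 ^ 2) ≠ 0` by
`exists_H_form` and `h`, so it is zero (`MvPolynomial.funext`, domain); substitute `xU k`, `xV k`,
`xC k`. -/
theorem aeval_z_eq_zero_of_H [IsAlgClosed k] [CharZero k] (G : MvPolynomial Idx k)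
    (h : ∀ (u v : Fin 10 → k) (a0 : k), MvPolynomial.aeval (zfun u v ![a0, 0, 1, 0]) G = 0) :
    MvPolynomial.aeval (XX k).z G = 0 := by
  refine gpt_zero_of_poly G ?_
  have hD : (MvPolynomial.X (Sum.inr (Sum.inr 0)) * (MvPolynomial.X (Sum.inr (Sum.inr 0)) *
      MvPolynomial.X (Sum.inr (Sum.inr 2)) - MvPolynomial.X (Sum.inr (Sum.inr 1)) ^ 2) :
      MvPolynomial GptVar k) ≠ 0 := by
    intro h0
    have h1 := congrArg (MvPolynomial.eval (fun s : GptVar =>
      Sum.elim (fun _ => (0 : k)) (Sum.elim (fun _ => 0) ![1, 0, 1, 0]) s)) h0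
    simp at h1
  refine (mul_eq_zero.1 (?_ : _ * gptPoly G = 0)).resolve_left hD
  refine MvPolynomial.funext fun θ => ?_
  rw [map_mul, map_zero, gpt_eval]
  by_cases hc : θ (Sum.inr (Sum.inr 0)) * (θ (Sum.inr (Sum.inr 0)) * θ (Sum.inr (Sum.inr 2)) -
      θ (Sum.inr (Sum.inr 1)) ^ 2) = 0
  · simp only [map_mul, map_sub, map_pow, MvPolynomial.eval_X, hc, zero_mul]
  · obtain ⟨u', v', a0, e⟩ := exists_H_form (fun l => θ (Sum.inl l))
      (fun l => θ (Sum.inr (Sum.inl l))) (fun m => θ (Sum.inr (Sum.inr m))) hc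
    rw [e, h, mul_zero]

/-- Row M23c. Proof: the same without `exists_H_form`. -/
theorem aeval_z_eq_zero_of_G [Infinite k] (G : MvPolynomial Idx k)
    (h : ∀ (u v : Fin 10 → k) (c : Fin 4 → k), MvPolynomial.aeval (zfun u v c) G = 0) :
    MvPolynomial.aeval (XX k).z G = 0 := by
  refine gpt_zero_of_poly G (MvPolynomial.funext fun θ => ?_)
  rw [map_zero, gpt_eval, h]

/-- Constant terms: the polynomial with coefficients `c (i, ·)` at `0` is `c (i, 0)`. -/
private theorem gpt_const {E : Type u} [Field E] [Algebra k E] {d : ℕ} (g : Idx → E[X])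
    (G : MvPolynomial Idx k)
    (h : MvPolynomial.aeval (fun i : Idx => polyOf fun j => coefOf k d g (i, j)) G = 0) :
    MvPolynomial.aeval (fun i : Idx => (g i).eval 0) G = 0 := by
  have h1 := congrArg (Polynomial.aeval (R := E) (0 : E)) h
  rw [map_zero] at h1
  have h2 : (Polynomial.aeval (R := E) (0 : E)) (MvPolynomial.aeval
      (fun i : Idx => polyOf fun j => coefOf k d g (i, j)) G) =
      ((Polynomial.aeval (R := E) (0 : E)).restrictScalars k) (MvPolynomial.aeval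
      (fun i : Idx => polyOf fun j => coefOf k d g (i, j)) G) := rfl
  rw [h2, MvPolynomial.comp_aeval_apply] at h1
  refine Eq.trans ?_ h1
  congr 2
  funext i
  simp only [AlgHom.restrictScalars_apply, polyOf, coefOf, map_sum, map_mul, map_pow,
    Polynomial.aeval_X, Polynomial.aeval_C, Algebra.algebraMap_self, RingHom.id_apply]
  rw [Fin.sum_univ_succ, Finset.sum_eq_zero, ← Polynomial.coeff_zero_eq_eval_zero]
  · simp
  · intro j _
    simp

private theorem gpt_eval_polyOf {R : Type*} [CommRing R] {n : ℕ} (a : Fin (n + 1) → R) :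
    (polyOf a).eval 0 = a 0 := by
  simp only [polyOf, Polynomial.eval_finsetSum, Polynomial.eval_mul, Polynomial.eval_C,
    Polynomial.eval_pow, Polynomial.eval_X]
  rw [Fin.sum_univ_succ, Finset.sum_eq_zero]
  · simp
  · intro j _
    simp

private theorem gpt_famH {R : Type*} [CommRing R] {b1 b2 n : ℕ} (θ : SigH b1 b2 n → R)
    (I : Idx) : (MP9a7843.famH θ I).eval 0 = zfun (fun l => θ (Sum.inl (l, 0)))
      (fun l => θ (Sum.inr (Sum.inl (l, 0)))) ![θ (Sum.inr (Sum.inr 0)), 0, 1, 0] I := by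
  have := zfun_map (Polynomial.evalRingHom (0 : R))
    (fun l => polyOf fun j => θ (Sum.inl (l, j)))
    (fun l => polyOf fun j => θ (Sum.inr (Sum.inl (l, j))))
    ![polyOf fun j => θ (Sum.inr (Sum.inr j)), 0, 1, 0] I
  rw [MP9a7843.famH, ← Polynomial.coe_evalRingHom, this]
  congr 1
  · funext l
    exact gpt_eval_polyOf _
  · funext l
    exact gpt_eval_polyOf _
  · funext m
    fin_cases m
    · exact gpt_eval_polyOf _
    · simp
    · simp
    · simp

private theorem gpt_famG {R : Type*} [CommRing R] {b n : ℕ} (θ : SigG b n → R)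
    (I : Idx) : (MP9a7843.famG θ I).eval 0 = zfun (fun l => θ (Sum.inl (l, 0)))
      (fun l => θ (Sum.inr (Sum.inl (l, 0)))) (fun m => θ (Sum.inr (Sum.inr (m, 0)))) I := by
  have := zfun_map (Polynomial.evalRingHom (0 : R))
    (fun l => polyOf fun j => θ (Sum.inl (l, j)))
    (fun l => polyOf fun j => θ (Sum.inr (Sum.inl (l, j))))
    (fun m => polyOf fun j => θ (Sum.inr (Sum.inr (m, j)))) I
  rw [MP9a7843.famG, ← Polynomial.coe_evalRingHom, this]
  congr 1
  · funext l
    exact gpt_eval_polyOf _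
  · funext l
    exact gpt_eval_polyOf _
  · funext m
    exact gpt_eval_polyOf _

/-- Row M23d. Proof: the degrees of `famH (genTh k _)` are at most `d`, so the argument of the
hypothesis is `famH (genTh k _)`, the image of `famH X` over `MvPolynomial _ k`, and `G (famH X) = 0`
(injectivity).  Specialise the parameters to arbitrary elements of `k` and the variable to `0`:
`G (zfun u v ![a0, 0, 1, 0]) = 0` for all `u, v, a0`; `aeval_z_eq_zero_of_H`. -/
theorem genericPt_H [IsAlgClosed k] [CharZero k] (b1 b2 n d : ℕ)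
    (h1 : b1 + b1 + b1 + n + (b1 + b2) ≤ d) (h2 : b1 + b2 + b2 + (b1 + b2) ≤ d)
    (G : MvPolynomial (XX k).ι k)
    (h : MvPolynomial.aeval (fun i => polyOf fun j =>
      coefOf k d (MP9a7843.famH (genTh k (SigH b1 b2 n))) (i, j)) G = 0) :
    MvPolynomial.aeval (XX k).z G = 0 := by
  let G' : MvPolynomial Idx k := G
  have h3 : MvPolynomial.aeval (fun i : Idx =>
      (MP9a7843.famH (genTh k (SigH b1 b2 n)) i).eval 0) G' = 0 :=
    gpt_const (E := CoefField k (SigH b1 b2 n)) _ G' h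
  refine aeval_z_eq_zero_of_H G' fun u v a0 => ?_
  clear h
  have h4 : MvPolynomial.aeval (zfun
      (fun l => (MvPolynomial.X (Sum.inl (l, 0)) : MvPolynomial (SigH b1 b2 n) k))
      (fun l => MvPolynomial.X (Sum.inr (Sum.inl (l, 0))))
      ![MvPolynomial.X (Sum.inr (Sum.inr 0)), 0, 1, 0]) G' = 0 := by
    apply IsFractionRing.injective (MvPolynomial (SigH b1 b2 n) k) (CoefField k (SigH b1 b2 n))
    refine Eq.trans ?_ (h3.trans (map_zero _).symm)
    have e := MvPolynomial.comp_aeval_apply (R := k) (IsScalarTower.toAlgHom k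
      (MvPolynomial (SigH b1 b2 n) k) (CoefField k (SigH b1 b2 n))) (f := zfun
      (fun l => (MvPolynomial.X (Sum.inl (l, 0)) : MvPolynomial (SigH b1 b2 n) k))
      (fun l => MvPolynomial.X (Sum.inr (Sum.inl (l, 0))))
      ![MvPolynomial.X (Sum.inr (Sum.inr 0)), 0, 1, 0]) G'
    refine e.trans ?_
    congr 2
    funext I
    rw [gpt_famH]
    have := zfun_map (IsScalarTower.toAlgHom k (MvPolynomial (SigH b1 b2 n) k)
      (CoefField k (SigH b1 b2 n))).toRingHom
      (fun l => (MvPolynomial.X (Sum.inl (l, 0)) : MvPolynomial (SigH b1 b2 n) k))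
      (fun l => MvPolynomial.X (Sum.inr (Sum.inl (l, 0))))
      ![MvPolynomial.X (Sum.inr (Sum.inr 0)), 0, 1, 0] I
    refine this.trans ?_
    congr 1
    funext m
    fin_cases m <;> simp [genTh]
  have h5 := congrArg (MvPolynomial.aeval (R := k) (fun s : SigH b1 b2 n =>
    Sum.elim (fun p => if p.2 = 0 then u p.1 else 0)
      (Sum.elim (fun p => if p.2 = 0 then v p.1 else 0) (fun j => if j = 0 then a0 else 0)) s)) h4
  rw [map_zero, MvPolynomial.comp_aeval_apply] at h5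
  refine Eq.trans ?_ h5
  congr 2
  funext I
  simp [zfun, cub, plu]

/-- Row M23e. Proof: the same with `famG` and `aeval_z_eq_zero_of_G`. -/
theorem genericPt_G [IsAlgClosed k] [CharZero k] (b n d : ℕ) (h1 : 3 * b + n + 2 * b ≤ d)
    (G : MvPolynomial (XX k).ι k)
    (h : MvPolynomial.aeval (fun i => polyOf fun j =>
      coefOf k d (MP9a7843.famG (genTh k (SigG b n))) (i, j)) G = 0) :
    MvPolynomial.aeval (XX k).z G = 0 := by
  let G' : MvPolynomial Idx k := G
  have h3 : MvPolynomial.aeval (fun i : Idx =>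
      (MP9a7843.famG (genTh k (SigG b n)) i).eval 0) G' = 0 :=
    gpt_const (E := CoefField k (SigG b n)) _ G' h
  refine aeval_z_eq_zero_of_G G' fun u v c => ?_
  clear h
  have h4 : MvPolynomial.aeval (zfun
      (fun l => (MvPolynomial.X (Sum.inl (l, 0)) : MvPolynomial (SigG b n) k))
      (fun l => MvPolynomial.X (Sum.inr (Sum.inl (l, 0))))
      (fun m => MvPolynomial.X (Sum.inr (Sum.inr (m, 0))))) G' = 0 := by
    apply IsFractionRing.injective (MvPolynomial (SigG b n) k) (CoefField k (SigG b n))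
    refine Eq.trans ?_ (h3.trans (map_zero _).symm)
    have e := MvPolynomial.comp_aeval_apply (R := k) (IsScalarTower.toAlgHom k
      (MvPolynomial (SigG b n) k) (CoefField k (SigG b n))) (f := zfun
      (fun l => (MvPolynomial.X (Sum.inl (l, 0)) : MvPolynomial (SigG b n) k))
      (fun l => MvPolynomial.X (Sum.inr (Sum.inl (l, 0))))
      (fun m => MvPolynomial.X (Sum.inr (Sum.inr (m, 0))))) G'
    refine e.trans ?_
    congr 2
    funext I
    rw [gpt_famG]
    exact zfun_map (IsScalarTower.toAlgHom k (MvPolynomial (SigG b n) k)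
      (CoefField k (SigG b n))).toRingHom
      (fun l => (MvPolynomial.X (Sum.inl (l, 0)) : MvPolynomial (SigG b n) k))
      (fun l => MvPolynomial.X (Sum.inr (Sum.inl (l, 0))))
      (fun m => MvPolynomial.X (Sum.inr (Sum.inr (m, 0)))) I
  have h5 := congrArg (MvPolynomial.aeval (R := k) (fun s : SigG b n =>
    Sum.elim (fun p => if p.2 = 0 then u p.1 else 0)
      (Sum.elim (fun p => if p.2 = 0 then v p.1 else 0)
        (fun p => if p.2 = 0 then c p.1 else 0)) s)) h4
  rw [map_zero, MvPolynomial.comp_aeval_apply] at h5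
  refine Eq.trans ?_ h5
  congr 2
  funext I
  simp [zfun, cub, plu]

end MP9a7843.M

namespace MP9a7843

universe u

/-- Export of block M: the generic tuples are generic points of `X`. -/
theorem expGenericPt (k : Type u) [Field k] [IsAlgClosed k] [CharZero k] : ExpGenericPt k :=
  ⟨fun b1 b2 n d _ _ _ h1 h2 _ G _ h => M.genericPt_H b1 b2 n d h1.le h2 G h,
    fun b n d _ _ h1 _ G _ h => M.genericPt_G b n d h1.le G h⟩

end MP9a7843
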