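import Mathlib
import Pool.Agent.Lib.MP_9a7843_ag_B.Base

/-!
# MP_9a7843_ag, block M (components of the space of rational curves on `X`): definitions

All statements of block M are about tuples `g : Idx → k[X]` of polynomials in one variable.
The Zariski topology is encoded by the vanishing ideals `vI` in the coefficients.
-/

namespace MP9a7843.M

open Polynomial

/-- The coefficients of a tuple of polynomials. -/
def cf {ι : Type*} {R : Type*} [Semiring R] (g : ι → R[X]) : ι × ℕ → R :=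
  fun p => (g p.1).coeff p.2

section Top

variable {k : Type*} [Field k] {ι : Type*}

/-- The ideal of all polynomials in the coefficients that vanish on `S`. -/
def vI (S : Set (ι → k[X])) : Ideal (MvPolynomial (ι × ℕ) k) where
  carrier := {Φ | ∀ g ∈ S, MvPolynomial.eval (cf g) Φ = 0}
  add_mem' := by
    intro a b ha hb g hg
    rw [map_add, ha g hg, hb g hg, add_zero]
  zero_mem' := by
    intro g _
    exact map_zero _
  smul_mem' := by
    intro c a ha g hg
    rw [smul_eq_mul, map_mul, ha g hg, mul_zero]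

theorem mem_vI {S : Set (ι → k[X])} {Φ : MvPolynomial (ι × ℕ) k} :
    Φ ∈ vI S ↔ ∀ g ∈ S, MvPolynomial.eval (cf g) Φ = 0 := Iff.rfl

/-- The Zariski closure of `S` (in the space of all tuples of polynomials). -/
def zcl (S : Set (ι → k[X])) : Set (ι → k[X]) :=
  {g | ∀ Φ ∈ vI S, MvPolynomial.eval (cf g) Φ = 0}

theorem subset_zcl (S : Set (ι → k[X])) : S ⊆ zcl S := fun g hg _ hΦ => hΦ g hg

theorem vI_anti {S T : Set (ι → k[X])} (h : S ⊆ T) : vI T ≤ vI S :=
  fun _ hΦ g hg => hΦ g (h hg)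

theorem vI_zcl (S : Set (ι → k[X])) : vI (zcl S) = vI S :=
  le_antisymm (vI_anti (subset_zcl S)) fun Φ hΦ _ hg => hg Φ hΦ

theorem subset_zcl_iff {S T : Set (ι → k[X])} : S ⊆ zcl T ↔ vI T ≤ vI S :=
  ⟨fun h => by
    rw [← vI_zcl T]
    exact vI_anti h, fun h g hg Φ hΦ => h hΦ g hg⟩

end Top

/-- The family generates the unit ideal. -/
def Prim {ι : Type*} [Fintype ι] {R : Type*} [CommRing R] (g : ι → R) : Prop :=
  ∃ A : ι → R, ∑ i, A i * g i = 1

/-- The polynomials `g i` have no common zero on the projective line, if they are considered as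
forms of degree `D`. -/
def Good {ι : Type*} [Fintype ι] {R : Type*} [CommRing R] (D : ℕ) (g : ι → R[X]) : Prop :=
  Prim g ∧ (∀ i, (g i).natDegree ≤ D) ∧ ∃ i, (g i).coeff D ≠ 0

/-- `u`, `v`, `c` have degrees `≤ b1`, `≤ b2`, `≤ e - (3 - m) b1 - m b2`. -/
structure Bd {R : Type*} [CommRing R] (e b1 b2 : ℕ) (u v : Fin 10 → R[X]) (c : Fin 4 → R[X]) :
    Prop where
  hu : ∀ i, (u i).natDegree ≤ b1
  hv : ∀ i, (v i).natDegree ≤ b2
  hc : ∀ m : Fin 4, c m = 0 ∨ (c m).natDegree + ((3 - (m : ℕ)) * b1 + (m : ℕ) * b2) ≤ e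

/-- Tuples of type `(b1, b2)` and degree `(e, b1 + b2)` (as coprime forms). -/
def Ty (k : Type*) [Field k] (e b1 b2 : ℕ) : Set (Idx → k[X]) :=
  {g | Good (e + (b1 + b2)) g ∧ ∃ u v c, Bd e b1 b2 u v c ∧ g = zfun u v c}

/-- All tuples of degree `(e, h)`. -/
def Mo (k : Type*) [Field k] (e h : ℕ) : Set (Idx → k[X]) :=
  {g | ∃ b1 b2, b1 ≤ b2 ∧ b1 + b2 = h ∧ g ∈ Ty k e b1 b2}

/-- `w` is killed by all rows of `g`: `w ∧ g(s, ·) = 0`. -/
def Kills {R : Type*} [CommRing R] (g : Idx → R) (w : Fin 10 → R) : Prop :=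
  ∀ s a b d, w a * g (s, (b, d)) - w b * g (s, (a, d)) + w d * g (s, (a, b)) = 0

/-! ### Families -/

/-- A family of tuples with parameters in `τ`: specialise the parameters to `a`. -/
noncomputable def spec {ι τ : Type*} {k : Type*} [CommRing k] (a : τ → k)
    (G : ι → (MvPolynomial τ k)[X]) : ι → k[X] :=
  fun i => (G i).map (MvPolynomial.eval a)

/-- The homomorphism from polynomials in the coefficients to polynomials in the parameters. -/
noncomputable def cH {ι τ : Type*} {k : Type*} [Field k] (G : ι → (MvPolynomial τ k)[X]) :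
    MvPolynomial (ι × ℕ) k →ₐ[k] MvPolynomial τ k :=
  MvPolynomial.aeval (cf G)

/-- Names of the coefficients of `u`, `v`, `c`. -/
abbrev Par (b1 b2 : ℕ) (q : Fin 4 → ℕ) : Type :=
  (Fin 10 × Fin (b1 + 1)) ⊕ (Fin 10 × Fin (b2 + 1)) ⊕ (Σ m : Fin 4, Fin (q m))

section Par

variable {b1 b2 : ℕ} {q : Fin 4 → ℕ} {R : Type*} [CommRing R]

/-- The polynomials `u` with the given coefficients. -/
noncomputable def pU (a : Par b1 b2 q → R) (i : Fin 10) : R[X] :=
  ∑ n : Fin (b1 + 1), C (a (.inl (i, n))) * X ^ (n : ℕ)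

/-- The polynomials `v` with the given coefficients. -/
noncomputable def pV (a : Par b1 b2 q → R) (i : Fin 10) : R[X] :=
  ∑ n : Fin (b2 + 1), C (a (.inr (.inl (i, n)))) * X ^ (n : ℕ)

/-- The polynomials `c` with the given coefficients. -/
noncomputable def pC (a : Par b1 b2 q → R) (m : Fin 4) : R[X] :=
  ∑ n : Fin (q m), C (a (.inr (.inr ⟨m, n⟩))) * X ^ (n : ℕ)

/-- The tuple `g = zfun u v c` with the given coefficients. -/
noncomputable def fam (a : Par b1 b2 q → R) : Idx → R[X] := zfun (pU a) (pV a) (pC a)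

end Par

/-- Number of coefficients of `c m` for curves of degree `(e, b1 + b2)` and type `(b1, b2)`. -/
def qf (e b1 b2 : ℕ) (m : Fin 4) : ℕ := e + 1 - ((3 - (m : ℕ)) * b1 + (m : ℕ) * b2)

/-- Names of the coefficients of `u`, `v`, `a0` in the family `M_H`. -/
abbrev ParH (b1 b2 d0 : ℕ) : Type :=
  (Fin 10 × Fin (b1 + 1)) ⊕ (Fin 10 × Fin (b2 + 1)) ⊕ Fin (d0 + 1)

section ParH

variable {b1 b2 d0 : ℕ} {R : Type*} [CommRing R]

/-- The polynomials `u` with the given coefficients. -/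
noncomputable def hU (a : ParH b1 b2 d0 → R) (i : Fin 10) : R[X] :=
  ∑ n : Fin (b1 + 1), C (a (.inl (i, n))) * X ^ (n : ℕ)

/-- The polynomials `v` with the given coefficients. -/
noncomputable def hV (a : ParH b1 b2 d0 → R) (i : Fin 10) : R[X] :=
  ∑ n : Fin (b2 + 1), C (a (.inr (.inl (i, n)))) * X ^ (n : ℕ)

/-- The polynomial `a0` with the given coefficients. -/
noncomputable def hA (a : ParH b1 b2 d0 → R) : R[X] :=
  ∑ n : Fin (d0 + 1), C (a (.inr (.inr n))) * X ^ (n : ℕ)

/-- The tuple `g = zfun u v (a0, 0, 1, 0)`, that is `F = a0 u^3 + 3 u v^2`, with the given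
coefficients. -/
noncomputable def famH (a : ParH b1 b2 d0 → R) : Idx → R[X] :=
  zfun (hU a) (hV a) ![hA a, 0, 1, 0]

end ParH

end MP9a7843.M
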