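import Pool.Agent.Lib.MP_9a7843_ag.MorTop
import Pool.Agent.Lib.MP_9a7843_ag_X.Tp
import Pool.Agent.Lib.MP_9a7843_ag_M.D

/-!
# Block M, BrdB: the topology of `Mor` and vanishing ideals
-/

noncomputable section

open Polynomial

open Pool.Agent.MP9a7843 Pool.Agent.MP9a7843.ProjVar

namespace MP9a7843.M

universe u

variable {k : Type u} [Field k]

/-- Polynomials in the coefficients up to degree `d` as polynomials in all coefficients. -/
def up {d : ℕ} (p : MvPolynomial (Idx × Fin (d + 1)) k) : MvPolynomial (Idx × ℕ) k :=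
  MvPolynomial.rename (fun s => (s.1, (s.2 : ℕ))) p

/-- Put all coefficients of degree `> d` equal to zero. -/
def down (d : ℕ) (Φ : MvPolynomial (Idx × ℕ) k) : MvPolynomial (Idx × Fin (d + 1)) k :=
  MvPolynomial.aeval
    (fun s => if h : s.2 < d + 1 then MvPolynomial.X (s.1, ⟨s.2, h⟩) else 0) Φ

private theorem brdb_coeff {d : ℕ} (a : Idx × Fin (d + 1) → k) (I : Idx) (m : ℕ) :
    (tupPoly a I).coeff m = if h : m < d + 1 then a (I, ⟨m, h⟩) else 0 := by
  rw [show tupPoly a I = ∑ j : Fin (d + 1), Polynomial.C (a (I, j)) * Polynomial.X ^ (j : ℕ)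
    from rfl, finsetSum_coeff]
  simp only [coeff_C_mul_X_pow]
  split_ifs with h
  · rw [Finset.sum_eq_single (⟨m, h⟩ : Fin (d + 1))]
    · rw [if_pos rfl]
    · intro n _ hn
      rw [if_neg]
      intro h1
      exact hn (Fin.ext h1.symm)
    · exact fun h1 => absurd (Finset.mem_univ _) h1
  · refine Finset.sum_eq_zero fun n _ => ?_
    rw [if_neg]
    intro h1
    exact h (h1 ▸ n.2)

/-- Row M20a. Proof: `MvPolynomial.eval_rename`, coefficients of `tupPoly`. -/
theorem eval_up {d : ℕ} (a : Idx × Fin (d + 1) → k) (p : MvPolynomial (Idx × Fin (d + 1)) k) :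
    MvPolynomial.eval (cf (tupPoly a)) (up p) = MvPolynomial.aeval a p := by
  unfold up
  rw [MvPolynomial.eval_rename, ← MvPolynomial.coe_aeval_eq_eval]
  have h : cf (tupPoly a) ∘ (fun s : Idx × Fin (d + 1) => (s.1, (s.2 : ℕ))) = a := by
    funext s
    change (tupPoly a s.1).coeff (s.2 : ℕ) = a s
    rw [brdb_coeff, dif_pos s.2.2]
  rw [h]
  rfl

/-- Row M20b. -/
theorem aeval_down {d : ℕ} (a : Idx × Fin (d + 1) → k) (Φ : MvPolynomial (Idx × ℕ) k) :
    MvPolynomial.aeval a (down d Φ) = MvPolynomial.eval (cf (tupPoly a)) Φ := by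
  unfold down
  rw [MvPolynomial.comp_aeval_apply, ← MvPolynomial.coe_aeval_eq_eval]
  have h : (fun s : Idx × ℕ => MvPolynomial.aeval a (if h : s.2 < d + 1 then
      (MvPolynomial.X (s.1, ⟨s.2, h⟩) : MvPolynomial (Idx × Fin (d + 1)) k) else 0)) =
      cf (tupPoly a) := by
    funext s
    change _ = (tupPoly a s.1).coeff s.2
    rw [brdb_coeff]
    split_ifs with h
    · rw [MvPolynomial.aeval_X]
    · rw [map_zero]
  rw [h]
  rfl

/-- The polynomials of the representatives of a set of morphisms. -/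
def PS (S : Set (XX k).Mor) (d : ℕ) : Set (Idx → k[X]) :=
  {g | ∃ a : (XX k).Tuple d, a.mor ∈ S ∧ tupPoly a.1 = g}

/-- Row M20c. Proof: `mem_closure_mor_iff`, `eval_up`, `aeval_down`. -/
theorem mem_closure_iff_zcl {S : Set (XX k).Mor} {d : ℕ} (a : (XX k).Tuple d) :
    a.mor ∈ closure S ↔ tupPoly a.1 ∈ zcl (PS S d) := by
  rw [mem_closure_mor_iff]
  constructor
  · intro h Φ hΦ
    refine (aeval_down a.1 Φ).symm.trans (h (down d Φ) fun b hb => ?_)
    exact (aeval_down b.1 Φ).trans (hΦ _ ⟨b, hb, rfl⟩)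
  · intro h p hp
    have h1 := h (up p) (by
      rintro _ ⟨b, hb, rfl⟩
      exact (eval_up b.1 p).trans (hp b hb))
    exact (eval_up a.1 p).symm.trans h1

private theorem brdb_nonempty {S : Set (XX k).Mor} {d : ℕ} (hS : ∀ g ∈ S, g.1 = d)
    {g : (XX k).Mor} (hg : g ∈ S) : ∃ a : (XX k).Tuple d, g = a.mor ∧ a.mor ∈ S := by
  obtain ⟨a, ha⟩ := Mor.exists_tuple g
  have hd := hS g hg
  subst hd
  exact ⟨a, ha, ha ▸ hg⟩

/-- Row M20d. Proof: `isIrreducible_mor_iff`, `eval_up`, `aeval_down`; `S` is not empty iff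
`1 ∉ vI (PS S d)` (`Mor.exists_tuple`). -/
theorem isIrreducible_iff_isPrime [Infinite k] {S : Set (XX k).Mor} {d : ℕ}
    (hS : ∀ g ∈ S, g.1 = d) : IsIrreducible S ↔ (vI (PS S d)).IsPrime := by
  rw [isIrreducible_mor_iff hS]
  constructor
  · rintro ⟨⟨g, hg⟩, h⟩
    refine ⟨fun htop => ?_, fun {Φ Ψ} hΦΨ => ?_⟩
    · obtain ⟨a, ha, haS⟩ := brdb_nonempty hS hg
      have h1 : (1 : MvPolynomial (Idx × ℕ) k) ∈ vI (PS S d) := by
        rw [htop]
        exact Submodule.mem_top
      have h2 := h1 _ ⟨a, haS, rfl⟩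
      rw [map_one] at h2
      exact one_ne_zero h2
    · have h2 : ∀ b : (XX k).Tuple d, b.mor ∈ S →
          MvPolynomial.aeval b.1 (down d Φ * down d Ψ) = 0 := by
        intro b hb
        have h3 := hΦΨ _ ⟨b, hb, rfl⟩
        rw [map_mul] at h3
        have h4 := congrArg₂ (fun x y : k => x * y) (aeval_down b.1 Φ) (aeval_down b.1 Ψ)
        exact (map_mul _ _ _).trans (h4.trans h3)
      rcases h (down d Φ) (down d Ψ) h2 with h1 | h1
      · left
        rintro _ ⟨b, hb, rfl⟩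
        exact (aeval_down b.1 Φ).symm.trans (h1 b hb)
      · right
        rintro _ ⟨b, hb, rfl⟩
        exact (aeval_down b.1 Ψ).symm.trans (h1 b hb)
  · intro h
    refine ⟨?_, fun p q hpq => ?_⟩
    · rw [Set.nonempty_iff_ne_empty]
      intro hS0
      refine h.ne_top ((Ideal.eq_top_iff_one _).2 ?_)
      rintro _ ⟨b, hb, rfl⟩
      rw [hS0] at hb
      exact absurd hb (Set.notMem_empty _)
    · have h1 : up p * up q ∈ vI (PS S d) := by
        rintro _ ⟨b, hb, rfl⟩
        have h3 := hpq b hb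
        have h4 := congrArg₂ (fun x y : k => x * y) (eval_up b.1 p) (eval_up b.1 q)
        exact (map_mul _ _ _).trans (h4.trans ((map_mul _ _ _).symm.trans h3))
      rcases h.mem_or_mem h1 with h2 | h2
      · left
        intro b hb
        exact (eval_up b.1 p).symm.trans (h2 _ ⟨b, hb, rfl⟩)
      · right
        intro b hb
        exact (eval_up b.1 q).symm.trans (h2 _ ⟨b, hb, rfl⟩)

/-- Row M20e. Membership in a set of morphisms of degree `d`. -/
theorem subset_of_PS_subset {S S' : Set (XX k).Mor} {d : ℕ} (hS : ∀ g ∈ S, g.1 = d)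
    (h : PS S d ⊆ PS S' d) : S ⊆ S' := by
  intro g hg
  obtain ⟨a, ha, haS⟩ := brdb_nonempty hS hg
  obtain ⟨b, hb, hab⟩ := h ⟨a, haS, rfl⟩
  have h1 : b = a := by
    refine Subtype.ext (funext fun s => ?_)
    have h2 := congrArg (fun P : Polynomial k => P.coeff (s.2 : ℕ)) (congrFun hab s.1)
    simp only [brdb_coeff, dif_pos s.2.2] at h2
    exact h2
  rw [ha, ← h1]
  exact hb

end MP9a7843.M
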