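import Pool.Agent.Lib.MP_9a7843_ag_M.BrdA
import Pool.Agent.Lib.MP_9a7843_ag_M.BrdB

/-!
# Block M, BrdC: components from strata
-/

noncomputable section

open Polynomial

open Pool.Agent.MP9a7843 Pool.Agent.MP9a7843.ProjVar

namespace MP9a7843.M

universe u

variable {k : Type u} [Field k]

/-- The closure of the stratum `(b1, b2)` in the space of morphisms of degree `(e, b1 + b2)`. -/
def MT (k : Type u) [Field k] (e b1 b2 : ℕ) : Set (XX k).Mor :=
  {g | ∃ a : (XX k).Tuple (e + (b1 + b2)), g = a.mor ∧ tp a ∈ Mo k e (b1 + b2) ∧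
    tp a ∈ zcl (Ty k e b1 b2)}

private theorem tp_smul {d : ℕ} {a b : (XX k).Tuple d} {r : k} (h : b.1 = r • a.1) :
    tp b = fun I => C r * tp a I := by
  funext I
  change ∑ j : Fin (d + 1), C (b.1 (I, j)) * X ^ (j : ℕ) =
    C r * ∑ j : Fin (d + 1), C (a.1 (I, j)) * X ^ (j : ℕ)
  rw [Finset.mul_sum]
  refine Finset.sum_congr rfl fun j _ => ?_
  rw [h, Pi.smul_apply, smul_eq_mul, C_mul, mul_assoc]

private theorem zcl_smul {S : Set (Idx → k[X])} {r : k}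
    (hS : ∀ g ∈ S, (fun I => C r * g I) ∈ S) {g : Idx → k[X]} (hg : g ∈ zcl S) :
    (fun I => C r * g I) ∈ zcl S := by
  intro Φ hΦ
  have key : ∀ g : Idx → k[X], MvPolynomial.eval (cf g)
      (MvPolynomial.bind₁ (fun s => MvPolynomial.C r * MvPolynomial.X s) Φ) =
        MvPolynomial.eval (cf fun I => C r * g I) Φ := by
    intro g
    rw [← MvPolynomial.coe_aeval_eq_eval, ← MvPolynomial.coe_aeval_eq_eval,
      RingHom.coe_coe, RingHom.coe_coe, MvPolynomial.aeval_bind₁]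
    congr 2
    funext s
    rw [map_mul, MvPolynomial.aeval_C, MvPolynomial.aeval_X]
    exact (coeff_C_mul _).symm
  rw [← key]
  refine hg _ fun g' hg' => ?_
  rw [key]
  exact hΦ _ (hS g' hg')

/-- Row M21a. The representatives of the elements of `MT`.
Proof: `⊆`: if `a.mor = b.mor` then `b.1 = r • a.1` (`mor_eq_iff`), so `tp a = C r' * tp b`
(`r' = r⁻¹`), and `Mo` and `zcl Ty` are stable under scalars (`smul_mem_Ty`; for `zcl`: with `Φ`
also `Φ (r' ·)` is in the vanishing ideal). -/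
theorem PS_MT [IsAlgClosed k] [CharZero k] (e b1 b2 : ℕ) :
    PS (MT k e b1 b2) (e + (b1 + b2)) = Mo k e (b1 + b2) ∩ zcl (Ty k e b1 b2) := by
  ext g
  constructor
  · rintro ⟨a, ⟨b, hab, h1, h2⟩, rfl⟩
    obtain ⟨r, hr, h3⟩ := mor_eq_iff.1 hab
    have h4 : a.1 = r⁻¹ • b.1 := by
      rw [h3, smul_smul, inv_mul_cancel₀ hr, one_smul]
    have h5 : tupPoly a.1 = fun I => C r⁻¹ * tp b I := tp_smul h4
    rw [h5]
    refine ⟨?_, zcl_smul (fun g hg => smul_mem_Ty hg (inv_ne_zero hr)) h2⟩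
    obtain ⟨b1', b2', hb', hs, hg⟩ := h1
    exact ⟨b1', b2', hb', hs, smul_mem_Ty hg (inv_ne_zero hr)⟩
  · rintro ⟨h1, h2⟩
    obtain ⟨b1', b2', hb', hs, hg⟩ := id h1
    obtain ⟨a, rfl⟩ := exists_tuple_of_mem (d := e + (b1 + b2)) (by rw [hs]) hg
    exact ⟨a, ⟨a, rfl, h1, h2⟩, rfl⟩

/-- Row M21b. Proof: `Ty ⊆ Mo ∩ zcl Ty ⊆ zcl Ty`. -/
theorem vI_PS_MT [IsAlgClosed k] [CharZero k] {e b1 b2 : ℕ} (hb : b1 ≤ b2) :
    vI (PS (MT k e b1 b2) (e + (b1 + b2))) = vI (Ty k e b1 b2) := by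
  rw [PS_MT]
  refine le_antisymm (vI_anti fun g hg => ⟨⟨b1, b2, hb, rfl, hg⟩, subset_zcl _ hg⟩) ?_
  rw [← vI_zcl (Ty k e b1 b2)]
  exact vI_anti Set.inter_subset_right

/-- Row M21c. A prime vanishing ideal of a set of curves of degree `(e, h)` contains the vanishing
ideal of one of the finitely many strata.
Proof: the product over `b1 ≤ h` of the `vI (Ty k e b1 (h - b1))` (`2 b1 ≤ h`) is contained in
`vI (Mo k e h) ≤ vI Z`, use `Ideal.IsPrime.prod_le`. -/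
theorem exists_Ty_of_isPrime {e h : ℕ} {Z : Set (Idx → k[X])} (hZ : Z ⊆ Mo k e h)
    (hp : (vI Z).IsPrime) : ∃ b1 b2, b1 ≤ b2 ∧ b1 + b2 = h ∧ Z ⊆ zcl (Ty k e b1 b2) := by
  have h1 : ((Finset.range (h + 1)).filter fun b1 => 2 * b1 ≤ h).inf
      (fun b1 => vI (Ty k e b1 (h - b1))) ≤ vI Z := by
    intro Φ hΦ g hg
    obtain ⟨b1, b2, hb, hs, hgT⟩ := hZ hg
    have hb1 : b1 ∈ (Finset.range (h + 1)).filter fun b1 => 2 * b1 ≤ h :=
      Finset.mem_filter.2 ⟨Finset.mem_range.2 (by omega), by omega⟩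
    have h2 : Φ ∈ vI (Ty k e b1 (h - b1)) :=
      (Finset.inf_le (f := fun b1 => vI (Ty k e b1 (h - b1))) hb1) hΦ
    have h3 : h - b1 = b2 := by omega
    rw [h3] at h2
    exact h2 g hgT
  obtain ⟨b1, hb1, hle⟩ := hp.inf_le'.1 h1
  obtain ⟨h2, h3⟩ := Finset.mem_filter.1 hb1
  exact ⟨b1, h - b1, by omega, by omega, subset_zcl_iff.2 hle⟩

private theorem deg_of_cls [IsAlgClosed k] [CharZero k] {e h : ℕ} {g : (XX k).Mor}
    (hg : g.cls = cl k (e : ℝ) (h : ℝ)) : g.1 = e + h := by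
  obtain ⟨a, ha⟩ := Mor.exists_tuple g
  rw [ha] at hg
  exact (deg_of_mem_Mo a ((cls_mor_eq_iff a e h).1 hg)).symm

private theorem PS_sub_Mo [IsAlgClosed k] [CharZero k] {e h : ℕ} {S : Set (XX k).Mor}
    (hS : ∀ g ∈ S, g.cls = cl k (e : ℝ) (h : ℝ)) (d : ℕ) : PS S d ⊆ Mo k e h := by
  rintro _ ⟨a, ha, rfl⟩
  exact (cls_mor_eq_iff a e h).1 (hS _ ha)

/-- Row M21d. A stratum with prime vanishing ideal which is not in the closure of another one gives
a component.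
Proof: let `d = e + h`, `h = b1 + b2`.  `MT` is irreducible (`isIrreducible_iff_isPrime`,
`vI_PS_MT`) and of class `cl k e h` (`cls_mor_eq_iff`).  Let `S ⊇ MT` be irreducible of this class.
All elements of `S` have degree `d` (`Mor.exists_tuple`, `cls_mor_eq_iff`, `deg_of_mem_Mo`), and
`PS S d ⊆ Mo k e h`; `vI (PS S d)` is prime, so `PS S d ⊆ zcl (Ty k e b1' b2')`
(`exists_Ty_of_isPrime`).  Since `Ty k e b1 b2 ⊆ PS MT d ⊆ PS S d`, `hmax` gives
`(b1', b2') = (b1, b2)` and so `PS S d ⊆ PS MT d`, `S ⊆ MT` (`subset_of_PS_subset`). -/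
theorem isComponent_MT [IsAlgClosed k] [CharZero k] {e b1 b2 : ℕ} (hb : b1 ≤ b2)
    (hp : (vI (Ty k e b1 b2)).IsPrime)
    (hmax : ∀ b1' b2', b1' ≤ b2' → b1' + b2' = b1 + b2 →
      Ty k e b1 b2 ⊆ zcl (Ty k e b1' b2') → b1' = b1) :
    (XX k).IsComponent (cl k (e : ℝ) ((b1 + b2 : ℕ) : ℝ)) (MT k e b1 b2) := by
  have hinf : Infinite k := IsAlgClosed.instInfinite
  have hdeg : ∀ g ∈ MT k e b1 b2, g.1 = e + (b1 + b2) := by
    rintro _ ⟨a, rfl, -, -⟩
    rfl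
  refine ⟨⟨?_, ?_⟩, ?_⟩
  · rw [isIrreducible_iff_isPrime hdeg, vI_PS_MT hb]
    exact hp
  · rintro _ ⟨a, rfl, h1, -⟩
    exact (cls_mor_eq_iff a e (b1 + b2)).2 h1
  · rintro S ⟨hS1, hS2⟩ hle
    have hdeg' : ∀ g ∈ S, g.1 = e + (b1 + b2) := fun g hg => deg_of_cls (hS2 g hg)
    have h1 := PS_sub_Mo hS2 (e + (b1 + b2))
    have h2 := (isIrreducible_iff_isPrime hdeg').1 hS1
    obtain ⟨b1', b2', hb', hs, h3⟩ := exists_Ty_of_isPrime h1 h2
    have h4 : PS (MT k e b1 b2) (e + (b1 + b2)) ⊆ PS S (e + (b1 + b2)) := by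
      rintro _ ⟨a, ha, rfl⟩
      exact ⟨a, hle ha, rfl⟩
    have h5 : Ty k e b1 b2 ⊆ zcl (Ty k e b1' b2') := by
      refine subset_trans ?_ (h4.trans h3)
      rw [PS_MT]
      exact fun g hg => ⟨⟨b1, b2, hb, rfl, hg⟩, subset_zcl _ hg⟩
    have h6 : b1' = b1 := hmax b1' b2' hb' hs h5
    have h7 : b2' = b2 := by omega
    subst h6 h7
    refine subset_of_PS_subset hdeg' ?_
    rw [PS_MT]
    exact fun g hg => ⟨h1 hg, h3 hg⟩

/-- Row M21e. If all curves of degree `(e, h)` form an irreducible space then it is the only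
component.
Proof: let `W` be the set of all morphisms of class `cl k e h`; its elements have degree `e + h` and
`PS W (e + h) = Mo k e h` (`cls_mor_eq_iff`, `exists_tuple_of_mem`).  So `W` is irreducible, and
every component is equal to `W` by maximality. -/
theorem unique_component [IsAlgClosed k] [CharZero k] {e h : ℕ} (hp : (vI (Mo k e h)).IsPrime)
    {M M' : Set (XX k).Mor} (hM : (XX k).IsComponent (cl k (e : ℝ) (h : ℝ)) M)
    (hM' : (XX k).IsComponent (cl k (e : ℝ) (h : ℝ)) M') : M = M' := by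
  have hinf : Infinite k := IsAlgClosed.instInfinite
  have hdeg : ∀ g ∈ {g : (XX k).Mor | g.cls = cl k (e : ℝ) (h : ℝ)}, g.1 = e + h :=
    fun g hg => deg_of_cls hg
  have hPS : PS {g : (XX k).Mor | g.cls = cl k (e : ℝ) (h : ℝ)} (e + h) = Mo k e h := by
    refine subset_antisymm (PS_sub_Mo (fun g hg => hg) _) ?_
    intro g hg
    obtain ⟨b1, b2, hb, hs, hgT⟩ := id hg
    obtain ⟨a, rfl⟩ := exists_tuple_of_mem (d := e + h) (by rw [hs]) hgT
    exact ⟨a, (cls_mor_eq_iff a e h).2 hg, rfl⟩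
  have hirr : IsIrreducible {g : (XX k).Mor | g.cls = cl k (e : ℝ) (h : ℝ)} := by
    rw [isIrreducible_iff_isPrime hdeg, hPS]
    exact hp
  have key : ∀ {M : Set (XX k).Mor}, (XX k).IsComponent (cl k (e : ℝ) (h : ℝ)) M →
      M = {g : (XX k).Mor | g.cls = cl k (e : ℝ) (h : ℝ)} := fun hM =>
    subset_antisymm hM.1.2 (hM.2 ⟨hirr, fun g hg => hg⟩ hM.1.2)
  rw [key hM, key hM']

end MP9a7843.M
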