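import Pool.Agent.Lib.MP_9a7843_ag_M.Cov
import Pool.Agent.Lib.MP_9a7843_ag_M.ParL

/-!
# Block M, HH: the stratum `(b1, b2)` of degree `(b1 + 2 b2, b1 + b2)` and the family `famH`
-/

namespace MP9a7843.M

open Polynomial

universe u

private theorem hh_sum {R : Type*} [CommRing R] {n : ℕ} (f : Fin (n + 1) → R) :
    (∑ i : Fin (n + 1), C (f i) * X ^ (i : ℕ) : R[X]).natDegree ≤ n := by
  refine natDegree_sum_le_of_forall_le _ _ fun i _ => ?_
  exact (natDegree_C_mul_X_pow_le _ _).trans (Nat.lt_succ_iff.1 i.2)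

private theorem hh_bd {R : Type*} [CommRing R] {e b1 b2 d0 : ℕ} (he : b1 + 2 * b2 = e)
    (hd : d0 + 3 * b1 = e) (a : ParH b1 b2 d0 → R) :
    Bd e b1 b2 (hU a) (hV a) ![hA a, 0, 1, 0] := by
  refine ⟨fun i => hh_sum _, fun i => hh_sum _, fun m => ?_⟩
  fin_cases m
  · right
    have h1 : (hA a).natDegree ≤ d0 := hh_sum _
    show (hA a).natDegree + ((3 - 0) * b1 + 0 * b2) ≤ e
    omega
  · left
    rfl
  · right
    show (1 : R[X]).natDegree + ((3 - 2) * b1 + 2 * b2) ≤ e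
    rw [natDegree_one]
    omega
  · left
    rfl

/-- The change of the basis. -/
private theorem hh_chg {R : Type*} [CommRing R] (u v : Fin 10 → R) (c : Fin 4 → R) (s ρ h : R)
    (hs : s * ρ = 1) (hh : 2 * h = 1) (h2 : c 2 = ρ) (h3 : c 3 = 0) :
    zfun (fun i => s * u i + 0 * v i) (fun i => h * c 1 * u i + ρ * v i)
      ![ρ ^ 3 * (c 0 - 3 * h ^ 2 * s * c 1 ^ 2), 0, 1, 0] = zfun u v c := by
  rw [zfun_change]
  congr 1
  funext m
  fin_cases m
  · show (s * ρ - 0 * (h * c 1)) * (s ^ 3 * (ρ ^ 3 * (c 0 - 3 * h ^ 2 * s * c 1 ^ 2)) +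
      3 * s ^ 2 * (h * c 1) * 0 + 3 * s * (h * c 1) ^ 2 * 1 + (h * c 1) ^ 3 * 0) = c 0
    have h4 : s ^ 3 * ρ ^ 3 = 1 := by rw [← mul_pow, hs, one_pow]
    rw [hs]
    linear_combination (c 0 - 3 * h ^ 2 * s * c 1 ^ 2) * h4
  · show (s * ρ - 0 * (h * c 1)) * (s ^ 2 * 0 * (ρ ^ 3 * (c 0 - 3 * h ^ 2 * s * c 1 ^ 2)) +
      (s ^ 2 * ρ + 2 * s * 0 * (h * c 1)) * 0 +
      (2 * s * (h * c 1) * ρ + 0 * (h * c 1) ^ 2) * 1 + (h * c 1) ^ 2 * ρ * 0) = c 1
    linear_combination (c 1 * (2 * h) * (s * ρ + 1)) * hs + c 1 * hh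
  · show (s * ρ - 0 * (h * c 1)) * (s * 0 ^ 2 * (ρ ^ 3 * (c 0 - 3 * h ^ 2 * s * c 1 ^ 2)) +
      (0 ^ 2 * (h * c 1) + 2 * s * 0 * ρ) * 0 +
      (2 * 0 * (h * c 1) * ρ + s * ρ ^ 2) * 1 + (h * c 1) * ρ ^ 2 * 0) = c 2
    rw [h2]
    linear_combination (ρ * (s * ρ + 1)) * hs
  · show (s * ρ - 0 * (h * c 1)) * (0 ^ 3 * (ρ ^ 3 * (c 0 - 3 * h ^ 2 * s * c 1 ^ 2)) +
      3 * 0 ^ 2 * ρ * 0 + 3 * 0 * ρ ^ 2 * 1 + ρ ^ 3 * 0) = c 3
    rw [h3]
    ring

/-- Row M18. Proof: `ker_le_of_cover` twice.  Every member of `famH` is a member of `fam`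
(`Ψ = 1`; bounds: `d0 + 3 b1 = e`, `0 + b1 + 2 b2 = e`).  Conversely let `zfun u v c` be the member
with parameters `a` and `c 2 ≠ 0` (`Ψ` = the coordinate of `c 2`, there is exactly one); `c 2 = C r`
is constant and `c 3 = 0` (`qf e b1 b2 3 = 0` since `b1 < b2`).  Complete the square:
`v' = v + (2 r)⁻¹ (c 1) u` (degree `≤ b2`, as `natDegree (c 1) ≤ b2 - b1`),
`u = u`, `v = v' - (2 r)⁻¹ (c 1) u` and `zfun_change` give
`zfun u v c = zfun u v' ![c0', 0, C r, 0]`,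
`c0' = c 0 - (3 / 4) r⁻¹ (c 1) ^ 2` of degree `≤ 2 (b2 - b1) = d0`; and
`zfun (r⁻¹ u) (r v') ![r ^ 3 c0', 0, 1, 0] = zfun u v' ![c0', 0, r, 0]`. -/
theorem ker_famH {k : Type u} [Field k] [CharZero k] {e b1 b2 d0 : ℕ} (hb : b1 < b2)
    (he : b1 + 2 * b2 = e) (hd : d0 + 3 * b1 = e) :
    RingHom.ker (cH (famH (MvPolynomial.X (R := k) (σ := ParH b1 b2 d0)))) =
      RingHom.ker (cH (fam (MvPolynomial.X (R := k) (σ := Par b1 b2 (qf e b1 b2))))) := by
  have hq : 0 < qf e b1 b2 2 := by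
    show 0 < e + 1 - ((3 - 2) * b1 + 2 * b2)
    omega
  refine le_antisymm ?_ ?_
  · refine ker_le_of_cover _ _
      (MvPolynomial.X (Sum.inr (Sum.inr ⟨2, ⟨0, hq⟩⟩)) :
        MvPolynomial (Par b1 b2 (qf e b1 b2)) k) (MvPolynomial.X_ne_zero _) fun a ha => ?_
    rw [MvPolynomial.eval_X] at ha
    obtain ⟨hu, hv, hc⟩ := bd_par (e := e) a
    have hr := pC_coeff a 2 ⟨0, hq⟩
    have h3 : pC a 3 = 0 := by
      rcases hc 3 with h | h
      · exact h
      · have h' : (pC a 3).natDegree + ((3 - 3) * b1 + 3 * b2) ≤ e := h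
        omega
    have h2 : pC a 2 = C (a (Sum.inr (Sum.inr ⟨2, ⟨0, hq⟩⟩))) := by
      have h4 : (pC a 2).natDegree = 0 := by
        rcases hc 2 with h | h
        · rw [h, natDegree_zero]
        · have h' : (pC a 2).natDegree + ((3 - 2) * b1 + 2 * b2) ≤ e := h
          omega
      rw [eq_C_of_natDegree_eq_zero h4]
      exact congrArg C hr
    have h1 : (pC a 1).natDegree ≤ b2 - b1 := by
      rcases hc 1 with h | h
      · rw [h, natDegree_zero]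
        exact Nat.zero_le _
      · have h' : (pC a 1).natDegree + ((3 - 1) * b1 + 1 * b2) ≤ e := h
        omega
    have h0 : (pC a 0).natDegree ≤ d0 := by
      rcases hc 0 with h | h
      · rw [h, natDegree_zero]
        exact Nat.zero_le _
      · have h' : (pC a 0).natDegree + ((3 - 0) * b1 + 0 * b2) ≤ e := h
        omega
    set r : k := a (Sum.inr (Sum.inr ⟨2, ⟨0, hq⟩⟩)) with hrdef
    have hs : (C r⁻¹ : k[X]) * C r = 1 := by
      rw [← C_mul, inv_mul_cancel₀ ha, C_1]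
    have hh : (2 : k[X]) * C (2⁻¹ : k) = 1 := by
      have h5 : (2 : k[X]) = C (2 : k) := rfl
      rw [h5, ← C_mul, mul_inv_cancel₀ two_ne_zero, C_1]
    have key := hh_chg (pU a) (pV a) (pC a) (C r⁻¹) (C r) (C (2⁻¹ : k)) hs hh h2 h3
    have hm : ∀ (t : k) (f : k[X]) (n : ℕ), f.natDegree ≤ n → (C t * f).natDegree ≤ n :=
      fun t f n hf => (natDegree_C_mul_le _ _).trans hf
    obtain ⟨a', ha1, ha2, ha3⟩ := exists_parH (R := k) (b1 := b1) (b2 := b2) (d0 := d0)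
      (u := fun i => C r⁻¹ * pU a i + 0 * pV a i)
      (v := fun i => C (2⁻¹ : k) * pC a 1 * pU a i + C r * pV a i)
      (a0 := C r ^ 3 * (pC a 0 - 3 * C (2⁻¹ : k) ^ 2 * C r⁻¹ * pC a 1 ^ 2))
      (fun i => by
        rw [zero_mul, add_zero]
        exact hm _ _ _ (hu i))
      (fun i => by
        refine natDegree_add_le_of_degree_le ?_ (hm _ _ _ (hv i))
        rw [mul_assoc]
        refine hm _ _ _ ?_
        have h6 := natDegree_mul_le_of_le h1 (hu i)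
        have h7 : b2 - b1 + b1 = b2 := Nat.sub_add_cancel hb.le
        rwa [h7] at h6)
      (by
        rw [← C_pow]
        refine hm _ _ _ ?_
        refine (natDegree_sub_le_of_le h0 ?_).trans (max_self _).le
        have h8 : (3 : k[X]) * C (2⁻¹ : k) ^ 2 * C r⁻¹ = C (3 * (2⁻¹ : k) ^ 2 * r⁻¹) := by
          rw [C_mul, C_mul, C_pow]
          rfl
        rw [h8]
        refine hm _ _ _ ?_
        have h9 := natDegree_pow_le_of_le 2 h1
        omega)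
    refine ⟨a', ?_⟩
    rw [spec_fam, spec_famH]
    show zfun (pU a) (pV a) (pC a) = zfun (hU a') (hV a') ![hA a', 0, 1, 0]
    rw [ha1, ha2, ha3]
    exact key.symm
  · refine ker_le_of_cover _ _ (1 : MvPolynomial (ParH b1 b2 d0) k) one_ne_zero fun a _ => ?_
    obtain ⟨a', h1, h2, h3⟩ := (hh_bd he hd a).exists_par
    refine ⟨a', ?_⟩
    rw [spec_fam, spec_famH]
    show zfun (hU a) (hV a) ![hA a, 0, 1, 0] = zfun (pU a') (pV a') (pC a')
    rw [h1, h2, h3]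

end MP9a7843.M
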