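import Pool.Agent.Lib.MP_9a7843_ag_A.Exports
import Pool.Agent.Lib.MP_9a7843_ag_M.BrdC
import Pool.Agent.Lib.MP_9a7843_ag_M.HH
import Pool.Agent.Lib.MP_9a7843_ag_M.TyI

/-!
# Block M, GnF: generic members of the components
-/

noncomputable section

open Polynomial

open Pool.Agent.MP9a7843 Pool.Agent.MP9a7843.ProjVar

namespace MP9a7843.M

universe u

variable {k : Type u} [Field k]

private theorem polyOf_map {R S : Type*} [CommRing R] [CommRing S] (f : R →+* S) {n : ℕ}
    (a : Fin (n + 1) → R) : (polyOf a).map f = polyOf fun j => f (a j) := by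
  simp only [polyOf, Polynomial.map_sum, Polynomial.map_mul, map_C, Polynomial.map_pow, map_X]

private theorem polyOf_deg {R : Type*} [CommRing R] {n : ℕ} (a : Fin (n + 1) → R) :
    (polyOf a).natDegree ≤ n := by
  refine natDegree_sum_le_of_forall_le _ _ fun i _ => ?_
  exact (natDegree_C_mul_X_pow_le _ _).trans (Nat.lt_succ_iff.1 i.2)

private theorem polyOf_coeff {R : Type*} [CommRing R] {n : ℕ} {q : R[X]} (h : q.natDegree ≤ n) :
    (polyOf fun j : Fin (n + 1) => q.coeff j) = q := by
  rw [polyOf, Fin.sum_univ_eq_sum_range (fun j => C (q.coeff j) * X ^ j) (n + 1)]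
  exact (as_sum_range_C_mul_X_pow' q (Nat.lt_succ_of_le h)).symm

private theorem famG_map {R S : Type*} [CommRing R] [CommRing S] (f : R →+* S) {b n : ℕ}
    (a : SigG b n → R) (I : Idx) :
    (MP9a7843.famG a I).map f = MP9a7843.famG (fun s => f (a s)) I := by
  have h1 := zfun_map (mapRingHom f) (fun l => polyOf fun j => a (Sum.inl (l, j)))
    (fun l => polyOf fun j => a (Sum.inr (Sum.inl (l, j))))
    (fun m => polyOf fun j => a (Sum.inr (Sum.inr (m, j)))) I
  rw [coe_mapRingHom] at h1
  unfold MP9a7843.famG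
  rw [h1]
  simp only [polyOf_map]

private theorem spec_famG {b n : ℕ} (a : SigG b n → k) :
    spec a (MP9a7843.famG (MvPolynomial.X (R := k) (σ := SigG b n))) = MP9a7843.famG a := by
  funext I
  unfold spec
  rw [famG_map]
  simp only [MvPolynomial.eval_X]

/-- Row M22a. The kernel for the family `famG` of block A.
Proof: `ker_le_of_cover` twice with `Ψ = 1`; `qf e b b m = n + 1` for all `m`; members of `famG` and
of `fam` are the `zfun u v c` with `natDegree (u i), natDegree (v i) ≤ b`, `natDegree (c m) ≤ n`. -/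
theorem ker_famG [Infinite k] {e b n : ℕ} (hn : n + 3 * b = e) :
    RingHom.ker (cH (MP9a7843.famG (MvPolynomial.X (R := k) (σ := SigG b n)))) =
      RingHom.ker (cH (fam (MvPolynomial.X (R := k) (σ := Par b b (qf e b b))))) := by
  refine le_antisymm ?_ ?_
  · refine ker_le_of_cover _ _ (1 : MvPolynomial (Par b b (qf e b b)) k) one_ne_zero
      fun a _ => ?_
    have hB := bd_par (e := e) a
    have hc : ∀ m, (pC a m).natDegree ≤ n := by
      intro m
      rcases hB.hc m with h | h
      · rw [h, natDegree_zero]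
        exact Nat.zero_le _
      · have h3 : (3 - (m : ℕ)) * b + (m : ℕ) * b = 3 * b := by
          rw [← add_mul]
          congr 1
          have := m.2
          omega
        omega
    refine ⟨Sum.elim (fun s => (pU a s.1).coeff s.2) (Sum.elim (fun s => (pV a s.1).coeff s.2)
      (fun s => (pC a s.1).coeff s.2)), ?_⟩
    rw [spec_fam, spec_famG]
    unfold fam MP9a7843.famG
    congr 1
    · funext l
      exact (polyOf_coeff (hB.hu l)).symm
    · funext l
      exact (polyOf_coeff (hB.hv l)).symm
    · funext m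
      exact (polyOf_coeff (hc m)).symm
  · refine ker_le_of_cover _ _ (1 : MvPolynomial (SigG b n) k) one_ne_zero fun a _ => ?_
    have hB : Bd e b b (fun l => polyOf fun j => a (Sum.inl (l, j)))
        (fun l => polyOf fun j => a (Sum.inr (Sum.inl (l, j))))
        (fun m => polyOf fun j => a (Sum.inr (Sum.inr (m, j)))) := by
      refine ⟨fun i => polyOf_deg _, fun i => polyOf_deg _, fun m => Or.inr ?_⟩
      have h3 : (3 - (m : ℕ)) * b + (m : ℕ) * b = 3 * b := by
        rw [← add_mul]
        congr 1
        have := m.2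
        omega
      have h4 := polyOf_deg fun j : Fin (n + 1) => a (Sum.inr (Sum.inr (m, j)))
      rw [h3]
      omega
    obtain ⟨a', h1, h2, h3⟩ := hB.exists_par
    refine ⟨a', ?_⟩
    rw [spec_fam, spec_famG]
    unfold fam MP9a7843.famG
    rw [h1, h2, h3]

/-- Row M22b. The coefficients of the generic member of a family over the fraction field.
Proof: `coefOf k d G' s = algebraMap (cf G (s.1, s.2))`, so
`aeval (coefOf ..) p = algebraMap (cH G (up p))`; `algebraMap` to the fraction field is
injective. -/
theorem aeval_coefOf_eq_zero_iff {σ : Type} {d : ℕ} (G : Idx → (MvPolynomial σ k)[X])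
    (p : MvPolynomial (Idx × Fin (d + 1)) k) :
    MvPolynomial.aeval (coefOf k d (fun I => (G I).map
      (algebraMap (MvPolynomial σ k) (CoefField k σ)))) p = 0 ↔ cH G (up p) = 0 := by
  have h1 : coefOf k d (fun I => (G I).map (algebraMap (MvPolynomial σ k) (CoefField k σ))) =
      algebraMap (MvPolynomial σ k) (CoefField k σ) ∘
        fun s : Idx × Fin (d + 1) => (G s.1).coeff s.2 := by
    funext s
    exact coeff_map _ _
  have h2 : cH G (up p) =
      MvPolynomial.aeval (fun s : Idx × Fin (d + 1) => (G s.1).coeff s.2) p := by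
    unfold cH up
    rw [MvPolynomial.aeval_rename]
    rfl
  rw [h1, h2]
  exact MvPolynomial.aeval_algebraMap_eq_zero_iff_of_injective (CoefField k σ)
    (IsFractionRing.injective (MvPolynomial σ k) (CoefField k σ))

/-- Row M22c. -/
theorem famH_genTh (b1 b2 n : ℕ) : MP9a7843.famH (genTh k (SigH b1 b2 n)) =
    fun I => (famH (MvPolynomial.X (R := k) (σ := ParH b1 b2 n)) I).map
      (algebraMap (MvPolynomial (SigH b1 b2 n) k) (CoefField k (SigH b1 b2 n))) := by
  funext I
  rw [famH_map]
  rfl

/-- Row M22d. -/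
theorem famG_genTh (b n : ℕ) : MP9a7843.famG (genTh k (SigG b n)) =
    fun I => (MP9a7843.famG (MvPolynomial.X (R := k) (σ := SigG b n)) I).map
      (algebraMap (MvPolynomial (SigG b n) k) (CoefField k (SigG b n))) := by
  funext I
  rw [famG_map]
  rfl

/-- Row M22e. Generic points of the sets `MT`.
Proof: all elements of `MT` have degree `d`; the representatives of the elements of `MT` are
`PS MT d`, so the right-hand side of `IsGenericOf` is `up p ∈ vI (PS MT d) = vI (Ty k e b1 b2)`
(`vI_PS_MT`, `eval_up`), and `hker`, `aeval_coefOf_eq_zero_iff`. -/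
theorem isGenericOf_MT [IsAlgClosed k] [CharZero k] {e b1 b2 d : ℕ} (hb : b1 ≤ b2)
    (hd : e + (b1 + b2) = d) {σ : Type} (G : Idx → (MvPolynomial σ k)[X])
    (hker : vI (Ty k e b1 b2) = RingHom.ker (cH G)) :
    IsGenericOf (MT k e b1 b2) d (coefOf k d (fun I => (G I).map
      (algebraMap (MvPolynomial σ k) (CoefField k σ)))) := by
  subst hd
  refine ⟨?_, fun p => ?_⟩
  · rintro g ⟨a, rfl, -, -⟩
    rfl
  · refine (aeval_coefOf_eq_zero_iff G p).trans ?_
    have h1 : cH G (up p) = 0 ↔ up p ∈ vI (PS (MT k e b1 b2) (e + (b1 + b2))) := by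
      rw [vI_PS_MT hb, hker, RingHom.mem_ker]
    rw [h1, mem_vI]
    constructor
    · intro h a ha
      have h2 := h _ ⟨a, ha, rfl⟩
      rwa [eval_up] at h2
    · rintro h _ ⟨a, ha, rfl⟩
      rw [eval_up]
      exact h a ha

end MP9a7843.M
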