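import Pool.Agent.Lib.MP_9a7843_ag_M.D

/-!
# Block M, Cub: coefficients of cubics in a primitive plane
-/

namespace MP9a7843.M

open Polynomial

/-- Row M5a. Recover the coefficients of a cubic: contraction with the functionals
`φ x = x p * v q - x q * v p` and `ψ x = u p * x q - u q * x p`.
Proof: `simp only [cub, plu]; ring` for each. -/
theorem cub_contract {R : Type*} [CommRing R] (u v : Fin 10 → R) (c : Fin 4 → R)
    (p q : Fin 10) :
    c 0 * plu u v p q ^ 3 = v q ^ 3 * cub u v c p p p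
        - v q ^ 2 * v p * (cub u v c p p q + cub u v c p q p + cub u v c q p p)
        + v q * v p ^ 2 * (cub u v c p q q + cub u v c q p q + cub u v c q q p)
        - v p ^ 3 * cub u v c q q q ∧
    c 1 * plu u v p q ^ 3 = - (u q * v q ^ 2 * cub u v c p p p)
        + v q ^ 2 * u p * cub u v c p p q + v q * v p * u q * (cub u v c p q p + cub u v c q p p)
        - v q * v p * u p * (cub u v c p q q + cub u v c q p q)
        - v p ^ 2 * u q * cub u v c q q p
        + v p ^ 2 * u p * cub u v c q q q ∧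
    c 2 * plu u v p q ^ 3 = v q * u q ^ 2 * cub u v c p p p
        - v q * u q * u p * (cub u v c p p q + cub u v c p q p)
        + v q * u p ^ 2 * cub u v c p q q
        - v p * u q ^ 2 * cub u v c q p p
        + v p * u q * u p * (cub u v c q p q + cub u v c q q p)
        - v p * u p ^ 2 * cub u v c q q q ∧
    c 3 * plu u v p q ^ 3 = - (u q ^ 3 * cub u v c p p p)
        + u q ^ 2 * u p * (cub u v c p p q + cub u v c p q p + cub u v c q p p)
        - u q * u p ^ 2 * (cub u v c p q q + cub u v c q p q + cub u v c q q p)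
        + u p ^ 3 * cub u v c q q q := by
  refine ⟨?_, ?_, ?_, ?_⟩ <;> simp only [cub, plu] <;> ring

private theorem cub_map {R T : Type*} [CommRing R] [CommRing T] (f : R →+* T)
    (u v : Fin 10 → R) (c : Fin 4 → R) (a b d : Fin 10) :
    f (cub u v c a b d) = cub (fun i => f (u i)) (fun i => f (v i)) (fun m => f (c m)) a b d := by
  simp only [cub, map_add, map_mul]

private theorem plu_map {R T : Type*} [CommRing R] [CommRing T] (f : R →+* T)
    (u v : Fin 10 → R) (p q : Fin 10) :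
    f (plu u v p q) = plu (fun i => f (u i)) (fun i => f (v i)) p q := by
  simp only [plu, map_sub, map_mul]

/-- the denominators of an element of `K(t)` -/
private def den {K : Type*} [Field K] (x : RatFunc K) : Ideal K[X] where
  carrier := {r | ∃ y : K[X], x * algebraMap K[X] (RatFunc K) r = algebraMap K[X] (RatFunc K) y}
  add_mem' := by
    rintro a b ⟨y, hy⟩ ⟨z, hz⟩
    exact ⟨y + z, by rw [map_add, mul_add, hy, hz, map_add]⟩
  zero_mem' := ⟨0, by rw [map_zero, mul_zero]⟩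
  smul_mem' := by
    rintro a b ⟨y, hy⟩
    refine ⟨a * y, ?_⟩
    rw [smul_eq_mul, map_mul, map_mul, ← hy]
    ring

/-- Row M5b. Cubics over `K(t)` with polynomial coefficients, in a primitive plane, have
polynomial coefficients.
Proof: by `cub_contract` over `RatFunc K`, `c' m * P_pq ^ 3` is a polynomial for all `p, q`, and
the `P_pq ^ 3` generate the unit ideal of `K[X]` (as the `P_pq` do:
`Ideal.span_pow_eq_top` or expand `(∑ A P)^N = 1`, `N` large). -/
theorem exists_cub_coeffs {K : Type*} [Field K] {u v : Fin 10 → K[X]}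
    (hP : Prim (fun p : Fin 10 × Fin 10 => plu u v p.1 p.2))
    (F : Fin 10 → Fin 10 → Fin 10 → K[X]) (c' : Fin 4 → RatFunc K)
    (h : ∀ a b d, algebraMap K[X] (RatFunc K) (F a b d) =
      cub (fun i => algebraMap K[X] (RatFunc K) (u i))
        (fun i => algebraMap K[X] (RatFunc K) (v i)) c' a b d) :
    ∃ c : Fin 4 → K[X], (∀ m, c' m = algebraMap K[X] (RatFunc K) (c m)) ∧
      ∀ a b d, F a b d = cub u v c a b d := by
  have hden : ∀ (m : Fin 4) (p q : Fin 10), plu u v p q ^ 3 ∈ den (c' m) := by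
    intro m p q
    have h4 := cub_contract (fun i => algebraMap K[X] (RatFunc K) (u i))
      (fun i => algebraMap K[X] (RatFunc K) (v i)) c' p q
    simp only [← h, ← plu_map] at h4
    change ∃ y : K[X], c' m * algebraMap K[X] (RatFunc K) (plu u v p q ^ 3) =
      algebraMap K[X] (RatFunc K) y
    obtain ⟨h0, h1, h2, h3⟩ := h4
    match m with
    | 0 =>
      refine ⟨v q ^ 3 * F p p p - v q ^ 2 * v p * (F p p q + F p q p + F q p p)
        + v q * v p ^ 2 * (F p q q + F q p q + F q q p) - v p ^ 3 * F q q q, ?_⟩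
      simpa only [map_pow, map_mul, map_add, map_sub, map_neg] using h0
    | 1 =>
      refine ⟨- (u q * v q ^ 2 * F p p p) + v q ^ 2 * u p * F p p q
        + v q * v p * u q * (F p q p + F q p p) - v q * v p * u p * (F p q q + F q p q)
        - v p ^ 2 * u q * F q q p + v p ^ 2 * u p * F q q q, ?_⟩
      simpa only [map_pow, map_mul, map_add, map_sub, map_neg] using h1
    | 2 =>
      refine ⟨v q * u q ^ 2 * F p p p - v q * u q * u p * (F p p q + F p q p)
        + v q * u p ^ 2 * F p q q - v p * u q ^ 2 * F q p p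
        + v p * u q * u p * (F q p q + F q q p) - v p * u p ^ 2 * F q q q, ?_⟩
      simpa only [map_pow, map_mul, map_add, map_sub, map_neg] using h2
    | 3 =>
      refine ⟨- (u q ^ 3 * F p p p) + u q ^ 2 * u p * (F p p q + F p q p + F q p p)
        - u q * u p ^ 2 * (F p q q + F q p q + F q q p) + u p ^ 3 * F q q q, ?_⟩
      simpa only [map_pow, map_mul, map_add, map_sub, map_neg] using h3
  have hone : Ideal.span (Set.range fun p : Fin 10 × Fin 10 => plu u v p.1 p.2) = ⊤ := by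
    rw [Ideal.eq_top_iff_one]
    obtain ⟨A, hA⟩ := hP
    rw [← hA]
    exact Ideal.sum_mem _ fun i _ => Ideal.mul_mem_left _ _ (Ideal.subset_span ⟨i, rfl⟩)
  have hone' := Ideal.span_pow_eq_top _ hone 3
  have hc : ∀ m, ∃ y : K[X], c' m = algebraMap K[X] (RatFunc K) y := by
    intro m
    have h1 : (1 : K[X]) ∈ den (c' m) := by
      have h2 : Ideal.span ((fun x : K[X] => x ^ 3) ''
          (Set.range fun p : Fin 10 × Fin 10 => plu u v p.1 p.2)) ≤ den (c' m) := by
        rw [Ideal.span_le]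
        rintro _ ⟨_, ⟨p, rfl⟩, rfl⟩
        exact hden m p.1 p.2
      rw [hone'] at h2
      exact h2 trivial
    obtain ⟨y, hy⟩ := h1
    exact ⟨y, by rw [← hy, map_one, mul_one]⟩
  choose c hc using hc
  refine ⟨c, hc, fun a b d => ?_⟩
  apply FaithfulSMul.algebraMap_injective K[X] (RatFunc K)
  rw [h, cub_map]
  have h1 : c' = fun m => algebraMap K[X] (RatFunc K) (c m) := funext hc
  rw [h1]

section Deg

variable {K : Type*} [Field K] {a b x y f1 f2 f3 f4 f5 f6 f7 f8 : K[X]} {e b1 b2 : ℕ}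

private theorem ad {x y : K[X]} {N : ℕ} (hx : x.natDegree ≤ N) (hy : y.natDegree ≤ N) :
    (x + y).natDegree ≤ N := natDegree_add_le_of_degree_le hx hy

private theorem sb {x y : K[X]} {N : ℕ} (hx : x.natDegree ≤ N) (hy : y.natDegree ≤ N) :
    (x - y).natDegree ≤ N := (natDegree_sub_le_of_le hx hy).trans_eq (max_self _)

private theorem ng {x : K[X]} {N : ℕ} (hx : x.natDegree ≤ N) : (-x).natDegree ≤ N := by
  rwa [natDegree_neg]

private theorem dg0 (hx : x.natDegree ≤ b2) (hy : y.natDegree ≤ b2)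
    (h1 : f1.natDegree ≤ e) (h2 : f2.natDegree ≤ e) (h3 : f3.natDegree ≤ e)
    (h4 : f4.natDegree ≤ e) :
    (x ^ 3 * f1 - x ^ 2 * y * f2 + x * y ^ 2 * f3 - y ^ 3 * f4).natDegree ≤ e + 3 * b2 := by
  have x2 : (x ^ 2).natDegree ≤ 2 * b2 := natDegree_pow_le_of_le 2 hx
  have x3 : (x ^ 3).natDegree ≤ 3 * b2 := natDegree_pow_le_of_le 3 hx
  have y2 : (y ^ 2).natDegree ≤ 2 * b2 := natDegree_pow_le_of_le 2 hy
  have y3 : (y ^ 3).natDegree ≤ 3 * b2 := natDegree_pow_le_of_le 3 hy
  have t1 : (x ^ 3 * f1).natDegree ≤ e + 3 * b2 :=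
    (natDegree_mul_le_of_le x3 h1).trans (by omega)
  have t2 : (x ^ 2 * y * f2).natDegree ≤ e + 3 * b2 :=
    (natDegree_mul_le_of_le (natDegree_mul_le_of_le x2 hy) h2).trans (by omega)
  have t3 : (x * y ^ 2 * f3).natDegree ≤ e + 3 * b2 :=
    (natDegree_mul_le_of_le (natDegree_mul_le_of_le hx y2) h3).trans (by omega)
  have t4 : (y ^ 3 * f4).natDegree ≤ e + 3 * b2 :=
    (natDegree_mul_le_of_le y3 h4).trans (by omega)
  exact sb (ad (sb t1 t2) t3) t4

private theorem dg3 (hx : x.natDegree ≤ b1) (hy : y.natDegree ≤ b1)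
    (h1 : f1.natDegree ≤ e) (h2 : f2.natDegree ≤ e) (h3 : f3.natDegree ≤ e)
    (h4 : f4.natDegree ≤ e) :
    (-(x ^ 3 * f1) + x ^ 2 * y * f2 - x * y ^ 2 * f3 + y ^ 3 * f4).natDegree ≤ e + 3 * b1 := by
  have h : -(x ^ 3 * f1) + x ^ 2 * y * f2 - x * y ^ 2 * f3 + y ^ 3 * f4 =
      -(x ^ 3 * f1 - x ^ 2 * y * f2 + x * y ^ 2 * f3 - y ^ 3 * f4) := by ring
  rw [h, natDegree_neg]
  exact dg0 hx hy h1 h2 h3 h4

private theorem dg1 (ha : a.natDegree ≤ b1) (hb : b.natDegree ≤ b1) (hx : x.natDegree ≤ b2)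
    (hy : y.natDegree ≤ b2) (h1 : f1.natDegree ≤ e) (h2 : f2.natDegree ≤ e)
    (h3 : f3.natDegree ≤ e) (h4 : f4.natDegree ≤ e) (h5 : f5.natDegree ≤ e)
    (h6 : f6.natDegree ≤ e) :
    (-(a * x ^ 2 * f1) + x ^ 2 * b * f2 + x * y * a * f3 - x * y * b * f4 - y ^ 2 * a * f5
      + y ^ 2 * b * f6).natDegree ≤ e + 2 * b2 + b1 := by
  have x2 : (x ^ 2).natDegree ≤ 2 * b2 := natDegree_pow_le_of_le 2 hx
  have y2 : (y ^ 2).natDegree ≤ 2 * b2 := natDegree_pow_le_of_le 2 hy
  have xy : (x * y).natDegree ≤ b2 + b2 := natDegree_mul_le_of_le hx hy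
  have t1 : (a * x ^ 2 * f1).natDegree ≤ e + 2 * b2 + b1 :=
    (natDegree_mul_le_of_le (natDegree_mul_le_of_le ha x2) h1).trans (by omega)
  have t2 : (x ^ 2 * b * f2).natDegree ≤ e + 2 * b2 + b1 :=
    (natDegree_mul_le_of_le (natDegree_mul_le_of_le x2 hb) h2).trans (by omega)
  have t3 : (x * y * a * f3).natDegree ≤ e + 2 * b2 + b1 :=
    (natDegree_mul_le_of_le (natDegree_mul_le_of_le xy ha) h3).trans (by omega)
  have t4 : (x * y * b * f4).natDegree ≤ e + 2 * b2 + b1 :=
    (natDegree_mul_le_of_le (natDegree_mul_le_of_le xy hb) h4).trans (by omega)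
  have t5 : (y ^ 2 * a * f5).natDegree ≤ e + 2 * b2 + b1 :=
    (natDegree_mul_le_of_le (natDegree_mul_le_of_le y2 ha) h5).trans (by omega)
  have t6 : (y ^ 2 * b * f6).natDegree ≤ e + 2 * b2 + b1 :=
    (natDegree_mul_le_of_le (natDegree_mul_le_of_le y2 hb) h6).trans (by omega)
  exact ad (sb (sb (ad (ad (ng t1) t2) t3) t4) t5) t6

private theorem dg2 (ha : a.natDegree ≤ b1) (hb : b.natDegree ≤ b1) (hx : x.natDegree ≤ b2)
    (hy : y.natDegree ≤ b2) (h1 : f1.natDegree ≤ e) (h2 : f2.natDegree ≤ e)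
    (h3 : f3.natDegree ≤ e) (h4 : f4.natDegree ≤ e) (h5 : f5.natDegree ≤ e)
    (h6 : f6.natDegree ≤ e) :
    (x * a ^ 2 * f1 - x * a * b * f2 + x * b ^ 2 * f3 - y * a ^ 2 * f4 + y * a * b * f5
      - y * b ^ 2 * f6).natDegree ≤ e + b2 + 2 * b1 := by
  have a2 : (a ^ 2).natDegree ≤ 2 * b1 := natDegree_pow_le_of_le 2 ha
  have b2' : (b ^ 2).natDegree ≤ 2 * b1 := natDegree_pow_le_of_le 2 hb
  have t1 : (x * a ^ 2 * f1).natDegree ≤ e + b2 + 2 * b1 :=
    (natDegree_mul_le_of_le (natDegree_mul_le_of_le hx a2) h1).trans (by omega)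
  have t2 : (x * a * b * f2).natDegree ≤ e + b2 + 2 * b1 :=
    (natDegree_mul_le_of_le (natDegree_mul_le_of_le (natDegree_mul_le_of_le hx ha) hb)
      h2).trans (by omega)
  have t3 : (x * b ^ 2 * f3).natDegree ≤ e + b2 + 2 * b1 :=
    (natDegree_mul_le_of_le (natDegree_mul_le_of_le hx b2') h3).trans (by omega)
  have t4 : (y * a ^ 2 * f4).natDegree ≤ e + b2 + 2 * b1 :=
    (natDegree_mul_le_of_le (natDegree_mul_le_of_le hy a2) h4).trans (by omega)
  have t5 : (y * a * b * f5).natDegree ≤ e + b2 + 2 * b1 :=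
    (natDegree_mul_le_of_le (natDegree_mul_le_of_le (natDegree_mul_le_of_le hy ha) hb)
      h5).trans (by omega)
  have t6 : (y * b ^ 2 * f6).natDegree ≤ e + b2 + 2 * b1 :=
    (natDegree_mul_le_of_le (natDegree_mul_le_of_le hy b2') h6).trans (by omega)
  exact sb (ad (sb (ad (sb t1 t2) t3) t4) t5) t6

end Deg

private theorem deg_c {K : Type*} [Field K] {c P R : K[X]} {b N : ℕ} (hP : P.natDegree = b)
    (hP0 : P ≠ 0) (h : c * P ^ 3 = R) (hR : R.natDegree ≤ N) :
    c = 0 ∨ c.natDegree + 3 * b ≤ N := by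
  by_cases hc : c = 0
  · exact Or.inl hc
  · right
    rw [← h, natDegree_mul hc (pow_ne_zero 3 hP0), natDegree_pow, hP] at hR
    exact hR

/-- Row M5c. Degrees of the coefficients of a cubic.
Proof: `cub_contract` for the pair `(p, q)` of `hP`: the right-hand sides have degree
`≤ e + 3 b2`, `≤ e + 2 b2 + b1`, `≤ e + b2 + 2 b1`, `≤ e + 3 b1`, and `plu u v p q` has degree
exactly `b1 + b2`. -/
theorem cub_degree {K : Type*} [Field K] {e b1 b2 : ℕ} {u v : Fin 10 → K[X]}
    {c : Fin 4 → K[X]} (hu : ∀ i, (u i).natDegree ≤ b1) (hv : ∀ i, (v i).natDegree ≤ b2)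
    (hP : ∃ p : Fin 10 × Fin 10, (plu u v p.1 p.2).coeff (b1 + b2) ≠ 0)
    (hF : ∀ a b d, (cub u v c a b d).natDegree ≤ e) : Bd e b1 b2 u v c := by
  obtain ⟨⟨p, q⟩, hpq⟩ := hP
  simp only at hpq
  have hle : (plu u v p q).natDegree ≤ b1 + b2 := by
    rw [plu]
    have h1 : (u p * v q).natDegree ≤ b1 + b2 := natDegree_mul_le_of_le (hu p) (hv q)
    have h2 : (u q * v p).natDegree ≤ b1 + b2 := natDegree_mul_le_of_le (hu q) (hv p)
    exact (natDegree_sub_le_of_le h1 h2).trans_eq (max_self _)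
  have hd : (plu u v p q).natDegree = b1 + b2 := le_antisymm hle (le_natDegree_of_ne_zero hpq)
  have h0 : plu u v p q ≠ 0 := by
    intro h
    rw [h, coeff_zero] at hpq
    exact hpq rfl
  obtain ⟨e0, e1, e2, e3⟩ := cub_contract u v c p q
  refine ⟨hu, hv, fun m => ?_⟩
  match m with
  | 0 =>
    have h1 := deg_c hd h0 e0 (dg0 (hv q) (hv p) (hF p p p)
      (ad (ad (hF p p q) (hF p q p)) (hF q p p)) (ad (ad (hF p q q) (hF q p q)) (hF q q p))
      (hF q q q))
    refine h1.imp_right fun h => ?_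
    simp only [Fin.isValue, Fin.val_zero]
    omega
  | 1 =>
    have h1 := deg_c hd h0 e1 (dg1 (hu q) (hu p) (hv q) (hv p) (hF p p p) (hF p p q)
      (ad (hF p q p) (hF q p p)) (ad (hF p q q) (hF q p q)) (hF q q p) (hF q q q))
    refine h1.imp_right fun h => ?_
    simp only [Fin.isValue, Fin.val_one]
    omega
  | 2 =>
    have h1 := deg_c hd h0 e2 (dg2 (hu q) (hu p) (hv q) (hv p) (hF p p p)
      (ad (hF p p q) (hF p q p)) (hF p q q) (hF q p p) (ad (hF q p q) (hF q q p)) (hF q q q))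
    refine h1.imp_right fun h => ?_
    simp only [Fin.isValue, Fin.val_two]
    omega
  | 3 =>
    have h1 := deg_c hd h0 e3 (dg3 (hu q) (hu p) (hF p p p)
      (ad (ad (hF p p q) (hF p q p)) (hF q p p)) (ad (ad (hF p q q) (hF q p q)) (hF q q p))
      (hF q q q))
    refine h1.imp_right fun h => ?_
    have h3 : ((3 : Fin 4) : ℕ) = 3 := rfl
    rw [h3]
    omega

end MP9a7843.M
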