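import Pool.Agent.Lib.MP_9a7843_ag_M.DgnA
import Pool.Agent.Lib.MP_9a7843_ag_M.Fam
import Pool.Agent.Lib.MP_9a7843_ag_M.Opn
import Pool.Agent.Lib.MP_9a7843_ag_M.Cub
import Pool.Agent.Lib.MP_9a7843_ag_M.Deg

/-!
# Block M, Dgn: the stratum `(b1, b2)` is in the closure of the stratum `(b1 + 1, b2 - 1)`
-/

namespace MP9a7843.M

open Polynomial

universe u

section Aux

variable {k : Type u} [Field k]

/-- constant coefficients -/
private noncomputable def dL (q : k[X]) : k[X][X] := q.map C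

/-- the constant term -/
private noncomputable def dv0 (v : Fin 10 → k[X]) (l : Fin 10) : k[X] := C ((v l).coeff 0)

/-- the quotient -/
private noncomputable def dy (v : Fin 10 → k[X]) (l : Fin 10) : k[X] := (v l).divX

private theorem dv_eq (v : Fin 10 → k[X]) : (fun l => dv0 v l + X * dy v l) = v := by
  funext l
  rw [dv0, dy, add_comm, mul_comm, divX_mul_X_add]

private noncomputable def dp (u v : Fin 10 → k[X]) (l : Fin 10) : k[X][X] :=
  X * dL (u l) - C X * dL (dv0 v l)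

private noncomputable def dw (u v : Fin 10 → k[X]) (l : Fin 10) : k[X][X] :=
  dL (u l) + C X * dL (dy v l)

private noncomputable def dF (g : Fin 4 → k[X]) (h : Fin 3 → k[X]) (i : Fin 2 → k[X])
    (c3 : k[X]) (u v : Fin 10 → k[X]) (a b d : Fin 10) : k[X][X] :=
  dgF (fun m => dL (g m)) (fun m => dL (h m)) (fun m => dL (i m)) (dL c3) (dp u v) (dw u v)
    (fun l => dL (v l)) a b d

private noncomputable def dPl (u v : Fin 10 → k[X]) (a b : Fin 10) : k[X][X] :=
  plu (fun l => dL (u l)) (fun l => dL (v l)) a b -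
    C X * plu (fun l => dL (dv0 v l)) (fun l => dL (dy v l)) a b

private theorem dL_ev (s : k) (q : k[X]) : (dL q).map (evalRingHom s) = q := by
  rw [dL, Polynomial.map_map]
  have h : (evalRingHom s).comp (C : k →+* k[X]) = RingHom.id k := by
    ext x
    simp
  rw [h, Polynomial.map_id]

private theorem dL_deg (q : k[X]) : (dL q).natDegree ≤ q.natDegree := natDegree_map_le

private theorem dL_zero : dL (0 : k[X]) = 0 := Polynomial.map_zero _

private theorem dp_ev (s : k) (u v : Fin 10 → k[X]) (l : Fin 10) :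
    (dp u v l).map (evalRingHom s) = X * u l - C s * dv0 v l := by
  rw [dp, Polynomial.map_sub, Polynomial.map_mul, Polynomial.map_mul, dL_ev, dL_ev, map_X,
    map_C, coe_evalRingHom, eval_X]

private theorem dw_ev (s : k) (u v : Fin 10 → k[X]) (l : Fin 10) :
    (dw u v l).map (evalRingHom s) = u l + C s * dy v l := by
  rw [dw, Polynomial.map_add, Polynomial.map_mul, dL_ev, dL_ev, map_C, coe_evalRingHom, eval_X]

private theorem dF_ev (s : k) (g : Fin 4 → k[X]) (h : Fin 3 → k[X]) (i : Fin 2 → k[X])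
    (c3 : k[X]) (u v : Fin 10 → k[X]) (a b d : Fin 10) :
    (dF g h i c3 u v a b d).map (evalRingHom s) =
      dgF g h i c3 (fun l => X * u l - C s * dv0 v l) (fun l => u l + C s * dy v l) v a b d := by
  have h1 := dgF_map (mapRingHom (evalRingHom s)) (fun m => dL (g m)) (fun m => dL (h m))
    (fun m => dL (i m)) (dL c3) (dp u v) (dw u v) (fun l => dL (v l)) a b d
  simp only [coe_mapRingHom, dL_ev, dp_ev, dw_ev] at h1
  exact h1

private theorem dPl_ev (s : k) (u v : Fin 10 → k[X]) (a b : Fin 10) :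
    (dPl u v a b).map (evalRingHom s) = plu u v a b - C s * plu (dv0 v) (dy v) a b := by
  have h1 := plu_map (mapRingHom (evalRingHom s)) (fun l => dL (u l)) (fun l => dL (v l)) a b
  have h2 := plu_map (mapRingHom (evalRingHom s)) (fun l => dL (dv0 v l))
    (fun l => dL (dy v l)) a b
  simp only [coe_mapRingHom, dL_ev] at h1 h2
  rw [dPl, Polynomial.map_sub, Polynomial.map_mul, h1, h2, map_C, coe_evalRingHom, eval_X]

private theorem dy_deg {b2 : ℕ} {v : Fin 10 → k[X]} (hv : ∀ l, (v l).natDegree ≤ b2)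
    (l : Fin 10) : (dy v l).natDegree ≤ b2 - 1 := by
  rw [dy, natDegree_divX_eq_natDegree_tsub_one]
  exact Nat.sub_le_sub_right (hv l) 1

private theorem dp_deg {b1 : ℕ} {u : Fin 10 → k[X]} (v : Fin 10 → k[X])
    (hu : ∀ l, (u l).natDegree ≤ b1) (l : Fin 10) : (dp u v l).natDegree ≤ b1 + 1 := by
  have h1 : (X * dL (u l)).natDegree ≤ b1 + 1 := by
    refine (natDegree_mul_le_of_le natDegree_X_le ((dL_deg (u l)).trans (hu l))).trans ?_
    omega
  have h2 : (C X * dL (dv0 v l)).natDegree ≤ b1 + 1 := by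
    refine (natDegree_C_mul_le _ _).trans ((dL_deg _).trans ?_)
    rw [dv0, natDegree_C]
    exact Nat.zero_le _
  exact (natDegree_sub_le_of_le h1 h2).trans_eq (max_self _)

private theorem dw_deg {b1 b2 : ℕ} (hb : b1 + 2 ≤ b2) {u v : Fin 10 → k[X]}
    (hu : ∀ l, (u l).natDegree ≤ b1) (hv : ∀ l, (v l).natDegree ≤ b2) (l : Fin 10) :
    (dw u v l).natDegree ≤ b2 - 1 := by
  have h1 : (dL (u l)).natDegree ≤ b2 - 1 := (dL_deg (u l)).trans ((hu l).trans (by omega))
  have h2 : (C X * dL (dy v l)).natDegree ≤ b2 - 1 :=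
    (natDegree_C_mul_le _ _).trans ((dL_deg _).trans (dy_deg hv l))
  exact natDegree_add_le_of_degree_le h1 h2

private theorem dPl_deg {b1 b2 : ℕ} {u v : Fin 10 → k[X]}
    (hu : ∀ l, (u l).natDegree ≤ b1) (hv : ∀ l, (v l).natDegree ≤ b2) (a b : Fin 10) :
    (dPl u v a b).natDegree ≤ b1 + b2 := by
  have h0 : ∀ l, (dL (u l)).natDegree ≤ b1 := fun l => (dL_deg (u l)).trans (hu l)
  have h1 : ∀ l, (dL (v l)).natDegree ≤ b2 := fun l => (dL_deg (v l)).trans (hv l)
  have h2 : ∀ l, (dL (dv0 v l)).natDegree ≤ 0 := fun l => (dL_deg _).trans (by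
    rw [dv0, natDegree_C])
  have h3 : ∀ l, (dL (dy v l)).natDegree ≤ b2 := fun l =>
    (dL_deg _).trans ((dy_deg hv l).trans (Nat.sub_le _ _))
  have h4 : (plu (fun l => dL (u l)) (fun l => dL (v l)) a b).natDegree ≤ b1 + b2 := by
    rw [plu]
    exact (natDegree_sub_le_of_le (natDegree_mul_le_of_le (h0 a) (h1 b))
      (natDegree_mul_le_of_le (h0 b) (h1 a))).trans_eq (max_self _)
  have h5 : (C X * plu (fun l => dL (dv0 v l)) (fun l => dL (dy v l)) a b).natDegree ≤
      b1 + b2 := by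
    refine (natDegree_C_mul_le _ _).trans ?_
    rw [plu]
    refine (natDegree_sub_le_of_le (natDegree_mul_le_of_le (h2 a) (h3 b))
      (natDegree_mul_le_of_le (h2 b) (h3 a))).trans ?_
    rw [max_self]
    omega
  exact (natDegree_sub_le_of_le h4 h5).trans_eq (max_self _)

private theorem dF_deg {e b1 b2 : ℕ} (hb : b1 + 2 ≤ b2) (he : 3 * (b1 + b2) ≤ e)
    {u v : Fin 10 → k[X]} (hu : ∀ l, (u l).natDegree ≤ b1) (hv : ∀ l, (v l).natDegree ≤ b2)
    {g : Fin 4 → k[X]} {h : Fin 3 → k[X]} {i : Fin 2 → k[X]} {c3 : k[X]}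
    (hg0 : g 0 = 0 ∨ (g 0).natDegree + 3 * b1 + 3 ≤ e) (hg1 : (g 1).natDegree = 0)
    (hg2 : (g 2).natDegree = 0) (hg3 : (g 3).natDegree = 0)
    (hh0 : h 0 = 0 ∨ (h 0).natDegree + 2 * b1 + b2 + 2 ≤ e) (hh1 : (h 1).natDegree = 0)
    (hh2 : (h 2).natDegree = 0) (hi0 : i 0 = 0 ∨ (i 0).natDegree + b1 + 2 * b2 + 1 ≤ e)
    (hi1 : (i 1).natDegree = 0) (hc3 : c3 = 0 ∨ c3.natDegree + 3 * b2 ≤ e) (a b d : Fin 10) :
    (dF g h i c3 u v a b d).natDegree ≤ e := by
  have hz : ∀ q : k[X], q.natDegree = 0 → (dL q).natDegree = 0 := fun q hq =>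
    Nat.le_zero.1 ((dL_deg q).trans_eq hq)
  have hn : ∀ (q : k[X]) (n : ℕ), (q = 0 ∨ q.natDegree + n ≤ e) →
      (dL q = 0 ∨ (dL q).natDegree + n ≤ e) := by
    intro q n hq
    rcases hq with hq | hq
    · exact Or.inl (by rw [hq, dL_zero])
    · exact Or.inr ((Nat.add_le_add_right (dL_deg q) n).trans hq)
  refine dgF_degree hb he (dp_deg v hu) (dw_deg hb hu hv)
    (fun l => (dL_deg (v l)).trans (hv l)) ?_ (hz _ hg1) (hz _ hg2) (hz _ hg3) ?_ (hz _ hh1)
    (hz _ hh2) ?_ (hz _ hi1) (hn _ _ hc3) a b d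
  · exact (hn (g 0) (3 * b1 + 3) (hg0.imp_right fun x => by omega)).imp_right fun x => by omega
  · exact (hn (h 0) (2 * b1 + b2 + 2) (hh0.imp_right fun x => by omega)).imp_right
      fun x => by omega
  · exact (hn (i 0) (b1 + 2 * b2 + 1) (hi0.imp_right fun x => by omega)).imp_right
      fun x => by omega

end Aux

/-- Row M10c. Proof: let `g = zfun u v c` be good, with `Bd e b1 b2 u v c`.
`v0 i = C ((v i).coeff 0)`, `y i = (v i).divX`, so `v i = v0 i + X * y i`, `natDegree (y i) ≤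
b2 - 1`.  Take `gg, h, i` from `exists_dgn_coeffs`.  Let `L = mapRingHom C : k[X] →+* k[X][X]`
(polynomials in `t` to polynomials in `t` over `k[s]`) and `S = C X`.
`p l = X * L (u l) - S * L (v0 l)`, `w l = L (u l) + S * L (y l)`,
`F = dgF (L gg) (L h) (L i) (L (c 3)) p w (L v)`,
`P a b = plu (L u) (L v) a b - S * plu (L v0) (L y) a b` and `G I = F I.1 * P I.2`.
Degrees in `t`: `F` at most `e` (`dgF_degree`), `P` at most `b1 + b2`, so `G` at most
`e + (b1 + b2)`.  `(G I).map (evalRingHom 0) = g I` by `dgF_zero`.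
`Good.exists_open` (for `R = k[X]`, `ρ = aeval 0`) gives `Ψ` with `Ψ(0) ≠ 0`.  By
`mem_zcl_of_family` it remains to show for `s ≠ 0`, `Ψ(s) ≠ 0` that `g_s = G.map (evalRingHom s)`
is of type `(b1 + 1, b2 - 1)`.  It is good; `g_s I = F_s I.1 * P_s I.2` and `P_s` is good of
degree `b1 + b2` (`Good.factors`).  Let `p_s, w_s` be the values of `p, w`.  By `plu_dgn`,
`plu p_s w_s = s P_s`; by `v_dgn` and `dgF_eq_cub`, with `σ = s⁻¹` (as a constant),
`F_s = cub p_s w_s c'`.  So `g_s = zfun p_s w_s (σ c')` (`cub_smul`), and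
`Bd e (b1 + 1) (b2 - 1) p_s w_s (σ c')` by `cub_degree`. -/
theorem Ty_subset_zcl {k : Type u} [Field k] [CharZero k] {e b1 b2 : ℕ} (hb : b1 + 2 ≤ b2)
    (he : 3 * (b1 + b2) ≤ e) :
    Ty k e b1 b2 ⊆ zcl (Ty k e (b1 + 1) (b2 - 1)) := by
  rintro g ⟨hgood, u, v, c, ⟨hu, hv, hc⟩, rfl⟩
  obtain ⟨gg, h, i, hc0, hc1, hc2, hg0, hg1, hg2, hg3, hh0, hh1, hh2, hi0, hi1, hc3⟩ :=
    exists_dgn_coeffs hc
  have hFd : ∀ a b d, (dF gg h i (c 3) u v a b d).natDegree ≤ e :=
    dF_deg hb he hu hv hg0 hg1 hg2 hg3 hh0 hh1 hh2 hi0 hi1 hc3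
  have hPd : ∀ a b, (dPl u v a b).natDegree ≤ b1 + b2 := dPl_deg hu hv
  have hcc : ![gg 0 * X ^ 3 + 3 * gg 1 * X ^ 2 + 3 * gg 2 * X + gg 3,
      h 0 * X ^ 2 + 2 * h 1 * X + h 2, i 0 * X + i 1, c 3] = c := by
    funext m
    match m with
    | 0 => exact hc0.symm
    | 1 => exact hc1.symm
    | 2 => exact hc2.symm
    | 3 => rfl
  obtain ⟨G, hG⟩ : ∃ G : Idx → k[X][X], G = fun I =>
      dF gg h i (c 3) u v I.1.1 I.1.2.1 I.1.2.2 * dPl u v I.2.1 I.2.2 := ⟨_, rfl⟩
  have hG0 : (fun I => (G I).map (evalRingHom 0)) = zfun u v c := by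
    funext I
    rw [hG]
    simp only [Polynomial.map_mul]
    rw [dF_ev, dPl_ev, zfun]
    have h1 : (fun l => X * u l - C (0 : k) * dv0 v l) = fun l => X * u l := by
      funext l
      rw [C_0, zero_mul, sub_zero]
    have h2 : (fun l => u l + C (0 : k) * dy v l) = u := by
      funext l
      rw [C_0, zero_mul, add_zero]
    rw [h1, h2, dgF_zero, hcc, C_0, zero_mul, sub_zero]
  have hGd : ∀ I, (G I).natDegree ≤ e + (b1 + b2) := by
    intro I
    rw [hG]
    exact natDegree_mul_le_of_le (hFd _ _ _) (hPd _ _)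
  have hρ : ((aeval (0 : k) : k[X] →ₐ[k] k) : k[X] →+* k) = evalRingHom 0 := by
    ext x <;> simp
  have hgood' : Good (e + (b1 + b2))
      (fun I => (G I).map ((aeval (0 : k) : k[X] →ₐ[k] k) : k[X] →+* k)) := by
    rw [hρ, hG0]
    exact hgood
  obtain ⟨Ψ, hΨ0, hΨ⟩ := Good.exists_open G hGd (aeval (0 : k)) hgood'
  have hΨne : Ψ ≠ 0 := by
    rintro rfl
    exact hΨ0 (map_zero _)
  rw [← hG0]
  refine mem_zcl_of_family _ G Ψ hΨne fun s hs hΨs => ?_
  have hgs : Good (e + (b1 + b2)) (fun I => (G I).map (evalRingHom s)) := hΨ k (evalRingHom s) hΨs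
  obtain ⟨ps, hps⟩ : ∃ ps : Fin 10 → k[X], ps = fun l => X * u l - C s * dv0 v l := ⟨_, rfl⟩
  obtain ⟨ws, hws⟩ : ∃ ws : Fin 10 → k[X], ws = fun l => u l + C s * dy v l := ⟨_, rfl⟩
  have hpsd : ∀ l, (ps l).natDegree ≤ b1 + 1 := by
    intro l
    rw [hps]
    change (X * u l - C s * dv0 v l).natDegree ≤ b1 + 1
    rw [← dp_ev]
    exact natDegree_map_le.trans (dp_deg v hu l)
  have hwsd : ∀ l, (ws l).natDegree ≤ b2 - 1 := by
    intro l
    rw [hws]
    change (u l + C s * dy v l).natDegree ≤ b2 - 1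
    rw [← dw_ev]
    exact natDegree_map_le.trans (dw_deg hb hu hv l)
  have hσ : C s⁻¹ * C s = (1 : k[X]) := by
    rw [← C_mul, inv_mul_cancel₀ hs, C_1]
  have hvs : v = fun l => C s⁻¹ * (X * ws l - ps l) := by
    funext l
    rw [hps, hws]
    change v l = C s⁻¹ * (X * (u l + C s * dy v l) - (X * u l - C s * dv0 v l))
    rw [← v_dgn (C s) X (C s⁻¹) hσ u (dv0 v) (dy v) l]
    exact (congrFun (dv_eq v) l).symm
  have hFs : ∀ a b d, (dF gg h i (c 3) u v a b d).map (evalRingHom s) =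
      cub ps ws (dgC gg h i (c 3) (C s⁻¹) X) a b d := by
    intro a b d
    rw [dF_ev, ← hps, ← hws, ← dgF_eq_cub, ← hvs]
  have hPs : ∀ a b, plu ps ws a b = C s * (dPl u v a b).map (evalRingHom s) := by
    intro a b
    rw [dPl_ev, hps, hws, plu_dgn, dv_eq]
  have hPs' : ∀ a b, (dPl u v a b).map (evalRingHom s) = C s⁻¹ * plu ps ws a b := by
    intro a b
    rw [hPs, ← mul_assoc, hσ, one_mul]
  have hgsz : (fun I => (G I).map (evalRingHom s)) =
      zfun ps ws (fun m => C s⁻¹ * dgC gg h i (c 3) (C s⁻¹) X m) := by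
    funext I
    rw [hG]
    simp only [Polynomial.map_mul]
    rw [hFs, hPs', zfun, cub_smul]
    ring
  have hsum : b1 + 1 + (b2 - 1) = b1 + b2 := by omega
  refine ⟨?_, ps, ws, _, ?_, hgsz⟩
  · rw [hsum]
    exact hgs
  · refine cub_degree hpsd hwsd ?_ ?_
    · have hf : Good (e + (b1 + b2)) (fun I : Idx =>
          (fun s' : Fin 10 × Fin 10 × Fin 10 =>
            (dF gg h i (c 3) u v s'.1 s'.2.1 s'.2.2).map (evalRingHom s)) I.1 *
          (fun p : Fin 10 × Fin 10 => (dPl u v p.1 p.2).map (evalRingHom s)) I.2) := by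
        rw [hG] at hgs
        simp only [Polynomial.map_mul] at hgs
        exact hgs
      obtain ⟨-, -, -, p, hp⟩ := Good.factors
        (fun s' => natDegree_map_le.trans (hFd s'.1 s'.2.1 s'.2.2))
        (fun p => natDegree_map_le.trans (hPd p.1 p.2)) hf
      refine ⟨p, ?_⟩
      rw [hsum, hPs, coeff_C_mul]
      exact mul_ne_zero hs hp
    · intro a b d
      rw [cub_smul, ← hFs]
      exact (natDegree_C_mul_le _ _).trans (natDegree_map_le.trans (hFd a b d))

end MP9a7843.M
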