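import Pool.Agent.Lib.MP_9a7843_ag_M.TyI
import Pool.Agent.Lib.MP_9a7843_ag_M.Dgn

/-!
# Block M, MoI: for `e ≥ 3 h` all curves are in the closure of the balanced stratum
-/

namespace MP9a7843.M

open Polynomial

universe u

/-- Row M11a. Proof: induction on `b2 - b1` with `Ty_subset_zcl` (and transitivity of closure:
`subset_zcl_iff`). -/
theorem Ty_subset_zcl_balanced {k : Type u} [Field k] [CharZero k] {e b1 b2 : ℕ} (hb : b1 ≤ b2)
    (he : 3 * (b1 + b2) ≤ e) :
    Ty k e b1 b2 ⊆ zcl (Ty k e ((b1 + b2) / 2) (b1 + b2 - (b1 + b2) / 2)) := by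
  obtain ⟨n, hn⟩ : ∃ n, b2 - b1 = n := ⟨_, rfl⟩
  induction n using Nat.strong_induction_on generalizing b1 b2 with
  | _ n ih =>
    by_cases h : b1 + 2 ≤ b2
    · have h1 := Ty_subset_zcl (k := k) h he
      have h2 := ih (b2 - 1 - (b1 + 1)) (by omega) (b1 := b1 + 1) (b2 := b2 - 1) (by omega)
        (by omega) rfl
      have e1 : b1 + 1 + (b2 - 1) = b1 + b2 := by omega
      rw [e1] at h2
      rw [subset_zcl_iff] at h1 h2 ⊢
      exact h2.trans h1
    · have e1 : (b1 + b2) / 2 = b1 := by omega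
      have e2 : b1 + b2 - b1 = b2 := by omega
      rw [e1, e2]
      exact subset_zcl _

/-- Row M11b. Proof: `M11a`, `vI_Ty`, `ker_cH_isPrime` and `vI (Mo) = vI (Ty balanced)`. -/
theorem vI_Mo_isPrime {k : Type u} [Field k] [CharZero k] {e h : ℕ} (he : 3 * h ≤ e) :
    (vI (Mo k e h)).IsPrime := by
  haveI : Infinite k := CharZero.infinite k
  have h1 : vI (Mo k e h) = vI (Ty k e (h / 2) (h - h / 2)) := by
    refine le_antisymm (vI_anti ?_) ?_
    · intro g hg
      exact ⟨h / 2, h - h / 2, by omega, by omega, hg⟩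
    · rintro Φ hΦ g ⟨b1, b2, hb, hh, hg⟩
      have h2 := Ty_subset_zcl_balanced (k := k) (e := e) hb (by rw [hh]; exact he)
      rw [hh] at h2
      exact h2 hg Φ hΦ
  rw [h1, vI_Ty (by omega) (by omega)]
  exact ker_cH_isPrime _

end MP9a7843.M
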