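import Pool.Agent.Lib.MP_9a7843_ag_A.Exports
import Pool.Agent.Lib.MP_9a7843_ag_M.GnF
import Pool.Agent.Lib.MP_9a7843_ag_M.Cmp
import Pool.Agent.Lib.MP_9a7843_ag_M.MoI
import Pool.Agent.Lib.MP_9a7843_ag_M.GPt

/-!
# Block M, Fin: exports
-/

noncomputable section

open Polynomial

open Pool.Agent.MP9a7843 Pool.Agent.MP9a7843.ProjVar

namespace MP9a7843

universe u

variable (k : Type u) [Field k] [IsAlgClosed k] [CharZero k]

/-- Export of block M: one component for `e ≥ 3 h`. -/
theorem expAlpha2 : ExpAlpha2 k (cl k) := fun _ _ he _ _ hM hM' =>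
  M.unique_component (M.vI_Mo_isPrime he) hM hM'

private theorem vI_Ty_isPrime {e b1 b2 : ℕ} (h : b1 ≤ b2) (he : b1 + 2 * b2 ≤ e) :
    (M.vI (M.Ty k e b1 b2)).IsPrime := by
  rw [M.vI_Ty h he]
  exact M.ker_cH_isPrime _

private theorem compG {b n : ℕ} :
    (XX k).IsComponent (cl k ((3 * b + n : ℕ) : ℝ) ((b + b : ℕ) : ℝ))
      (M.MT k (3 * b + n) b b) := by
  refine M.isComponent_MT le_rfl (vI_Ty_isPrime k le_rfl (by omega)) ?_
  intro b1' b2' hb' hs hsub
  have h := M.T0_max (k := k) (b := b) (x := n) (δ := b - b1') (by omega)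
    (by rwa [show b - (b - b1') = b1' by omega, show b + (b - b1') = b2' by omega])
  omega

private theorem compH {b n : ℕ} (hn1 : 1 ≤ n) (hn : n ≤ b) :
    (XX k).IsComponent (cl k ((3 * b + n : ℕ) : ℝ) ((b - n + (b + n) : ℕ) : ℝ))
      (M.MT k (3 * b + n) (b - n) (b + n)) := by
  refine M.isComponent_MT (by omega) (vI_Ty_isPrime k (by omega) (by omega)) ?_
  intro b1' b2' hb' hs hsub
  have h := M.Tx_max (k := k) (b := b) (x := n) (δ := b - b1') hn (by omega)
    (by rwa [show b - (b - b1') = b1' by omega, show b + (b - b1') = b2' by omega])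
  omega

private theorem comp_ne {b n : ℕ} (hn1 : 1 ≤ n) (hn : n ≤ b) :
    M.MT k (3 * b + n) b b ≠ M.MT k (3 * b + n) (b - n) (b + n) := by
  intro h
  have h1 := M.vI_PS_MT (k := k) (e := 3 * b + n) (b1 := b) (b2 := b) le_rfl
  have h2 := M.vI_PS_MT (k := k) (e := 3 * b + n) (b1 := b - n) (b2 := b + n) (by omega)
  rw [← h, show 3 * b + n + (b - n + (b + n)) = 3 * b + n + (b + b) by omega, h1] at h2
  have h3 := M.le_of_subset_zcl (k := k) (e := 3 * b + n) (b1 := b) (b2 := b) (b1' := b - n)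
    (b2' := b + n) le_rfl ⟨_, M.tyPt_mem le_rfl (by omega)⟩ (M.subset_zcl_iff.2 h2.ge)
  omega

/-- Export of block M: two components. -/
theorem expAlpha1 : ExpAlpha1 k (cl k) := by
  intro e h b b1 b2 n0 n hb h1 h2 hb1 hb2 hn0 hn
  have hn1 : 1 ≤ n := by omega
  have hnb : n < b := by omega
  have e0 : e = 3 * b + n := by omega
  have e1 : b1 = b - n := by omega
  have e2 : b2 = b + n := by omega
  have e3 : n0 = 4 * n := by omega
  have e4 : h = b + b := by omega
  subst e0 e1 e2 e3 e4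
  refine ⟨M.MT k (3 * b + n) b b, M.MT k (3 * b + n) (b - n) (b + n), comp_ne k hn1 hnb.le,
    compG k, ?_, ?_, ?_⟩
  · have := compH k hn1 hnb.le
    rwa [show b - n + (b + n) = b + b by omega] at this
  · rw [M.famG_genTh]
    refine M.isGenericOf_MT le_rfl rfl _ ?_
    rw [M.ker_famG (by omega : n + 3 * b = 3 * b + n)]
    exact M.vI_Ty le_rfl (by omega)
  · rw [M.famH_genTh]
    refine M.isGenericOf_MT (e := 3 * b + n) (b1 := b - n) (b2 := b + n) (by omega) (by omega) _ ?_
    rw [M.ker_famH (e := 3 * b + n) (by omega) (by omega) (by omega)]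
    exact M.vI_Ty (by omega) (by omega)

end MP9a7843
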