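import Pool.Agent.Lib.MP_9a7843_ag_M.Red
import Pool.Agent.Lib.MP_9a7843_ag_M.Cub
import Pool.Agent.Lib.MP_9a7843_ag_M.Deg

/-!
# Block M, Typ: every primitive polynomial point of `X` has a type
-/

namespace MP9a7843.M

open Polynomial

universe u

private theorem cleared {k : Type u} [Field k] (u v : Fin 10 → RatFunc k)
    (c : Fin 4 → RatFunc k) : ∃ (w1 w2 : Fin 10 → k[X]) (c1 : Fin 4 → RatFunc k),
      zfun u v c = zfun (fun i => algebraMap k[X] (RatFunc k) (w1 i))
        (fun i => algebraMap k[X] (RatFunc k) (w2 i)) c1 := by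
  obtain ⟨r, hr⟩ := IsLocalization.exist_integer_multiples (nonZeroDivisors k[X])
    (Finset.univ : Finset (Fin 10 ⊕ Fin 10)) (Sum.elim u v)
  have hr0 : algebraMap k[X] (RatFunc k) r ≠ 0 := by
    rw [Ne, map_eq_zero_iff _ (FaithfulSMul.algebraMap_injective k[X] (RatFunc k))]
    exact nonZeroDivisors.coe_ne_zero r
  choose w hw using fun i => hr i (Finset.mem_univ i)
  have h1 := zfun_change (algebraMap k[X] (RatFunc k) r)⁻¹ 0 0 (algebraMap k[X] (RatFunc k) r)⁻¹
    (fun i => algebraMap k[X] (RatFunc k) (w (.inl i)))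
    (fun i => algebraMap k[X] (RatFunc k) (w (.inr i))) c
  have hu : u = fun i => (algebraMap k[X] (RatFunc k) r)⁻¹ *
      algebraMap k[X] (RatFunc k) (w (.inl i)) +
      0 * algebraMap k[X] (RatFunc k) (w (.inr i)) := by
    funext i
    rw [hw (.inl i), Algebra.smul_def, zero_mul, add_zero, Sum.elim_inl,
      inv_mul_cancel_left₀ hr0]
  have hv : v = fun i => 0 * algebraMap k[X] (RatFunc k) (w (.inl i)) +
      (algebraMap k[X] (RatFunc k) r)⁻¹ * algebraMap k[X] (RatFunc k) (w (.inr i)) := by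
    funext i
    rw [hw (.inr i), Algebra.smul_def, zero_mul, zero_add, Sum.elim_inr,
      inv_mul_cancel_left₀ hr0]
  rw [← hu, ← hv] at h1
  exact ⟨_, _, _, h1⟩

/-- Row M7. Let `g` be a tuple of polynomials which generates the unit ideal and which is a point
of `X` over `k(t)`.  Then `g` is of some type.
Proof: clear the denominators of `u`, `v` (`zfun (r u) (r v) c = zfun u v (r ^ 5 c)`, a special
case of `zfun_change`), so that `u = w1`, `v = w2` are polynomial vectors.  Since `g ≠ 0` there is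
`p` with `plu w1 w2 p.1 p.2 ≠ 0`.  `exists_reduced` and `zfun_change` give a reduced basis `u, v`
and `c'` over `k(t)` with `g = zfun u v c'`.  Let `∑ A p * plu u v p.1 p.2 = 1`; then
`cub u v c' a b d = ∑ A p * g ((a, b, d), p)` is a polynomial `F a b d`.  By `exists_cub_coeffs`,
`c'` consists of polynomials `c`.  Let `e` be the maximum of the degrees of the `F a b d`; `F ≠ 0`,
so some `F a b d` has `coeff e ≠ 0`; then `g` is `Good (e + (b1 + b2))` (degrees:
`natDegree_mul_le`; leading coefficient: `coeff_mul_of_natDegree_le`; unit ideal: hypothesis), and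
`Bd e b1 b2 u v c` is `cub_degree`. -/
theorem exists_type {k : Type u} [Field k] [IsAlgClosed k] (g : Idx → k[X]) (hg : Prim g)
    (hX : ∃ (u v : Fin 10 → RatFunc k) (c : Fin 4 → RatFunc k),
      ∀ I, algebraMap k[X] (RatFunc k) (g I) = zfun u v c I) :
    ∃ e b1 b2 : ℕ, b1 ≤ b2 ∧ g ∈ Ty k e b1 b2 := by
  classical
  obtain ⟨u0, v0, c0, h0⟩ := hX
  obtain ⟨w1, w2, c1, h1⟩ := cleared u0 v0 c0
  rw [h1] at h0
  have hinj := FaithfulSMul.algebraMap_injective k[X] (RatFunc k)
  -- g is not zero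
  have hne : ∃ I, g I ≠ 0 := by
    by_contra hc
    push Not at hc
    obtain ⟨B, hB⟩ := hg
    simp only [hc, mul_zero, Finset.sum_const_zero] at hB
    exact zero_ne_one hB
  obtain ⟨I, hI⟩ := hne
  have hp : plu w1 w2 I.2.1 I.2.2 ≠ 0 := by
    intro hc
    refine hI (hinj ?_)
    rw [h0, map_zero, zfun, ← plu_map, hc, map_zero, mul_zero]
  obtain ⟨b1, b2, u, v, α, β, γ, δ, hb, hu, hv, hP, rfl, rfl⟩ := exists_reduced w1 w2 I.2 hp
  have h2 : ∃ c' : Fin 4 → RatFunc k, ∀ J, algebraMap k[X] (RatFunc k) (g J) =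
      zfun (fun i => algebraMap k[X] (RatFunc k) (u i))
        (fun i => algebraMap k[X] (RatFunc k) (v i)) c' J := by
    simp only [map_add, map_mul, zfun_change] at h0
    exact ⟨_, h0⟩
  obtain ⟨c', h2⟩ := h2
  obtain ⟨A, hA⟩ := hP.1
  let F : Fin 10 → Fin 10 → Fin 10 → k[X] := fun a b d => ∑ p, A p * g ((a, b, d), p)
  have hF : ∀ a b d, algebraMap k[X] (RatFunc k) (F a b d) =
      cub (fun i => algebraMap k[X] (RatFunc k) (u i))
        (fun i => algebraMap k[X] (RatFunc k) (v i)) c' a b d := by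
    intro a b d
    have h3 : algebraMap k[X] (RatFunc k) (F a b d) =
        cub (fun i => algebraMap k[X] (RatFunc k) (u i))
          (fun i => algebraMap k[X] (RatFunc k) (v i)) c' a b d *
        algebraMap k[X] (RatFunc k) (∑ p, A p * plu u v p.1 p.2) := by
      rw [map_sum, map_sum, Finset.mul_sum]
      refine Finset.sum_congr rfl fun p _ => ?_
      rw [map_mul, map_mul, h2, zfun, plu_map]
      ring
    rw [h3, hA, map_one, mul_one]
  obtain ⟨c, hc1, hc2⟩ := exists_cub_coeffs hP.1 F c' hF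
  have hgz : g = zfun u v c := by
    funext J
    apply hinj
    rw [h2, zfun_map]
    have h4 : c' = fun m => algebraMap k[X] (RatFunc k) (c m) := funext hc1
    rw [h4]
  -- a cubic coordinate of maximal degree
  have hS : ((Finset.univ : Finset (Fin 10 × Fin 10 × Fin 10)).filter
      (fun s => cub u v c s.1 s.2.1 s.2.2 ≠ 0)).Nonempty := by
    refine ⟨I.1, Finset.mem_filter.2 ⟨Finset.mem_univ _, fun h => hI ?_⟩⟩
    rw [hgz, zfun, h, zero_mul]
  obtain ⟨s, hs, hmax⟩ := Finset.exists_max_image _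
    (fun s : Fin 10 × Fin 10 × Fin 10 => (cub u v c s.1 s.2.1 s.2.2).natDegree) hS
  have hs0 := (Finset.mem_filter.1 hs).2
  have hdeg : ∀ a b d, (cub u v c a b d).natDegree ≤
      (cub u v c s.1 s.2.1 s.2.2).natDegree := by
    intro a b d
    by_cases h5 : cub u v c a b d = 0
    · rw [h5, natDegree_zero]
      exact Nat.zero_le _
    · exact hmax (a, b, d) (Finset.mem_filter.2 ⟨Finset.mem_univ _, h5⟩)
  obtain ⟨-, hPd, p, hpc⟩ := hP
  refine ⟨(cub u v c s.1 s.2.1 s.2.2).natDegree, b1, b2, hb, ⟨hg, fun J => ?_, (s, p), ?_⟩,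
    u, v, c, cub_degree hu hv ⟨p, hpc⟩ hdeg, hgz⟩
  · rw [hgz]
    exact natDegree_mul_le_of_le (hdeg _ _ _) (hPd J.2)
  · rw [hgz]
    change (cub u v c s.1 s.2.1 s.2.2 * plu u v p.1 p.2).coeff _ ≠ 0
    rw [Polynomial.coeff_mul_add_eq_of_natDegree_le le_rfl (hPd p)]
    exact mul_ne_zero (leadingCoeff_ne_zero.2 hs0) hpc

end MP9a7843.M
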