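import Pool.Agent.Lib.MP_9a7843_ag.MorTop
import Pool.Agent.Lib.MP_9a7843_ag_X.Tp
import Pool.Agent.Lib.MP_9a7843_ag_M.Typ

/-!
# Block M, BrdA: tuples of binary forms with values in `X` and the strata `Ty`
-/

noncomputable section

open Polynomial

open Pool.Agent.MP9a7843 Pool.Agent.MP9a7843.ProjVar

namespace MP9a7843.M

universe u

variable {k : Type u} [Field k]

/-- The polynomials of a tuple. -/
abbrev tp {d : ℕ} (a : (XX k).Tuple d) : Idx → k[X] := tupPoly a.1

/-- Row M19a. Proof: `k[X]` is a principal ideal domain and `k` is algebraically closed: if the ideal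
generated by the `g i` is not the unit ideal then its generator is zero or has a root. -/
theorem prim_iff [IsAlgClosed k] {ι : Type*} [Fintype ι] (g : ι → k[X]) :
    Prim g ↔ ∀ r : k, ∃ i, (g i).eval r ≠ 0 := by
  constructor
  · rintro ⟨A, hA⟩ r
    by_contra hc
    push Not at hc
    have h1 := congrArg (Polynomial.eval r) hA
    rw [eval_finsetSum, eval_one] at h1
    simp only [eval_mul, hc, mul_zero, Finset.sum_const_zero] at h1
    exact zero_ne_one h1
  · intro h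
    have key : Ideal.span (Set.range g) = ⊤ := by
      obtain ⟨p, hp⟩ := (IsPrincipalIdealRing.principal (Ideal.span (Set.range g))).principal
      have hp' : Ideal.span (Set.range g) = Ideal.span {p} := hp
      have hdvd : ∀ i, p ∣ g i := fun i => by
        have h1 : g i ∈ Ideal.span {p} := by
          rw [← hp']
          exact Ideal.subset_span ⟨i, rfl⟩
        exact Ideal.mem_span_singleton.1 h1
      have hroot : ∀ r : k, p.eval r ≠ 0 := by
        intro r h0
        obtain ⟨i, hi⟩ := h r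
        apply hi
        obtain ⟨q, hq⟩ := hdvd i
        rw [hq, eval_mul, h0, zero_mul]
      have hdeg : p.degree = 0 := by
        by_contra hd
        obtain ⟨r, hr⟩ := IsAlgClosed.exists_root p hd
        exact hroot r hr
      rw [hp', Ideal.span_singleton_eq_top]
      exact isUnit_iff_degree_eq_zero.2 hdeg
    have h1 : (1 : k[X]) ∈ Ideal.span (Set.range g) := by
      rw [key]
      exact Submodule.mem_top
    obtain ⟨A, hA⟩ := Ideal.mem_span_range_iff_exists_fun.1 h1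
    exact ⟨A, hA⟩

private theorem tp_natDegree_le {d : ℕ} (a : (XX k).Tuple d) (I : Idx) : (tp a I).natDegree ≤ d :=
  natDegree_tuplePoly_le (X := XX k) a.1 I

private theorem tp_coeff [IsAlgClosed k] {d : ℕ} (a : (XX k).Tuple d) :
    ∃ I : Idx, (tp a I).coeff d ≠ 0 := by
  obtain ⟨I, hI⟩ := ((isTuple_iff a.1).1 a.2).2.1
  refine ⟨I, ?_⟩
  have h1 := coeff_tuplePoly (X := XX k) a.1 I (Fin.last d)
  change (tp a I).coeff d = _ at h1
  rw [h1]
  exact hI

private theorem deg_unique {g : Idx → k[X]} {d d' : ℕ} (h1 : ∀ I, (g I).natDegree ≤ d)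
    (h2 : ∃ I, (g I).coeff d ≠ 0) (h3 : ∀ I, (g I).natDegree ≤ d')
    (h4 : ∃ I, (g I).coeff d' ≠ 0) : d = d' := by
  obtain ⟨I, hI⟩ := h2
  obtain ⟨J, hJ⟩ := h4
  exact le_antisymm ((le_natDegree_of_ne_zero hI).trans (h3 I))
    ((le_natDegree_of_ne_zero hJ).trans (h1 J))

/-- Row M19b. Every tuple is of some type.
Proof: `isTuple_iff` (`tupleGen_eq`; `tupPoly` is `tuplePoly`, by `rfl`); `isPt_XX_iff_onX` over
`RatFunc k` gives `u, v, c`; `prim_iff`; `exists_type`.  The degree: `natDegree ≤ d` and some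
coefficient of `X ^ d` is not zero, and the same with `e + (b1 + b2)`. -/
theorem exists_type_tuple [IsAlgClosed k] [CharZero k] {d : ℕ} (a : (XX k).Tuple d) :
    ∃ e b1 b2 : ℕ, b1 ≤ b2 ∧ e + (b1 + b2) = d ∧ tp a ∈ Ty k e b1 b2 := by
  obtain ⟨hp, hl, hr⟩ := (isTuple_iff a.1).1 a.2
  have hprim : Prim (tp a) := (prim_iff _).2 hr
  obtain ⟨-, u, v, c, huvc⟩ := isPt_XX_iff_onX.1 hp
  obtain ⟨e, b1, b2, hb, hT⟩ := exists_type (tp a) hprim ⟨u, v, c, fun I => by
    have h1 := congrFun huvc I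
    rw [← h1]
    exact (tupleGen_eq (X := XX k) a.1 I).symm⟩
  exact ⟨e, b1, b2, hb, deg_unique hT.1.2.1 hT.1.2.2 (tp_natDegree_le a) (tp_coeff a), hT⟩

/-- Row M19c. Conversely, every element of a stratum comes from a tuple.
Proof: `exists_tuplePoly`, `isTuple_iff`, `isPt_zfun` over `RatFunc k`, `prim_iff`. -/
theorem exists_tuple_of_mem [IsAlgClosed k] [CharZero k] {e b1 b2 d : ℕ}
    (hd : e + (b1 + b2) = d) {g : Idx → k[X]} (hg : g ∈ Ty k e b1 b2) :
    ∃ a : (XX k).Tuple d, tp a = g := by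
  subst hd
  obtain ⟨⟨hprim, hdeg, I, hI⟩, u, v, c, -, hz⟩ := hg
  obtain ⟨a, ha⟩ := exists_tuplePoly (X := XX k) (d := e + (b1 + b2)) g hdeg
  have hgen : (XX k).tupleGen (e + (b1 + b2)) a =
      zfun (fun i => algebraMap k[X] (RatFunc k) (u i))
        (fun i => algebraMap k[X] (RatFunc k) (v i))
        (fun m => algebraMap k[X] (RatFunc k) (c m)) := by
    funext J
    rw [tupleGen_eq (X := XX k) a J, ha J, hz]
    exact zfun_map (algebraMap k[X] (RatFunc k)) u v c J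
  have hpt : (XX k).IsPt ((XX k).tupleGen (e + (b1 + b2)) a) := by
    rw [hgen]
    refine isPt_zfun ⟨I, fun h0 => hI ?_⟩
    rw [← zfun_map, ← hz] at h0
    have h1 : g I = 0 := FaithfulSMul.algebraMap_injective k[X] (RatFunc k)
      (h0.trans (map_zero _).symm)
    rw [h1, coeff_zero]
  refine ⟨⟨a, (isTuple_iff (X := XX k) a).2 ⟨hpt, ⟨I, ?_⟩, fun r => ?_⟩⟩, funext ha⟩
  · have h1 := coeff_tuplePoly (X := XX k) a I (Fin.last (e + (b1 + b2)))
    rw [ha I, Fin.val_last] at h1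
    rw [← h1]
    exact hI
  · obtain ⟨J, hJ⟩ := (prim_iff g).1 hprim r
    exact ⟨J, by rwa [ha J]⟩

/-- Row M19d. The strata are stable under scalars. -/
theorem smul_mem_Ty {e b1 b2 : ℕ} {g : Idx → k[X]} (hg : g ∈ Ty k e b1 b2) {r : k} (hr : r ≠ 0) :
    (fun I => C r * g I) ∈ Ty k e b1 b2 := by
  obtain ⟨⟨⟨A, hA⟩, hdeg, I, hI⟩, u, v, c, hbd, hz⟩ := hg
  refine ⟨⟨⟨fun I => C r⁻¹ * A I, ?_⟩, fun J => (natDegree_C_mul_le r (g J)).trans (hdeg J),
    I, ?_⟩, u, v, fun m => C r * c m, ⟨hbd.hu, hbd.hv, fun m => ?_⟩, ?_⟩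
  · rw [← hA]
    refine Finset.sum_congr rfl fun J _ => ?_
    have h1 : C r⁻¹ * C r = (1 : k[X]) := by rw [← C_mul, inv_mul_cancel₀ hr, C_1]
    linear_combination (A J * g J) * h1
  · rw [coeff_C_mul]
    exact mul_ne_zero hr hI
  · rcases hbd.hc m with h0 | h1
    · left
      change C r * c m = 0
      rw [h0, mul_zero]
    · right
      change (C r * c m).natDegree + _ ≤ e
      have h2 := natDegree_C_mul_le r (c m)
      omega
  · funext J
    rw [hz]
    simp only [zfun, cub]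
    ring

/-- Row M19e. The class of a tuple of type `(b1, b2)` and degree `(e, b1 + b2)`.
Proof: `cls_mk` with `f A = cub u v c ..`, `p B = plu u v ..`; `Bd.degrees`, `Good.factors`,
`prim_iff`. -/
theorem cls_mor_of_mem_Ty [IsAlgClosed k] [CharZero k] {d e b1 b2 : ℕ} (a : (XX k).Tuple d)
    (h : tp a ∈ Ty k e b1 b2) : a.mor.cls = cl k e ((b1 + b2 : ℕ) : ℝ) := by
  obtain ⟨hg, u, v, c, hbd, hz⟩ := h
  rw [hz] at hg
  obtain ⟨hF, hP⟩ := Good.factors
    (F := fun s : Fin 10 × Fin 10 × Fin 10 => cub u v c s.1 s.2.1 s.2.2)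
    (P := fun p : Fin 10 × Fin 10 => plu u v p.1 p.2)
    (fun s => hbd.degrees.1 s.1 s.2.1 s.2.2) (fun p => hbd.degrees.2.1 p.1 p.2) hg
  exact cls_mk a (fun s : Fin 10 × Fin 10 × Fin 10 => cub u v c s.1 s.2.1 s.2.2)
    (fun p : Fin 10 × Fin 10 => plu u v p.1 p.2) hF.2.1 hF.2.2 ((prim_iff _).1 hF.1)
    hP.2.1 hP.2.2 ((prim_iff _).1 hP.1) fun I => congrFun hz I

/-- Row M19f. Proof: `exists_type_tuple`, `cls_mor_of_mem_Ty`, `cl_inj`. -/
theorem cls_mor_eq_iff [IsAlgClosed k] [CharZero k] {d : ℕ} (a : (XX k).Tuple d) (e h : ℕ) :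
    a.mor.cls = cl k (e : ℝ) (h : ℝ) ↔ tp a ∈ Mo k e h := by
  constructor
  · intro h1
    obtain ⟨e', b1, b2, hb, -, hT⟩ := exists_type_tuple a
    rw [cls_mor_of_mem_Ty a hT] at h1
    obtain ⟨h2, h3⟩ := cl_inj h1
    have h4 : e' = e := by exact_mod_cast h2
    have h5 : b1 + b2 = h := by exact_mod_cast h3
    subst h4
    exact ⟨b1, b2, hb, h5, hT⟩
  · rintro ⟨b1, b2, -, rfl, hT⟩
    exact cls_mor_of_mem_Ty a hT

/-- Row M19g. Proof: compare degrees, as in `exists_type_tuple`. -/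
theorem deg_of_mem_Mo [IsAlgClosed k] {d e h : ℕ} (a : (XX k).Tuple d)
    (ha : tp a ∈ Mo k e h) : e + h = d := by
  obtain ⟨b1, b2, -, rfl, hT⟩ := ha
  exact deg_unique hT.1.2.1 hT.1.2.2 (tp_natDegree_le a) (tp_coeff a)

end MP9a7843.M
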