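import Pool.Agent.Lib.MP_9a7843_ag_M.Chg

/-!
# Block M, DgnA: the algebra of the degeneration `(b1, b2)` to `(b1 + 1, b2 - 1)`
-/

namespace MP9a7843.M

open Polynomial

section

variable {A : Type*} [CommRing A]

/-- The symmetric tensor `x x z` (three terms). -/
def s21 (x z : Fin 10 → A) (a b d : Fin 10) : A :=
  x a * x b * z d + x a * z b * x d + z a * x b * x d

/-- The symmetric tensor `x y z` (six terms). -/
def s111 (x y z : Fin 10 → A) (a b d : Fin 10) : A :=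
  x a * y b * z d + x a * z b * y d + y a * x b * z d + y a * z b * x d + z a * x b * y d
    + z a * y b * x d

/-- The cubic form of the degeneration. -/
def dgF (g : Fin 4 → A) (h : Fin 3 → A) (i : Fin 2 → A) (c3 : A) (p w v : Fin 10 → A)
    (a b d : Fin 10) : A :=
  g 0 * (p a * p b * p d) + g 1 * s21 p w a b d + g 2 * s21 w p a b d + g 3 * (w a * w b * w d)
    + h 0 * s21 p v a b d + h 1 * s111 p w v a b d + h 2 * s21 w v a b d
    + i 0 * s21 v p a b d + i 1 * s21 v w a b d + c3 * (v a * v b * v d)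

/-- Its coefficients in the basis `p`, `w`. -/
def dgC (g : Fin 4 → A) (h : Fin 3 → A) (i : Fin 2 → A) (c3 σ t : A) : Fin 4 → A :=
  ![g 0 - 3 * σ * h 0 + 3 * σ ^ 2 * i 0 - σ ^ 3 * c3,
    g 1 + σ * t * h 0 - 2 * σ * h 1 - 2 * σ ^ 2 * t * i 0 + σ ^ 2 * i 1 + σ ^ 3 * t * c3,
    g 2 + 2 * σ * t * h 1 - σ * h 2 + σ ^ 2 * t ^ 2 * i 0 - 2 * σ ^ 2 * t * i 1
      - σ ^ 3 * t ^ 2 * c3,
    g 3 + 3 * σ * t * h 2 + 3 * σ ^ 2 * t ^ 2 * i 1 + σ ^ 3 * t ^ 3 * c3]

theorem dgF_eq_cub (g : Fin 4 → A) (h : Fin 3 → A) (i : Fin 2 → A) (c3 σ t : A)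
    (p w : Fin 10 → A) (a b d : Fin 10) :
    dgF g h i c3 p w (fun j => σ * (t * w j - p j)) a b d =
      cub p w (dgC g h i c3 σ t) a b d := by
  simp only [dgF, cub, dgC, s21, s111, Matrix.cons_val_zero, Matrix.cons_val_one, Matrix.cons_val]
  ring

theorem dgF_zero (g : Fin 4 → A) (h : Fin 3 → A) (i : Fin 2 → A) (c3 t : A)
    (u v : Fin 10 → A) (a b d : Fin 10) :
    dgF g h i c3 (fun j => t * u j) u v a b d =
      cub u v ![g 0 * t ^ 3 + 3 * g 1 * t ^ 2 + 3 * g 2 * t + g 3, h 0 * t ^ 2 + 2 * h 1 * t + h 2,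
        i 0 * t + i 1, c3] a b d := by
  simp only [dgF, cub, s21, s111, Matrix.cons_val_zero, Matrix.cons_val_one, Matrix.cons_val]
  ring

theorem plu_dgn (s t : A) (u v0 y : Fin 10 → A) (i j : Fin 10) :
    plu (fun l => t * u l - s * v0 l) (fun l => u l + s * y l) i j =
      s * (plu u (fun l => v0 l + t * y l) i j - s * plu v0 y i j) := by
  simp only [plu]
  ring

/-- `v` is a combination of `p = t u - s v0` and `w = u + s y`. -/
theorem v_dgn (s t σ : A) (hσ : σ * s = 1) (u v0 y : Fin 10 → A) (l : Fin 10) :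
    v0 l + t * y l = σ * (t * (u l + s * y l) - (t * u l - s * v0 l)) := by
  linear_combination (-(t * y l) - v0 l) * hσ

theorem dgF_map {B : Type*} [CommRing B] (f : A →+* B) (g : Fin 4 → A) (h : Fin 3 → A)
    (i : Fin 2 → A) (c3 : A) (p w v : Fin 10 → A) (a b d : Fin 10) :
    f (dgF g h i c3 p w v a b d) = dgF (fun m => f (g m)) (fun m => f (h m)) (fun m => f (i m))
      (f c3) (fun l => f (p l)) (fun l => f (w l)) (fun l => f (v l)) a b d := by
  simp only [dgF, s21, s111, map_add, map_mul]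

end

private theorem dg3 {R : Type*} [CommRing R] {x y z : R[X]} {i j l n : ℕ}
    (h1 : x.natDegree ≤ i) (h2 : y.natDegree ≤ j) (h3 : z.natDegree ≤ l) (h4 : i + j + l ≤ n) :
    (x * y * z).natDegree ≤ n :=
  (Polynomial.natDegree_mul_le_of_le (Polynomial.natDegree_mul_le_of_le h1 h2) h3).trans h4

private theorem dgadd {R : Type*} [CommRing R] {n : ℕ} {x y : R[X]} (hx : x.natDegree ≤ n)
    (hy : y.natDegree ≤ n) : (x + y).natDegree ≤ n :=
  Polynomial.natDegree_add_le_of_degree_le hx hy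

private theorem dgmul {R : Type*} [CommRing R] {n m e : ℕ} {x y : R[X]} (hx : x.natDegree ≤ m)
    (hy : y.natDegree ≤ n) (h : m + n ≤ e) : (x * y).natDegree ≤ e :=
  (Polynomial.natDegree_mul_le_of_le hx hy).trans h

private theorem dgmul0 {R : Type*} [CommRing R] {n e q : ℕ} {x y : R[X]}
    (hx : x = 0 ∨ x.natDegree + q ≤ e) (hy : y.natDegree ≤ n) (h : n ≤ q) :
    (x * y).natDegree ≤ e := by
  rcases hx with hx | hx
  · rw [hx, zero_mul, Polynomial.natDegree_zero]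
    exact Nat.zero_le _
  · exact dgmul le_rfl hy (by omega)

private theorem dgs21 {R : Type*} [CommRing R] {x z : Fin 10 → R[X]} {i j n : ℕ}
    (hx : ∀ l, (x l).natDegree ≤ i) (hz : ∀ l, (z l).natDegree ≤ j) (h : 2 * i + j ≤ n)
    (a b d : Fin 10) : (s21 x z a b d).natDegree ≤ n := by
  unfold s21
  exact dgadd (dgadd (dg3 (hx _) (hx _) (hz _) (by omega)) (dg3 (hx _) (hz _) (hx _) (by omega)))
    (dg3 (hz _) (hx _) (hx _) (by omega))

private theorem dgs111 {R : Type*} [CommRing R] {x y z : Fin 10 → R[X]} {i j l n : ℕ}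
    (hx : ∀ l, (x l).natDegree ≤ i) (hy : ∀ l, (y l).natDegree ≤ j)
    (hz : ∀ m, (z m).natDegree ≤ l) (h : i + j + l ≤ n)
    (a b d : Fin 10) : (s111 x y z a b d).natDegree ≤ n := by
  unfold s111
  exact dgadd (dgadd (dgadd (dgadd (dgadd (dg3 (hx _) (hy _) (hz _) (by omega))
    (dg3 (hx _) (hz _) (hy _) (by omega))) (dg3 (hy _) (hx _) (hz _) (by omega)))
    (dg3 (hy _) (hz _) (hx _) (by omega))) (dg3 (hz _) (hx _) (hy _) (by omega)))
    (dg3 (hz _) (hy _) (hx _) (by omega))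

/-- Row M10a. Degree of the cubic form of the degeneration (terms: `b1 + 1 + b1 + 1 + b1 + 1`, ...,
see the hypotheses; a term with a zero coefficient is zero). -/
theorem dgF_degree {R : Type*} [CommRing R] {e b1 b2 : ℕ} (hb : b1 + 2 ≤ b2)
    (he : 3 * (b1 + b2) ≤ e)
    {g : Fin 4 → R[X]} {h : Fin 3 → R[X]} {i : Fin 2 → R[X]} {c3 : R[X]} {p w v : Fin 10 → R[X]}
    (hp : ∀ l, (p l).natDegree ≤ b1 + 1) (hw : ∀ l, (w l).natDegree ≤ b2 - 1)
    (hv : ∀ l, (v l).natDegree ≤ b2)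
    (hg0 : g 0 = 0 ∨ (g 0).natDegree + 3 * b1 + 3 ≤ e) (hg1 : (g 1).natDegree = 0)
    (hg2 : (g 2).natDegree = 0) (hg3 : (g 3).natDegree = 0)
    (hh0 : h 0 = 0 ∨ (h 0).natDegree + 2 * b1 + b2 + 2 ≤ e) (hh1 : (h 1).natDegree = 0)
    (hh2 : (h 2).natDegree = 0) (hi0 : i 0 = 0 ∨ (i 0).natDegree + b1 + 2 * b2 + 1 ≤ e)
    (hi1 : (i 1).natDegree = 0) (hc3 : c3 = 0 ∨ c3.natDegree + 3 * b2 ≤ e) (a b d : Fin 10) :
    (dgF g h i c3 p w v a b d).natDegree ≤ e := by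
  unfold dgF
  refine dgadd (dgadd (dgadd (dgadd (dgadd (dgadd (dgadd (dgadd (dgadd ?_ ?_) ?_) ?_) ?_) ?_)
    ?_) ?_) ?_) ?_
  · exact dgmul0 (q := 3 * b1 + 3) (by simpa [add_assoc] using hg0)
      (dg3 (hp _) (hp _) (hp _) le_rfl) (by omega)
  · exact dgmul hg1.le (dgs21 hp hw le_rfl a b d) (by omega)
  · exact dgmul hg2.le (dgs21 hw hp le_rfl a b d) (by omega)
  · exact dgmul hg3.le (dg3 (hw _) (hw _) (hw _) le_rfl) (by omega)
  · exact dgmul0 (q := 2 * b1 + b2 + 2) (by simpa [add_assoc] using hh0)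
      (dgs21 hp hv le_rfl a b d) (by omega)
  · exact dgmul hh1.le (dgs111 hp hw hv le_rfl a b d) (by omega)
  · exact dgmul hh2.le (dgs21 hw hv le_rfl a b d) (by omega)
  · exact dgmul0 (q := b1 + 2 * b2 + 1) (by simpa [add_assoc] using hi0)
      (dgs21 hv hp le_rfl a b d) (by omega)
  · exact dgmul hi1.le (dgs21 hv hw le_rfl a b d) (by omega)
  · exact dgmul0 (q := 3 * b2) hc3 (dg3 (hv _) (hv _) (hv _) le_rfl) (by omega)

private theorem divX_deg {k : Type*} [Field k] {p : k[X]} (h : p.divX ≠ 0) :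
    p.natDegree = p.divX.natDegree + 1 := by
  have h1 := Polynomial.natDegree_divX_eq_natDegree_tsub_one (p := p)
  have h2 : p.natDegree ≠ 0 := by
    intro h0
    apply h
    rw [Polynomial.divX_eq_zero_iff]
    exact Polynomial.eq_C_of_natDegree_eq_zero h0
  omega

/-- Row M10b. The decompositions `c0 = g0 X ^ 3 + 3 g1 X ^ 2 + 3 g2 X + g3`,
`c1 = h0 X ^ 2 + 2 h1 X + h2`, `c2 = i0 X + i1` with constants `g1, g2, g3, h1, h2, i1`
(`Polynomial.divX`, characteristic `0`). -/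
theorem exists_dgn_coeffs {k : Type*} [Field k] [CharZero k] {e b1 b2 : ℕ}
    {c : Fin 4 → k[X]}
    (hc : ∀ m : Fin 4, c m = 0 ∨ (c m).natDegree + ((3 - (m : ℕ)) * b1 + (m : ℕ) * b2) ≤ e) :
    ∃ (g : Fin 4 → k[X]) (h : Fin 3 → k[X]) (i : Fin 2 → k[X]),
      c 0 = g 0 * X ^ 3 + 3 * g 1 * X ^ 2 + 3 * g 2 * X + g 3 ∧
      c 1 = h 0 * X ^ 2 + 2 * h 1 * X + h 2 ∧ c 2 = i 0 * X + i 1 ∧
      (g 0 = 0 ∨ (g 0).natDegree + 3 * b1 + 3 ≤ e) ∧ (g 1).natDegree = 0 ∧
      (g 2).natDegree = 0 ∧ (g 3).natDegree = 0 ∧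
      (h 0 = 0 ∨ (h 0).natDegree + 2 * b1 + b2 + 2 ≤ e) ∧ (h 1).natDegree = 0 ∧
      (h 2).natDegree = 0 ∧ (i 0 = 0 ∨ (i 0).natDegree + b1 + 2 * b2 + 1 ≤ e) ∧
      (i 1).natDegree = 0 ∧ (c 3 = 0 ∨ (c 3).natDegree + 3 * b2 ≤ e) := by
  have h0 := hc 0
  have h1 := hc 1
  have h2 := hc 2
  have h3 := hc 3
  have v0 : ((0 : Fin 4) : ℕ) = 0 := rfl
  have v1 : ((1 : Fin 4) : ℕ) = 1 := rfl
  have v2 : ((2 : Fin 4) : ℕ) = 2 := rfl
  have v3 : ((3 : Fin 4) : ℕ) = 3 := rfl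
  rw [v0] at h0
  rw [v1] at h1
  rw [v2] at h2
  rw [v3] at h3
  have key : ∀ p : k[X], p = p.divX * X + C (p.coeff 0) := fun p => (divX_mul_X_add p).symm
  have hne : ∀ p : k[X], p.divX ≠ 0 → p ≠ 0 := by
    rintro p hp rfl
    exact hp divX_zero
  have h3' : (3 : k) ≠ 0 := by norm_num
  have h2' : (2 : k) ≠ 0 := by norm_num
  refine ⟨![(c 0).divX.divX.divX, C ((c 0).divX.divX.coeff 0 / 3), C ((c 0).divX.coeff 0 / 3),
    C ((c 0).coeff 0)], ![(c 1).divX.divX, C ((c 1).divX.coeff 0 / 2), C ((c 1).coeff 0)],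
    ![(c 2).divX, C ((c 2).coeff 0)], ?_, ?_, ?_, ?_, natDegree_C _, natDegree_C _,
    natDegree_C _, ?_, natDegree_C _, natDegree_C _, ?_, natDegree_C _, ?_⟩
  · show c 0 = (c 0).divX.divX.divX * X ^ 3 + 3 * C ((c 0).divX.divX.coeff 0 / 3) * X ^ 2 +
      3 * C ((c 0).divX.coeff 0 / 3) * X + C ((c 0).coeff 0)
    have e1 : (3 : k[X]) * C ((c 0).divX.divX.coeff 0 / 3) = C ((c 0).divX.divX.coeff 0) := by
      rw [← C_ofNat, ← C_mul, mul_div_cancel₀ _ h3']
    have e2 : (3 : k[X]) * C ((c 0).divX.coeff 0 / 3) = C ((c 0).divX.coeff 0) := by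
      rw [← C_ofNat, ← C_mul, mul_div_cancel₀ _ h3']
    rw [e1, e2]
    have k0 := key (c 0)
    have k1 := key (c 0).divX
    have k2 := key (c 0).divX.divX
    calc c 0 = (c 0).divX * X + C ((c 0).coeff 0) := k0
      _ = ((c 0).divX.divX * X + C ((c 0).divX.coeff 0)) * X + C ((c 0).coeff 0) := by rw [← k1]
      _ = (((c 0).divX.divX.divX * X + C ((c 0).divX.divX.coeff 0)) * X +
          C ((c 0).divX.coeff 0)) * X + C ((c 0).coeff 0) := by rw [← k2]
      _ = _ := by ring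
  · show c 1 = (c 1).divX.divX * X ^ 2 + 2 * C ((c 1).divX.coeff 0 / 2) * X + C ((c 1).coeff 0)
    have e1 : (2 : k[X]) * C ((c 1).divX.coeff 0 / 2) = C ((c 1).divX.coeff 0) := by
      rw [← C_ofNat, ← C_mul, mul_div_cancel₀ _ h2']
    rw [e1]
    have k0 := key (c 1)
    have k1 := key (c 1).divX
    calc c 1 = (c 1).divX * X + C ((c 1).coeff 0) := k0
      _ = ((c 1).divX.divX * X + C ((c 1).divX.coeff 0)) * X + C ((c 1).coeff 0) := by rw [← k1]
      _ = _ := by ring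
  · exact key (c 2)
  · show (c 0).divX.divX.divX = 0 ∨ (c 0).divX.divX.divX.natDegree + 3 * b1 + 3 ≤ e
    by_cases hz : (c 0).divX.divX.divX = 0
    · exact Or.inl hz
    · right
      have d1 := divX_deg hz
      have d2 := divX_deg (hne _ hz)
      have d3 := divX_deg (hne _ (hne _ hz))
      have hz0 := hne _ (hne _ (hne _ hz))
      have := h0.resolve_left hz0
      omega
  · show (c 1).divX.divX = 0 ∨ (c 1).divX.divX.natDegree + 2 * b1 + b2 + 2 ≤ e
    by_cases hz : (c 1).divX.divX = 0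
    · exact Or.inl hz
    · right
      have d1 := divX_deg hz
      have d2 := divX_deg (hne _ hz)
      have hz0 := hne _ (hne _ hz)
      have := h1.resolve_left hz0
      omega
  · show (c 2).divX = 0 ∨ (c 2).divX.natDegree + b1 + 2 * b2 + 1 ≤ e
    by_cases hz : (c 2).divX = 0
    · exact Or.inl hz
    · right
      have d1 := divX_deg hz
      have hz0 := hne _ hz
      have := h2.resolve_left hz0
      omega
  · rcases h3 with h3 | h3
    · exact Or.inl h3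
    · right
      omega

end MP9a7843.M
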