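import Pool.Agent.Lib.MP_9a7843_ag_M.Ksp
import Pool.Agent.Lib.MP_9a7843_ag_M.Cub

/-!
# Block M, Dsc: descent of the coefficients of `u`, `v`, `c`
-/

namespace MP9a7843.M

open Polynomial

/-- The polynomials with coefficients in `F`. -/
private def SF {K : Type*} [Field K] (F : Subfield K) : Subring K[X] where
  carrier := {q | ∀ n, q.coeff n ∈ F}
  mul_mem' := by
    intro a b ha hb n
    rw [coeff_mul]
    exact sum_mem fun p _ => mul_mem (ha p.1) (hb p.2)
  one_mem' := by
    intro n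
    rw [coeff_one]
    split_ifs
    · exact one_mem F
    · exact zero_mem F
  add_mem' := by
    intro a b ha hb n
    rw [coeff_add]
    exact add_mem (ha n) (hb n)
  zero_mem' := by
    intro n
    rw [coeff_zero]
    exact zero_mem F
  neg_mem' := by
    intro a ha n
    rw [coeff_neg]
    exact neg_mem (ha n)

private theorem mem_SF {K : Type*} [Field K] {F : Subfield K} {q : K[X]} :
    q ∈ SF F ↔ ∀ n, q.coeff n ∈ F := Iff.rfl

/-- Apply an additive map to the coefficients. -/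
private noncomputable def pp {K : Type*} [Field K] (π : K →+ K) (p : K[X]) : K[X] :=
  ∑ n ∈ Finset.range (p.natDegree + 1), monomial n (π (p.coeff n))

private theorem coeff_pp {K : Type*} [Field K] (π : K →+ K) (p : K[X]) (n : ℕ) :
    (pp π p).coeff n = π (p.coeff n) := by
  unfold pp
  rw [finsetSum_coeff]
  simp only [coeff_monomial]
  by_cases hn : n ≤ p.natDegree
  · rw [Finset.sum_eq_single n]
    · rw [if_pos rfl]
    · intro b _ hb
      rw [if_neg hb]
    · intro h
      exact absurd (Finset.mem_range.2 (Nat.lt_succ_iff.2 hn)) h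
  · rw [Finset.sum_eq_zero, coeff_eq_zero_of_natDegree_lt (not_le.1 hn), map_zero]
    intro b hb
    rw [if_neg]
    rintro rfl
    exact hn (Nat.lt_succ_iff.1 (Finset.mem_range.1 hb))

private theorem exists_proj {K : Type*} [Field K] (F : Subfield K) :
    ∃ π : K →+ K, (∀ x, π x ∈ F) ∧ (∀ x ∈ F, π x = x) ∧ ∀ x, ∀ y ∈ F, π (x * y) = π x * y := by
  have hinj : LinearMap.ker (Algebra.linearMap F K) = ⊥ := by
    rw [LinearMap.ker_eq_bot]
    exact (algebraMap F K).injective
  obtain ⟨π, hπ⟩ := LinearMap.exists_leftInverse_of_injective _ hinj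
  refine ⟨((algebraMap F K : F →+* K) : F →+ K).comp π.toAddMonoidHom, fun x => (π x).2,
    fun x hx => ?_, fun x y hy => ?_⟩
  · have h1 := LinearMap.congr_fun hπ ⟨x, hx⟩
    exact congrArg Subtype.val h1
  · have h1 := π.map_smul (⟨y, hy⟩ : F) x
    have h2 : (⟨y, hy⟩ : F) • x = x * y := by
      rw [Algebra.smul_def, mul_comm]
      rfl
    rw [h2] at h1
    have h3 := congrArg Subtype.val h1
    change ((π (x * y) : F) : K) = ((π x : F) : K) * y
    rw [h3, smul_eq_mul, mul_comm]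
    rfl

private theorem contract_mem {R : Type*} [CommRing R] (S : Subring R) {u v : Fin 10 → R}
    {c : Fin 4 → R} (hu : ∀ i, u i ∈ S) (hv : ∀ i, v i ∈ S)
    (hF : ∀ a b d, cub u v c a b d ∈ S) (p q : Fin 10) :
    ∀ m, c m * plu u v p q ^ 3 ∈ S := by
  have h := cub_contract u v c p q
  revert h hF
  generalize cub u v c = F
  intro hF h
  obtain ⟨h0, h1, h2, h3⟩ := h
  have up := hu p
  have uq := hu q
  have vp := hv p
  have vq := hv q
  intro m
  match m with
  | 0 =>
    rw [h0]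
    exact sub_mem (add_mem (sub_mem (mul_mem (pow_mem vq 3) (hF _ _ _))
      (mul_mem (mul_mem (pow_mem vq 2) vp) (add_mem (add_mem (hF _ _ _) (hF _ _ _)) (hF _ _ _))))
      (mul_mem (mul_mem vq (pow_mem vp 2)) (add_mem (add_mem (hF _ _ _) (hF _ _ _)) (hF _ _ _))))
      (mul_mem (pow_mem vp 3) (hF _ _ _))
  | 1 =>
    rw [h1]
    exact add_mem (sub_mem (sub_mem (add_mem (add_mem
      (neg_mem (mul_mem (mul_mem uq (pow_mem vq 2)) (hF _ _ _)))
      (mul_mem (mul_mem (pow_mem vq 2) up) (hF _ _ _)))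
      (mul_mem (mul_mem (mul_mem vq vp) uq) (add_mem (hF _ _ _) (hF _ _ _))))
      (mul_mem (mul_mem (mul_mem vq vp) up) (add_mem (hF _ _ _) (hF _ _ _))))
      (mul_mem (mul_mem (pow_mem vp 2) uq) (hF _ _ _)))
      (mul_mem (mul_mem (pow_mem vp 2) up) (hF _ _ _))
  | 2 =>
    rw [h2]
    exact sub_mem (add_mem (sub_mem (add_mem (sub_mem
      (mul_mem (mul_mem vq (pow_mem uq 2)) (hF _ _ _))
      (mul_mem (mul_mem (mul_mem vq uq) up) (add_mem (hF _ _ _) (hF _ _ _))))
      (mul_mem (mul_mem vq (pow_mem up 2)) (hF _ _ _)))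
      (mul_mem (mul_mem vp (pow_mem uq 2)) (hF _ _ _)))
      (mul_mem (mul_mem (mul_mem vp uq) up) (add_mem (hF _ _ _) (hF _ _ _))))
      (mul_mem (mul_mem vp (pow_mem up 2)) (hF _ _ _))
  | 3 =>
    rw [h3]
    exact add_mem (sub_mem (add_mem (neg_mem (mul_mem (pow_mem uq 3) (hF _ _ _)))
      (mul_mem (mul_mem (pow_mem uq 2) up)
        (add_mem (add_mem (hF _ _ _) (hF _ _ _)) (hF _ _ _))))
      (mul_mem (mul_mem uq (pow_mem up 2))
        (add_mem (add_mem (hF _ _ _) (hF _ _ _)) (hF _ _ _))))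
      (mul_mem (pow_mem up 3) (hF _ _ _))

/-- Row M13. If the coefficients of `g = zfun u v c` and of the normalising coordinates are in a
subfield `F`, then all coefficients of `u`, `v`, `c` are in `F`.
Proof: let `π : K → F ⊆ K` be `F`-linear with `π x = x` for `x ∈ F` (a complement of `F` in the
`F`-vector space `K`), and apply it to polynomials coefficientwise (`π p`).  For `q` with
coefficients in `F`, `π (p * q) = π p * q`.
(1) `Kills g u` (`kills_self`) gives `Kills g (π u)` and `natDegree (π u i) ≤ b1`, so by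
`kills_iff` (`n = b1 < b2`) `π u = α u` with a constant `α`; the coefficient `(u 0).coeff b1 ≠ 0`
is in `F`, so `α = 1`: `π u = u`, and the coefficients of `u` are in `F`.
(2) `π v = α u + β v` with `natDegree α + b1 ≤ b2` (or `α = 0`), `β` constant.  The coefficients
of `(π v - v) 0` in degrees `n ≥ b1` and the coefficient of `X ^ b2` of `(π v - v) 1` are `0`; with
`a = α.coeff (b2 - b1)`: `a * (u 0).coeff b1 + (β - 1) * (v 0).coeff b2 = 0` and
`a * (u 1).coeff b1 + (β - 1) * (v 1).coeff b2 = 0`, so `a = 0`, `β = 1` by `hdet`.  Then `α * u 0`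
has no coefficients in degrees `≥ b1`, and if `α ≠ 0` the coefficient of
`X ^ (natDegree α + b1)` is `leadingCoeff α * (u 0).coeff b1 ≠ 0`.  So `α = 0`, `π v = v`.
(3) `P_p = plu u v p.1 p.2` has coefficients in `F`, and for `P_p ≠ 0` and
`F a b d = cub u v c a b d`: `π (F a b d) * P_p = π (F a b d * P_p) = F a b d * P_p`, so
`F a b d` has coefficients in `F`; by `cub_contract` `c m * P_p ^ 3` has coefficients in `F`, and
`π (c m) * P_p ^ 3 = c m * P_p ^ 3`. -/
theorem descent {K : Type*} [Field K] (F : Subfield K) {e b1 b2 : ℕ} (hb : b1 < b2)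
    {u v : Fin 10 → K[X]} {c : Fin 4 → K[X]} (hbd : Bd e b1 b2 u v c)
    (hg : Good (e + (b1 + b2)) (zfun u v c)) (hF : ∀ I n, (zfun u v c I).coeff n ∈ F)
    (h1 : (u 0).coeff b1 ∈ F) (h2 : ∀ n, b1 ≤ n → (v 0).coeff n ∈ F)
    (h3 : (v 1).coeff b2 ∈ F) (hne : (u 0).coeff b1 ≠ 0)
    (hdet : (u 0).coeff b1 * (v 1).coeff b2 - (u 1).coeff b1 * (v 0).coeff b2 ≠ 0) :
    (∀ i n, (u i).coeff n ∈ F) ∧ (∀ i n, (v i).coeff n ∈ F) ∧ ∀ m n, (c m).coeff n ∈ F := by
  obtain ⟨π, hπF, hπid, hπmul⟩ := exists_proj F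
  have hppF : ∀ p : K[X], pp π p ∈ SF F := fun p n => by
    rw [coeff_pp]
    exact hπF _
  have hppmul : ∀ p q : K[X], q ∈ SF F → pp π (p * q) = pp π p * q := by
    intro p q hq
    ext n
    rw [coeff_pp, coeff_mul, coeff_mul, map_sum]
    refine Finset.sum_congr rfl fun x _ => ?_
    rw [coeff_pp, hπmul _ _ (hq x.2)]
  have hppadd : ∀ p q : K[X], pp π (p + q) = pp π p + pp π q := by
    intro p q
    ext n
    rw [coeff_pp, coeff_add, coeff_add, coeff_pp, coeff_pp, map_add]
  have hppsub : ∀ p q : K[X], pp π (p - q) = pp π p - pp π q := by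
    intro p q
    ext n
    rw [coeff_pp, coeff_sub, coeff_sub, coeff_pp, coeff_pp, map_sub]
  have hpp0 : pp π (0 : K[X]) = 0 := by
    ext n
    rw [coeff_pp, coeff_zero, map_zero]
  have hppdeg : ∀ (p : K[X]) (N : ℕ), p.natDegree ≤ N → (pp π p).natDegree ≤ N := by
    intro p N hp
    rw [natDegree_le_iff_coeff_eq_zero] at hp ⊢
    intro n hn
    rw [coeff_pp, hp n hn, map_zero]
  have hppkill : ∀ w : Fin 10 → K[X], Kills (zfun u v c) w →
      Kills (zfun u v c) (fun i => pp π (w i)) := by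
    intro w hw s a b d
    have h := hw s a b d
    have h' := congrArg (pp π) h
    rw [hpp0, hppadd, hppsub, hppmul _ _ (hF _), hppmul _ _ (hF _), hppmul _ _ (hF _)] at h'
    exact h'
  have hku : Kills (zfun u v c) u := (kills_self hbd hg).2
  have hkv : Kills (zfun u v c) v := by
    intro s a b d
    change v a * (cub u v c s.1 s.2.1 s.2.2 * (u b * v d - u d * v b)) -
        v b * (cub u v c s.1 s.2.1 s.2.2 * (u a * v d - u d * v a)) +
        v d * (cub u v c s.1 s.2.1 s.2.2 * (u a * v b - u b * v a)) = 0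
    ring
  -- (1)
  obtain ⟨α, β, hαβ, hα, hβ⟩ := kills_iff hbd hg (hppkill u hku)
    (fun i => hppdeg (u i) b1 (hbd.hu i))
  have hβ0 : β = 0 := by
    rcases hβ with h | h
    · exact h
    · omega
  have hαC : α = C (α.coeff 0) := by
    rcases hα with h | h
    · rw [h, coeff_zero, C_0]
    · exact eq_C_of_natDegree_eq_zero (by omega)
  have hα1 : α.coeff 0 = 1 := by
    have h4 := congrArg (fun p : K[X] => p.coeff b1) (hαβ 0)
    rw [coeff_pp, hπid _ h1, hβ0, zero_mul, add_zero, hαC, coeff_C_mul] at h4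
    exact mul_right_cancel₀ hne (by rw [one_mul]; exact h4.symm)
  have hu' : ∀ i, u i ∈ SF F := by
    intro i
    have h4 := hαβ i
    rw [hαC, hα1, C_1, one_mul, hβ0, zero_mul, add_zero] at h4
    rw [← h4]
    exact hppF _
  -- (2)
  obtain ⟨γ, δ, hγδ, hγ, hδ⟩ := kills_iff hbd hg (hppkill v hkv)
    (fun i => hppdeg (v i) b2 (hbd.hv i))
  have hδC : δ = C (δ.coeff 0) := by
    rcases hδ with h | h
    · rw [h, coeff_zero, C_0]
    · exact eq_C_of_natDegree_eq_zero (by omega)
  have hγd : γ.natDegree ≤ b2 - b1 := by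
    rcases hγ with h | h
    · rw [h, natDegree_zero]
      exact Nat.zero_le _
    · omega
  have hco : ∀ i, (γ * u i).coeff b2 = γ.coeff (b2 - b1) * (u i).coeff b1 := by
    intro i
    have h4 := coeff_mul_add_eq_of_natDegree_le hγd (hbd.hu i)
    rwa [Nat.sub_add_cancel hb.le] at h4
  have e0 : (v 0).coeff b2 = γ.coeff (b2 - b1) * (u 0).coeff b1 + δ.coeff 0 * (v 0).coeff b2 := by
    have h4 := congrArg (fun p : K[X] => p.coeff b2) (hγδ 0)
    rw [coeff_pp, hπid _ (h2 b2 hb.le), coeff_add, hco, hδC, coeff_C_mul] at h4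
    simpa using h4
  have e1 : (v 1).coeff b2 = γ.coeff (b2 - b1) * (u 1).coeff b1 + δ.coeff 0 * (v 1).coeff b2 := by
    have h4 := congrArg (fun p : K[X] => p.coeff b2) (hγδ 1)
    rw [coeff_pp, hπid _ h3, coeff_add, hco, hδC, coeff_C_mul] at h4
    simpa using h4
  have hδ1 : δ.coeff 0 = 1 := by
    have h4 : (δ.coeff 0 - 1) *
        ((u 0).coeff b1 * (v 1).coeff b2 - (u 1).coeff b1 * (v 0).coeff b2) = 0 := by
      linear_combination (u 1).coeff b1 * e0 - (u 0).coeff b1 * e1
    exact sub_eq_zero.1 ((mul_eq_zero.1 h4).resolve_right hdet)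
  have hγ0 : γ = 0 := by
    by_contra hγn
    have h4 := congrArg (fun p : K[X] => p.coeff (γ.natDegree + b1)) (hγδ 0)
    rw [coeff_pp, hπid _ (h2 _ (Nat.le_add_left _ _)), coeff_add,
      coeff_mul_add_eq_of_natDegree_le le_rfl (hbd.hu 0), hδC, coeff_C_mul, hδ1, one_mul] at h4
    have h5 : γ.coeff γ.natDegree * (u 0).coeff b1 = 0 := by
      linear_combination -h4
    rcases mul_eq_zero.1 h5 with h6 | h6
    · exact hγn (leadingCoeff_eq_zero.1 h6)
    · exact hne h6
  have hv' : ∀ i, v i ∈ SF F := by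
    intro i
    have h4 := hγδ i
    rw [hδC, hδ1, C_1, one_mul, hγ0, zero_mul, zero_add] at h4
    rw [← h4]
    exact hppF _
  -- (3)
  have hP' : ∀ p q, plu u v p q ∈ SF F := fun p q =>
    sub_mem (mul_mem (hu' p) (hv' q)) (mul_mem (hu' q) (hv' p))
  obtain ⟨-, -, -, pq, hpq⟩ := Good.factors
    (F := fun s : Fin 10 × Fin 10 × Fin 10 => cub u v c s.1 s.2.1 s.2.2)
    (P := fun p : Fin 10 × Fin 10 => plu u v p.1 p.2)
    (fun s => hbd.degrees.1 s.1 s.2.1 s.2.2) (fun p => hbd.degrees.2.1 p.1 p.2) hg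
  obtain ⟨p, q⟩ := pq
  have hpq0 : plu u v p q ≠ 0 := by
    intro h
    apply hpq
    change (plu u v p q).coeff (b1 + b2) = 0
    rw [h, coeff_zero]
  have hdiv : ∀ x y : K[X], y ≠ 0 → y ∈ SF F → x * y ∈ SF F → x ∈ SF F := by
    intro x y hy0 hy hxy
    have h4 : pp π (x * y) = x * y := by
      ext n
      rw [coeff_pp, hπid _ (hxy n)]
    rw [hppmul _ _ hy] at h4
    have h5 := mul_right_cancel₀ hy0 h4
    rw [← h5]
    exact hppF _
  have hcub : ∀ a b d, cub u v c a b d ∈ SF F := fun a b d =>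
    hdiv _ _ hpq0 (hP' p q) (hF ((a, b, d), (p, q)))
  have hc := contract_mem (SF F) hu' hv' hcub p q
  exact ⟨hu', hv', fun m => hdiv _ _ (pow_ne_zero 3 hpq0) (pow_mem (hP' p q) 3) (hc m)⟩

end MP9a7843.M
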