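import Pool.Agent.Lib.MP_9a7843_ag_M.TrdB
import Pool.Agent.Lib.MP_9a7843_ag_M.Dsc
import Pool.Agent.Lib.MP_9a7843_ag_M.TyI

/-!
# Block M, Gen: lower bound for the transcendence degree of a stratum
-/

namespace MP9a7843.M

open Polynomial

universe u

/-- Row M14. The coefficients of the generic member of the stratum of type `(b1, b2)`, `b1 < b2`,
have transcendence degree at least `card Par - (b2 - b1 + 3)`.
Proof: `exists_indep` for `φ = cH (fam X)` and
`T = {u_0,b1} ∪ {v_0,n : n ≥ b1} ∪ {v_1,b2}` (cardinality `b2 - b1 + 3`).  Its hypothesis is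
`descent` over `K = FractionRing _` for the field `F` generated by the coefficients of
`g = zfun u v c` (the generic member, which is good by `good_generic`; `fam_map`) and by `T`.
The determinant is a non-zero polynomial in the parameters. -/
theorem exists_indep_Ty {k : Type u} [Field k] {e b1 b2 : ℕ} (hb : b1 < b2)
    (he : b1 + 2 * b2 ≤ e) :
    ∃ B : Finset (Idx × ℕ), AlgebraicIndependent k (fun s : B =>
        cH (fam (MvPolynomial.X (R := k) (σ := Par b1 b2 (qf e b1 b2))))
          (MvPolynomial.X (s : Idx × ℕ))) ∧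
      Fintype.card (Par b1 b2 (qf e b1 b2)) ≤ B.card + (b2 - b1 + 3) := by
  classical
  let A := MvPolynomial (Par b1 b2 (qf e b1 b2)) k
  let K := FractionRing A
  let x : Par b1 b2 (qf e b1 b2) → K := fun s => algebraMap A K (MvPolynomial.X s)
  let j1 : Par b1 b2 (qf e b1 b2) := .inl (0, ⟨b1, Nat.lt_succ_self b1⟩)
  let j1' : Par b1 b2 (qf e b1 b2) := .inl (1, ⟨b1, Nat.lt_succ_self b1⟩)
  let j2 : Fin (b2 - b1 + 1) → Par b1 b2 (qf e b1 b2) := fun m =>
    .inr (.inl (0, ⟨b1 + m, by omega⟩))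
  let j2' : Par b1 b2 (qf e b1 b2) := .inr (.inl (0, ⟨b2, Nat.lt_succ_self b2⟩))
  let j3 : Par b1 b2 (qf e b1 b2) := .inr (.inl (1, ⟨b2, Nat.lt_succ_self b2⟩))
  let T : Finset (Par b1 b2 (qf e b1 b2)) :=
    insert j1 (insert j3 ((Finset.univ : Finset (Fin (b2 - b1 + 1))).image j2))
  have hT : T.card ≤ b2 - b1 + 3 := by
    have h1 : ((Finset.univ : Finset (Fin (b2 - b1 + 1))).image j2).card ≤ b2 - b1 + 1 := by
      refine Finset.card_image_le.trans ?_
      rw [Finset.card_univ, Fintype.card_fin]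
    have h2 := Finset.card_insert_le j3 ((Finset.univ : Finset (Fin (b2 - b1 + 1))).image j2)
    have h3 := Finset.card_insert_le j1
      (insert j3 ((Finset.univ : Finset (Fin (b2 - b1 + 1))).image j2))
    change (insert j1 (insert j3 ((Finset.univ : Finset (Fin (b2 - b1 + 1))).image j2))).card ≤ _
    omega
  have hT1 : j1 ∈ T := Finset.mem_insert_self _ _
  have hT3 : j3 ∈ T := Finset.mem_insert_of_mem (Finset.mem_insert_self _ _)
  have hT2 : ∀ m, j2 m ∈ T := fun m => Finset.mem_insert_of_mem (Finset.mem_insert_of_mem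
    (Finset.mem_image_of_mem _ (Finset.mem_univ _)))
  let φ : MvPolynomial (Idx × ℕ) k →ₐ[k] A := cH (fam (MvPolynomial.X (R := k)))
  let S : Set K := Set.range (fun s : Idx × ℕ => algebraMap A K (φ (MvPolynomial.X s))) ∪
    (fun j => algebraMap A K (MvPolynomial.X j)) '' (T : Set (Par b1 b2 (qf e b1 b2)))
  let F : Subfield K := (IntermediateField.adjoin k S).toSubfield
  have hS : ∀ z ∈ S, z ∈ F := fun z hz => IntermediateField.subset_adjoin k S hz
  have hxT : ∀ j ∈ T, x j ∈ F := fun j hj => hS _ (Or.inr ⟨j, Finset.mem_coe.2 hj, rfl⟩)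
  have hinj : Function.Injective (algebraMap A K) := IsFractionRing.injective A K
  have hg : Good (e + (b1 + b2)) (zfun (pU x) (pV x) (pC x)) := good_generic hb.le he
  have hF : ∀ I n, (zfun (pU x) (pV x) (pC x) I).coeff n ∈ F := by
    intro I n
    have h1 : (fam (MvPolynomial.X (R := k) (σ := Par b1 b2 (qf e b1 b2))) I).map
        (algebraMap A K) = zfun (pU x) (pV x) (pC x) I := fam_map (algebraMap A K) _ I
    rw [← h1, coeff_map]
    refine hS _ (Or.inl ⟨(I, n), ?_⟩)
    change algebraMap A K (φ (MvPolynomial.X (I, n))) = _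
    congr 1
    exact MvPolynomial.aeval_X _ _
  have e1 : (pU x 0).coeff b1 = x j1 := pU_coeff x 0 ⟨b1, Nat.lt_succ_self b1⟩
  have e1' : (pU x 1).coeff b1 = x j1' := pU_coeff x 1 ⟨b1, Nat.lt_succ_self b1⟩
  have e2' : (pV x 0).coeff b2 = x j2' := pV_coeff x 0 ⟨b2, Nat.lt_succ_self b2⟩
  have e3 : (pV x 1).coeff b2 = x j3 := pV_coeff x 1 ⟨b2, Nat.lt_succ_self b2⟩
  have hbd : Bd e b1 b2 (pU x) (pV x) (pC x) := bd_par x
  have h2 : ∀ n, b1 ≤ n → (pV x 0).coeff n ∈ F := by
    intro n hn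
    rcases Nat.lt_or_ge b2 n with h | h
    · rw [coeff_eq_zero_of_natDegree_lt (lt_of_le_of_lt (hbd.hv 0) h)]
      exact zero_mem F
    · have h3 : (pV x 0).coeff n = x (.inr (.inl (0, ⟨n, by omega⟩))) :=
        pV_coeff x 0 ⟨n, by omega⟩
      have h5 : b1 + (n - b1) = n := by omega
      have h4 : j2 ⟨n - b1, by omega⟩ = .inr (.inl (0, ⟨n, by omega⟩)) :=
        congrArg (fun t : Fin (b2 + 1) =>
          (Sum.inr (Sum.inl ((0 : Fin 10), t)) : Par b1 b2 (qf e b1 b2))) (Fin.ext h5)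
      rw [h3, ← h4]
      exact hxT _ (hT2 _)
  have hne : (pU x 0).coeff b1 ≠ 0 := by
    rw [e1]
    exact fun h => MvPolynomial.X_ne_zero j1 (hinj (h.trans (map_zero _).symm))
  have hdet : (pU x 0).coeff b1 * (pV x 1).coeff b2 - (pU x 1).coeff b1 * (pV x 0).coeff b2 ≠
      0 := by
    rw [e1, e3, e1', e2']
    intro h
    have h3 : algebraMap A K (MvPolynomial.X j1 * MvPolynomial.X j3 -
        MvPolynomial.X j1' * MvPolynomial.X j2') = algebraMap A K 0 := by
      rw [map_sub, map_mul, map_mul, map_zero]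
      exact h
    have h4 := congrArg (MvPolynomial.eval fun j : Par b1 b2 (qf e b1 b2) =>
      if j = j1 ∨ j = j3 then (1 : k) else 0) (hinj h3)
    rw [map_sub, map_mul, map_mul, map_zero, MvPolynomial.eval_X, MvPolynomial.eval_X,
      MvPolynomial.eval_X, MvPolynomial.eval_X, if_pos (Or.inl rfl), if_pos (Or.inr rfl)] at h4
    have h5 : ¬ (j1' = j1 ∨ j1' = j3) := by
      simp [j1', j1, j3]
    rw [if_neg h5, zero_mul, sub_zero, mul_one] at h4
    exact one_ne_zero h4
  obtain ⟨hu, hv, hc⟩ := descent F hb hbd hg hF (by rw [e1]; exact hxT _ hT1) h2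
    (by rw [e3]; exact hxT _ hT3) hne hdet
  obtain ⟨B, hB, hBc⟩ := exists_indep φ T (fun j => by
    change x j ∈ F
    rcases j with ⟨i, n⟩ | ⟨i, n⟩ | ⟨m, n⟩
    · rw [← pU_coeff x i n]
      exact hu i n
    · rw [← pV_coeff x i n]
      exact hv i n
    · rw [← pC_coeff x m n]
      exact hc m n)
  exact ⟨B, hB, hBc.trans (Nat.add_le_add_left hT _)⟩

end MP9a7843.M
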