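import Pool.Agent.Lib.MP_9a7843_ag_M.D

/-!
# Block M, Inv: right inverse of a good tuple
-/

namespace MP9a7843.M

open Polynomial

universe u v

private theorem inv_step {ι : Type v} [Fintype ι] {k : Type u} [Field k] {D : ℕ}
    {g : ι → k[X]} {A : ι → k[X]} (hA : ∑ i, A i * g i = 1) {a : ℕ}
    (ha : ∀ i, (A i).natDegree ≤ a) (hg : ∀ i, (g i).natDegree ≤ D) {j : ι}
    (hj : (g j).coeff D ≠ 0) (n : ℕ) (hn : n ≤ a + D + D) :
    ∃ q : ι → k[X], (∀ i, (q i).natDegree ≤ a + D) ∧ ∑ i, q i * g i = X ^ n := by
  classical
  induction n using Nat.strong_induction_on with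
  | _ n ih =>
    rcases Nat.lt_or_ge D n with hlt | hle
    · -- the case `D < n`
      obtain ⟨r, hr⟩ : ∃ r : k[X],
          r = X ^ n - C ((g j).coeff D)⁻¹ * X ^ (n - D) * g j := ⟨_, rfl⟩
      have hcoef : ∀ m, n ≤ m → r.coeff m = 0 := by
        intro m hm
        have e1 : C ((g j).coeff D)⁻¹ * X ^ (n - D) * g j
            = C ((g j).coeff D)⁻¹ * (g j * X ^ (n - D)) := by ring
        rw [hr, coeff_sub, e1, coeff_C_mul, coeff_mul_X_pow', coeff_X_pow,
          if_pos (by omega : n - D ≤ m)]
        rcases Nat.eq_or_lt_of_le hm with h1 | h1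
        · subst h1
          have e2 : n - (n - D) = D := by omega
          rw [e2, if_pos rfl, inv_mul_cancel₀ hj, sub_self]
        · have e2 : D < m - (n - D) := by omega
          rw [coeff_eq_zero_of_natDegree_lt (lt_of_le_of_lt (hg j) e2),
            if_neg (by omega : ¬ m = n), mul_zero, sub_zero]
      have hex : ∀ m : ℕ, ∃ q : ι → k[X], m < n → (∀ i, (q i).natDegree ≤ a + D) ∧
          ∑ i, q i * g i = X ^ m := by
        intro m
        by_cases hm : m < n
        · obtain ⟨q, hq⟩ := ih m hm (by omega)
          exact ⟨q, fun _ => hq⟩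
        · exact ⟨0, fun h => absurd h hm⟩
      choose Q hQ using hex
      have hrsum : r = ∑ m ∈ Finset.range n, C (r.coeff m) * X ^ m := by
        ext m
        rw [finsetSum_coeff]
        by_cases hm : m < n
        · rw [Finset.sum_eq_single m]
          · rw [coeff_C_mul, coeff_X_pow, if_pos rfl, mul_one]
          · intro b _ hb
            rw [coeff_C_mul, coeff_X_pow, if_neg (fun h => hb h.symm), mul_zero]
          · intro h
            exact absurd (Finset.mem_range.2 hm) h
        · rw [hcoef m (by omega)]
          symm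
          refine Finset.sum_eq_zero fun b hb => ?_
          have := Finset.mem_range.1 hb
          rw [coeff_C_mul, coeff_X_pow, if_neg (by omega : ¬ m = b), mul_zero]
      refine ⟨fun i => (∑ m ∈ Finset.range n, C (r.coeff m) * Q m i) +
        (if i = j then C ((g j).coeff D)⁻¹ * X ^ (n - D) else 0), ?_, ?_⟩
      · intro i
        refine (natDegree_add_le _ _).trans (max_le ?_ ?_)
        · refine natDegree_sum_le_of_forall_le _ _ fun m hm => ?_
          exact (natDegree_C_mul_le _ _).trans ((hQ m (Finset.mem_range.1 hm)).1 i)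
        · split_ifs
          · refine (natDegree_C_mul_le _ _).trans ?_
            rw [natDegree_X_pow]
            omega
          · rw [natDegree_zero]
            omega
      · have e1 : ∀ i, ((∑ m ∈ Finset.range n, C (r.coeff m) * Q m i) +
            (if i = j then C ((g j).coeff D)⁻¹ * X ^ (n - D) else 0)) * g i
            = (∑ m ∈ Finset.range n, C (r.coeff m) * (Q m i * g i)) +
              (if i = j then C ((g j).coeff D)⁻¹ * X ^ (n - D) * g j else 0) := by
          intro i
          rw [add_mul, Finset.sum_mul]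
          congr 1
          · refine Finset.sum_congr rfl fun m _ => ?_
            ring
          · split_ifs with hi
            · rw [hi]
            · rw [zero_mul]
        rw [Finset.sum_congr rfl fun i _ => e1 i, Finset.sum_add_distrib,
          Finset.sum_ite_eq' Finset.univ j, if_pos (Finset.mem_univ j), Finset.sum_comm]
        have e2 : ∑ m ∈ Finset.range n, ∑ i, C (r.coeff m) * (Q m i * g i) = r := by
          rw [hrsum]
          refine Finset.sum_congr rfl fun m hm => ?_
          rw [← hrsum, ← Finset.mul_sum, (hQ m (Finset.mem_range.1 hm)).2]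
        rw [e2, hr]
        ring
    · -- the case `n ≤ D`
      refine ⟨fun i => X ^ n * A i, fun i => ?_, ?_⟩
      · refine natDegree_mul_le.trans ?_
        rw [natDegree_X_pow]
        have := ha i
        omega
      · simp only [mul_assoc]
        rw [← Finset.mul_sum, hA, mul_one]

/-- Row M2a. If the `g i` have no common zero on the projective line as forms of degree `D`, then
for some `M` the map `(q i) ↦ ∑ q i * g i` from tuples of polynomials of degree `≤ M` to
polynomials of degree `≤ M + D` has a right inverse `B` (here on the basis `X ^ n`).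
Proof: `1 = ∑ A i * g i`; let `a` be the maximum of the degrees of the `A i` and `M = a + D`.
We show by strong induction on `n ≤ M + D` that `X ^ n = ∑ q i * g i` with all
`natDegree (q i) ≤ M`.  If `n ≤ D` take `q i = X ^ n * A i`.  If `n > D`, let `(g j).coeff D ≠ 0`:
`X ^ n = C ((g j).coeff D)⁻¹ * X ^ (n - D) * g j + r` with `natDegree r < n`, `r` a combination of
`X ^ m`, `m < n` (and `n - D ≤ M`). -/
theorem Good.exists_inverse {ι : Type v} [Fintype ι] {k : Type u} [Field k] {D : ℕ}
    {g : ι → k[X]} (h : Good D g) :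
    ∃ (M : ℕ) (B : ℕ → ι → k[X]), (∀ n i, (B n i).natDegree ≤ M) ∧
      ∀ n ≤ M + D, ∑ i, B n i * g i = X ^ n := by
  classical
  obtain ⟨⟨A, hA⟩, hg, j, hj⟩ := h
  obtain ⟨a, ha⟩ : ∃ a : ℕ, ∀ i, (A i).natDegree ≤ a :=
    ⟨Finset.univ.sup fun i => (A i).natDegree, fun i =>
      Finset.le_sup (f := fun i => (A i).natDegree) (Finset.mem_univ i)⟩
  have hex : ∀ n : ℕ, ∃ q : ι → k[X], (∀ i, (q i).natDegree ≤ a + D) ∧
      (n ≤ a + D + D → ∑ i, q i * g i = X ^ n) := by
    intro n
    by_cases hn : n ≤ a + D + D
    · obtain ⟨q, h1, h2⟩ := inv_step hA ha hg hj n hn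
      exact ⟨q, h1, fun _ => h2⟩
    · exact ⟨0, fun i => by simp, fun h => absurd h hn⟩
  choose B hB using hex
  exact ⟨a + D, B, fun n => (hB n).1, fun n hn => (hB n).2 hn⟩

end MP9a7843.M
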