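import Pool.Agent.Lib.MP_9a7843_ag_M.D

/-!
# Block M, Lin: vectors in a primitive plane
-/

namespace MP9a7843.M

open Polynomial

/-- Row M4a. If the Pluecker coordinates of `u, v` generate the unit ideal and `w ∧ u ∧ v = 0`, then
`w` is a combination of `u` and `v`.
Proof: let `∑ A (p, q) * plu u v p q = 1`.  From
`w l * P_ij = u l * (w i * v j - w j * v i) + v l * (u i * w j - u j * w i)` (this is `hw` for
`(l, i, j)` rewritten) take the combination with coefficients `A (i, j)`. -/
theorem exists_coeffs {R : Type*} [CommRing R] {u v w : Fin 10 → R}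
    (hP : Prim (fun p : Fin 10 × Fin 10 => plu u v p.1 p.2))
    (hw : ∀ a b d, w a * plu u v b d - w b * plu u v a d + w d * plu u v a b = 0) :
    ∃ α β : R, ∀ i, w i = α * u i + β * v i := by
  obtain ⟨A, hA⟩ := hP
  refine ⟨∑ p : Fin 10 × Fin 10, A p * (w p.1 * v p.2 - w p.2 * v p.1),
    ∑ p : Fin 10 × Fin 10, A p * (u p.1 * w p.2 - u p.2 * w p.1), fun l => ?_⟩
  have h1 : w l = (∑ p : Fin 10 × Fin 10, A p * plu u v p.1 p.2) * w l := by
    rw [hA, one_mul]
  rw [h1, Finset.sum_mul, Finset.sum_mul, Finset.sum_mul, ← Finset.sum_add_distrib]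
  refine Finset.sum_congr rfl fun p _ => ?_
  have h2 := hw l p.1 p.2
  simp only [plu] at h2 ⊢
  linear_combination A p * h2

/-- Row M4b. Degrees of the coefficients.
Proof: `plu (α u + β v) v i j = α * plu u v i j` has degree `≤ n + b2`; for the pair `p` of `hP`
the polynomial `plu u v p.1 p.2` has degree exactly `b1 + b2`, so if `α ≠ 0`,
`natDegree α + (b1 + b2) ≤ n + b2`.  The same for `β` with `plu u (α u + β v)`. -/
theorem degree_coeffs {K : Type*} [Field K] {b1 b2 n : ℕ} {u v : Fin 10 → K[X]}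
    (hu : ∀ i, (u i).natDegree ≤ b1) (hv : ∀ i, (v i).natDegree ≤ b2)
    (hP : ∃ p : Fin 10 × Fin 10, (plu u v p.1 p.2).coeff (b1 + b2) ≠ 0) {α β : K[X]}
    (hn : ∀ i, (α * u i + β * v i).natDegree ≤ n) :
    (α = 0 ∨ α.natDegree + b1 ≤ n) ∧ (β = 0 ∨ β.natDegree + b2 ≤ n) := by
  obtain ⟨p, hp⟩ := hP
  have hd : b1 + b2 ≤ (plu u v p.1 p.2).natDegree := le_natDegree_of_ne_zero hp
  have h0 : plu u v p.1 p.2 ≠ 0 := by
    intro h
    rw [h, coeff_zero] at hp
    exact hp rfl
  have hm : ∀ {f g : K[X]} {s t : ℕ}, f.natDegree ≤ s → g.natDegree ≤ t →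
      (f * g).natDegree ≤ s + t := fun hf hg => natDegree_mul_le.trans (Nat.add_le_add hf hg)
  constructor
  · by_cases hα : α = 0
    · exact Or.inl hα
    · right
      have h1 : α * plu u v p.1 p.2 =
          (α * u p.1 + β * v p.1) * v p.2 - (α * u p.2 + β * v p.2) * v p.1 := by
        simp only [plu]
        ring
      have h2 : (α * plu u v p.1 p.2).natDegree ≤ n + b2 := by
        rw [h1]
        exact (natDegree_sub_le_of_le (hm (hn _) (hv _)) (hm (hn _) (hv _))).trans (max_self _).le
      rw [natDegree_mul hα h0] at h2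
      omega
  · by_cases hβ : β = 0
    · exact Or.inl hβ
    · right
      have h1 : β * plu u v p.1 p.2 =
          u p.1 * (α * u p.2 + β * v p.2) - u p.2 * (α * u p.1 + β * v p.1) := by
        simp only [plu]
        ring
      have h2 : (β * plu u v p.1 p.2).natDegree ≤ b1 + n := by
        rw [h1]
        exact (natDegree_sub_le_of_le (hm (hu _) (hn _)) (hm (hu _) (hn _))).trans (max_self _).le
      rw [natDegree_mul hβ h0] at h2
      omega

end MP9a7843.M
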