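import Pool.Agent.Lib.MP_9a7843_ag_M.Chg

/-!
# Block M, Red: reduced bases of planes over `k[X]`
-/

namespace MP9a7843.M

open Polynomial

universe u

section Aux

variable {k : Type u} [Field k]

/-- the height of a vector -/
private def nn (w : Fin 10 → k[X]) : ℕ := Finset.univ.sup (fun i => (w i).natDegree)

private theorem le_nn (w : Fin 10 → k[X]) (i : Fin 10) : (w i).natDegree ≤ nn w :=
  Finset.le_sup (f := fun i => (w i).natDegree) (Finset.mem_univ i)

private theorem nn_le {w : Fin 10 → k[X]} {n : ℕ} (h : ∀ i, (w i).natDegree ≤ n) : nn w ≤ n :=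
  Finset.sup_le fun i _ => h i

/-- division by a linear factor lowers the height -/
private theorem div_root {w : Fin 10 → k[X]} {n : ℕ} {r : k} (h : ∀ i, (w i).natDegree ≤ n)
    (hr : ∀ i, (w i).eval r = 0) (h0 : ∃ i, w i ≠ 0) :
    ∃ w' : Fin 10 → k[X], (∀ i, w i = (X - C r) * w' i) ∧ nn w' + 1 ≤ n := by
  have h1 : ∀ i, ∃ y, w i = (X - C r) * y := fun i => dvd_iff_isRoot.2 (hr i)
  choose w' hw' using h1
  refine ⟨w', hw', ?_⟩
  have h2 : ∀ i, w' i ≠ 0 → (w' i).natDegree + 1 ≤ n := by
    intro i hi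
    have h3 := h i
    rw [hw' i, natDegree_mul (X_sub_C_ne_zero r) hi, natDegree_X_sub_C] at h3
    omega
  have hn : 1 ≤ n := by
    obtain ⟨i, hi⟩ := h0
    have h3 : w' i ≠ 0 := by
      intro h4
      rw [hw' i, h4, mul_zero] at hi
      exact hi rfl
    have := h2 i h3
    omega
  have h5 : nn w' ≤ n - 1 := by
    apply nn_le
    intro i
    by_cases hi : w' i = 0
    · rw [hi, natDegree_zero]
      omega
    · have := h2 i hi
      omega
  omega

/-- vanishing of the top coefficients lowers the height -/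
private theorem low_top {w : Fin 10 → k[X]} {n : ℕ} (h : ∀ i, (w i).natDegree ≤ n)
    (hr : ∀ i, (w i).coeff n = 0) (h0 : ∃ i, w i ≠ 0) : nn w + 1 ≤ n := by
  have h1 : ∀ i, w i ≠ 0 → (w i).natDegree + 1 ≤ n := by
    intro i hi
    have h2 : (w i).natDegree ≠ n := by
      intro h3
      have h4 := hr i
      rw [← h3, coeff_natDegree, leadingCoeff_eq_zero] at h4
      exact hi h4
    have := h i
    omega
  have hn : 1 ≤ n := by
    obtain ⟨i, hi⟩ := h0
    have := h1 i hi
    omega
  have h5 : nn w ≤ n - 1 := by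
    apply nn_le
    intro i
    by_cases hi : w i = 0
    · rw [hi, natDegree_zero]
      omega
    · have := h1 i hi
      omega
  omega

private theorem top_ne {w : Fin 10 → k[X]} (h0 : ∃ i, w i ≠ 0) : ∃ i, (w i).coeff (nn w) ≠ 0 := by
  by_contra hcon
  push Not at hcon
  have := low_top (le_nn w) hcon h0
  omega

/-- `w1` and `w2` are combinations of `u` and `v` -/
private def Cmb (w1 w2 u v : Fin 10 → k[X]) : Prop :=
  ∃ α β γ δ : k[X], (w1 = fun i => α * u i + β * v i) ∧ (w2 = fun i => γ * u i + δ * v i)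

private theorem cmb_swap {w1 w2 u v : Fin 10 → k[X]} (h : Cmb w1 w2 u v) : Cmb w1 w2 v u := by
  obtain ⟨α, β, γ, δ, h1, h2⟩ := h
  refine ⟨β, α, δ, γ, ?_, ?_⟩
  · rw [h1]
    funext i
    ring
  · rw [h2]
    funext i
    ring

private theorem cmb_right {w1 w2 u v v' : Fin 10 → k[X]} (h : Cmb w1 w2 u v) {a b : k[X]}
    (hv : ∀ i, v i = a * u i + b * v' i) : Cmb w1 w2 u v' := by
  obtain ⟨α, β, γ, δ, h1, h2⟩ := h
  refine ⟨α + β * a, β * b, γ + δ * a, δ * b, ?_, ?_⟩
  · rw [h1]
    funext i
    rw [hv i]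
    ring
  · rw [h2]
    funext i
    rw [hv i]
    ring

private theorem cmb_left {w1 w2 u v u' : Fin 10 → k[X]} (h : Cmb w1 w2 u v) {b : k[X]}
    (hu : ∀ i, u i = b * u' i) : Cmb w1 w2 u' v :=
  cmb_swap (cmb_right (cmb_swap h) (a := 0) (b := b) fun i => by rw [hu i]; ring)

private theorem cmb_ne {w1 w2 u v : Fin 10 → k[X]} (h : Cmb w1 w2 u v) {p : Fin 10 × Fin 10}
    (hp : plu w1 w2 p.1 p.2 ≠ 0) : plu u v p.1 p.2 ≠ 0 := by
  obtain ⟨α, β, γ, δ, rfl, rfl⟩ := h
  rw [plu_change] at hp
  exact right_ne_zero_of_mul hp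

/-- dependent vectors -/
private theorem dep {U V : Fin 10 → k} (h : ∀ i j, U i * V j - U j * V i = 0) {i0 : Fin 10}
    (h0 : U i0 ≠ 0) (j : Fin 10) : V j = V i0 / U i0 * U j := by
  have h1 := h i0 j
  field_simp
  linear_combination h1

end Aux

/-- Row M6. Every plane over `k(t)`, given by two polynomial vectors, has a reduced basis
`u, v` (degrees `≤ b1 ≤ b2`, the Pluecker coordinates of degree `b1 + b2` have no common zero on
the projective line), and `w1, w2` are polynomial combinations of `u, v`.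
Proof: let `N w = Finset.univ.sup (fun i => (w i).natDegree)`.  Among all pairs `(u, v)` such that
`w1, w2` are polynomial combinations of `u, v` (for example `(w1, w2)`), choose one with `N u + N v`
minimal and (by symmetry) `b1 = N u ≤ b2 = N v`.  By `plu_change`, `plu u v p.1 p.2 ≠ 0`.
(1) If the `plu u v i j` do not generate the unit ideal then (Bezout domain, `k` algebraically
closed) they have a common root `r`.  The vectors `u(r)`, `v(r)` are dependent:
`a u(r) + b v(r) = 0`, `(a, b) ≠ 0`.  If `b ≠ 0`, then `b2 ≥ 1` (otherwise `a u + b v = 0`,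
contradiction with `plu u v ≠ 0`) and `a u + b v = (X - r) v'` with `N v' ≤ b2 - 1`, and `v` is a
combination of `u, v'`, contradiction to minimality.  If `b = 0`: `u = (X - r) u'`, `N u' < b1`.
(2) The coefficient of `X ^ (b1 + b2)` of `plu u v i j` is the Pluecker coordinate of the
vectors `u.coeff b1`, `v.coeff b2`, which are not zero.  If all vanish, these vectors are
dependent, `v.coeff b2 = r u.coeff b1`, and `v' = v - r X ^ (b2 - b1) u` has `N v' < b2` (or is
zero if `b2 = 0`, impossible), contradiction. -/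
theorem exists_reduced {k : Type u} [Field k] [IsAlgClosed k] (w1 w2 : Fin 10 → k[X])
    (p : Fin 10 × Fin 10) (hp : plu w1 w2 p.1 p.2 ≠ 0) :
    ∃ (b1 b2 : ℕ) (u v : Fin 10 → k[X]) (α β γ δ : k[X]), b1 ≤ b2 ∧
      (∀ i, (u i).natDegree ≤ b1) ∧ (∀ i, (v i).natDegree ≤ b2) ∧
      Good (b1 + b2) (fun p : Fin 10 × Fin 10 => plu u v p.1 p.2) ∧
      (w1 = fun i => α * u i + β * v i) ∧ (w2 = fun i => γ * u i + δ * v i) := by
  classical
  have hex : ∃ n : ℕ, ∃ u v : Fin 10 → k[X], Cmb w1 w2 u v ∧ nn u + nn v = n :=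
    ⟨_, w1, w2, ⟨1, 0, 0, 1, by funext i; ring, by funext i; ring⟩, rfl⟩
  have hmin : ∀ u v : Fin 10 → k[X], Cmb w1 w2 u v → Nat.find hex ≤ nn u + nn v :=
    fun u v h => Nat.find_min' hex ⟨u, v, h, rfl⟩
  obtain ⟨u, v, hc, hn, hle⟩ : ∃ u v : Fin 10 → k[X], Cmb w1 w2 u v ∧
      nn u + nn v = Nat.find hex ∧ nn u ≤ nn v := by
    obtain ⟨u, v, hc, hn⟩ := Nat.find_spec hex
    rcases le_total (nn u) (nn v) with h | h
    · exact ⟨u, v, hc, hn, h⟩
    · exact ⟨v, u, cmb_swap hc, by rw [add_comm]; exact hn, h⟩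
  have hp' : plu u v p.1 p.2 ≠ 0 := cmb_ne hc hp
  have hu0 : ∃ i, u i ≠ 0 := by
    by_contra hcon
    push Not at hcon
    apply hp'
    rw [plu, hcon, hcon]
    ring
  -- a vector `v - s u` is never zero
  have hvs : ∀ s : k[X], ∃ i, v i - s * u i ≠ 0 := by
    intro s
    by_contra hcon
    push Not at hcon
    have h1 : ∀ i, v i = s * u i := fun i => sub_eq_zero.1 (hcon i)
    apply hp'
    rw [plu, h1, h1]
    ring
  obtain ⟨α, β, γ, δ, hw1, hw2⟩ := id hc
  refine ⟨nn u, nn v, u, v, α, β, γ, δ, hle, le_nn u, le_nn v, ⟨?_, ?_, ?_⟩, hw1, hw2⟩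
  · -- the Pluecker coordinates generate the unit ideal
    by_contra hcon
    let I : Ideal k[X] := Ideal.span (Set.range fun p : Fin 10 × Fin 10 => plu u v p.1 p.2)
    have hI : I ≠ ⊤ := by
      intro h1
      apply hcon
      have h2 : (1 : k[X]) ∈ I := by
        rw [h1]
        trivial
      obtain ⟨A, hA⟩ := (Ideal.mem_span_range_iff_exists_fun).1 h2
      exact ⟨A, hA⟩
    obtain ⟨M, hM, hIM⟩ := Ideal.exists_le_maximal I hI
    obtain ⟨f, hf⟩ : ∃ f : k[X], M = Ideal.span {f} := (IsPrincipalIdealRing.principal M).1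
    have hf0 : f ≠ 0 := by
      rintro rfl
      have h1 : plu u v p.1 p.2 ∈ M := hIM (Ideal.subset_span ⟨p, rfl⟩)
      rw [hf, Ideal.mem_span_singleton, zero_dvd_iff] at h1
      exact hp' h1
    have hdeg : f.degree ≠ 0 := by
      intro h1
      apply hM.ne_top
      rw [hf, Ideal.span_singleton_eq_top]
      exact isUnit_iff_degree_eq_zero.2 h1
    obtain ⟨r, hr⟩ := IsAlgClosed.exists_root f hdeg
    have hz : ∀ i j, (plu u v i j).eval r = 0 := by
      intro i j
      have h1 : plu u v i j ∈ M := hIM (Ideal.subset_span ⟨(i, j), rfl⟩)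
      rw [hf, Ideal.mem_span_singleton] at h1
      exact (hr.dvd h1)
    have hz' : ∀ i j, (u i).eval r * (v j).eval r - (u j).eval r * (v i).eval r = 0 := by
      intro i j
      have := hz i j
      rwa [plu, eval_sub, eval_mul, eval_mul] at this
    by_cases hur : ∀ i, (u i).eval r = 0
    · obtain ⟨u', hu', hlt⟩ := div_root (le_nn u) hur hu0
      have h1 := hmin u' v (cmb_left hc hu')
      omega
    · push Not at hur
      obtain ⟨i0, hi0⟩ := hur
      have h1 : ∀ j, (v j - C ((v i0).eval r / (u i0).eval r) * u j).eval r = 0 := by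
        intro j
        rw [eval_sub, eval_mul, eval_C, dep hz' hi0 j, sub_self]
      have h2 : ∀ j, (v j - C ((v i0).eval r / (u i0).eval r) * u j).natDegree ≤ nn v := by
        intro j
        refine (natDegree_sub_le_of_le (le_nn v j)
          ((natDegree_C_mul_le _ _).trans ((le_nn u j).trans hle))).trans_eq (max_self _)
      obtain ⟨v', hv', hlt⟩ := div_root h2 h1 (hvs _)
      have h3 := hmin u v' (cmb_right hc (a := C ((v i0).eval r / (u i0).eval r)) (b := X - C r)
        fun i => by rw [← hv' i]; ring)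
      omega
  · intro q
    change (u q.1 * v q.2 - u q.2 * v q.1).natDegree ≤ nn u + nn v
    refine (natDegree_sub_le_of_le (natDegree_mul_le_of_le (le_nn u q.1) (le_nn v q.2))
      (natDegree_mul_le_of_le (le_nn u q.2) (le_nn v q.1))).trans_eq (max_self _)
  · by_contra hcon
    push Not at hcon
    have hz' : ∀ i j, (u i).coeff (nn u) * (v j).coeff (nn v) -
        (u j).coeff (nn u) * (v i).coeff (nn v) = 0 := by
      intro i j
      have h1 := hcon (i, j)
      simp only [plu] at h1
      rwa [coeff_sub, coeff_mul_add_eq_of_natDegree_le (le_nn u i) (le_nn v j),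
        coeff_mul_add_eq_of_natDegree_le (le_nn u j) (le_nn v i)] at h1
    obtain ⟨i0, hi0⟩ := top_ne hu0
    let c : k := (v i0).coeff (nn v) / (u i0).coeff (nn u)
    have hcu : ∀ j, (C c * X ^ (nn v - nn u) * u j).natDegree ≤ nn v := by
      intro j
      have h1 : (C c * X ^ (nn v - nn u) : k[X]).natDegree ≤ nn v - nn u :=
        natDegree_C_mul_X_pow_le c _
      refine (natDegree_mul_le_of_le h1 (le_nn u j)).trans ?_
      omega
    have h1 : ∀ j, (v j - C c * X ^ (nn v - nn u) * u j).coeff (nn v) = 0 := by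
      intro j
      have h2 : (C c * X ^ (nn v - nn u) * u j).coeff (nn v) = c * (u j).coeff (nn u) := by
        rw [mul_assoc, coeff_C_mul, mul_comm (X ^ (nn v - nn u)) (u j)]
        have h3 := coeff_mul_X_pow (u j) (nn v - nn u) (nn u)
        rw [show nn u + (nn v - nn u) = nn v by omega] at h3
        rw [h3]
      rw [coeff_sub, h2, dep hz' hi0 j, sub_self]
    have h2 : ∀ j, (v j - C c * X ^ (nn v - nn u) * u j).natDegree ≤ nn v := fun j =>
      (natDegree_sub_le_of_le (le_nn v j) (hcu j)).trans_eq (max_self _)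
    have hlt := low_top h2 h1 (hvs _)
    have h3 := hmin u (fun j => v j - C c * X ^ (nn v - nn u) * u j)
      (cmb_right hc (a := C c * X ^ (nn v - nn u)) (b := 1) fun i => by ring)
    omega

end MP9a7843.M
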