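import Pool.Agent.Lib.MP_9a7843_ag_M.D

/-!
# Block M, SlD: slices (normalised parameters), definitions
-/

namespace MP9a7843.M

open Polynomial

universe u

/-- The normalised coordinates. -/
def IsNrm {b1 b2 : ℕ} {q : Fin 4 → ℕ} : Par b1 b2 q → Prop
  | .inl (i, n) => (n : ℕ) = b1 ∧ (i = 0 ∨ (i = 1 ∧ b1 = b2))
  | .inr (.inl (i, n)) => (i = 0 ∧ b1 ≤ (n : ℕ)) ∨ (i = 1 ∧ (n : ℕ) = b2)
  | .inr (.inr _) => False

/-- Their values. -/
def nval (k : Type*) [Field k] {b1 b2 : ℕ} {q : Fin 4 → ℕ} : Par b1 b2 q → k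
  | .inl (i, _) => if i = 0 then 1 else 0
  | .inr (.inl (i, _)) => if i = 1 then 1 else 0
  | .inr (.inr _) => 0

open Classical in
/-- The generic normalised member of the stratum. -/
noncomputable def slc (k : Type*) [Field k] (b1 b2 : ℕ) (q : Fin 4 → ℕ) (s : Par b1 b2 q) :
    MvPolynomial {s : Par b1 b2 q // ¬ IsNrm s} k :=
  if h : IsNrm s then MvPolynomial.C (nval k s) else MvPolynomial.X ⟨s, h⟩

end MP9a7843.M
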