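import Mathlib

/-!
# Block M, TrdB: algebraically independent elements in a set of generators
-/

namespace MP9a7843.M

open MvPolynomial

universe u v w

/-- Row M12b. Proof: `S = {φ (X s)} ∪ {X j : j ∈ T}` generates the fraction field of
`MvPolynomial τ k` over `k` (all `X j` are in `adjoin k S`, which is a field), so it contains a
transcendence basis, of cardinality `card τ`; at most `card T` of its elements are in
`{X j : j ∈ T}`, the others are `φ (X s)`; choose one `s` for each. -/
theorem exists_indep {k : Type u} [Field k] {σ : Type v} {τ : Type w} [Fintype τ]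
    (φ : MvPolynomial σ k →ₐ[k] MvPolynomial τ k) (T : Finset τ)
    (h : ∀ j : τ, algebraMap (MvPolynomial τ k) (FractionRing (MvPolynomial τ k)) (X j) ∈
      IntermediateField.adjoin k
        (Set.range (fun s : σ => algebraMap (MvPolynomial τ k)
            (FractionRing (MvPolynomial τ k)) (φ (X s))) ∪
          (fun j : τ => algebraMap (MvPolynomial τ k)
            (FractionRing (MvPolynomial τ k)) (X j)) '' (T : Set τ))) :
    ∃ B : Finset σ, AlgebraicIndependent k (fun s : B => φ (X (s : σ))) ∧
      Fintype.card τ ≤ B.card + T.card := by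
  classical
  set A := MvPolynomial τ k with hA
  set F := FractionRing A with hF
  set S : Set F := Set.range (fun s : σ => algebraMap A F (φ (X s))) ∪
    (fun j : τ => algebraMap A F (X j)) '' (T : Set τ) with hS
  have htop : ∀ z : F, z ∈ IntermediateField.adjoin k S := by
    have h1 : ∀ a : A, algebraMap A F a ∈ IntermediateField.adjoin k S := by
      intro a
      induction a using MvPolynomial.induction_on with
      | C c =>
        have h2 : algebraMap A F (C c) = algebraMap k F c :=
          (IsScalarTower.algebraMap_apply k A F c).symm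
        rw [h2]
        exact (IntermediateField.adjoin k S).algebraMap_mem c
      | add a b ha hb =>
        rw [map_add]
        exact add_mem ha hb
      | mul_X a j ha =>
        rw [map_mul]
        exact mul_mem ha (h j)
    intro z
    obtain ⟨a, b, -, rfl⟩ := IsFractionRing.div_surjective (A := A) z
    exact div_mem (h1 a) (h1 b)
  have halg : Algebra.IsAlgebraic (Algebra.adjoin k S) F := by
    refine ⟨fun z => ?_⟩
    obtain ⟨r, hr, s, hs, rfl⟩ := IntermediateField.mem_adjoin_iff_div.mp (htop z)
    have h1 : IsAlgebraic (Algebra.adjoin k S) r := isAlgebraic_algebraMap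
      (⟨r, hr⟩ : Algebra.adjoin k S)
    have h2 : IsAlgebraic (Algebra.adjoin k S) s := isAlgebraic_algebraMap
      (⟨s, hs⟩ : Algebra.adjoin k S)
    rw [div_eq_mul_inv]
    exact h1.mul h2.inv
  obtain ⟨t, htS, ht⟩ := exists_isTranscendenceBasis_subset (R := k) (A := F) S
  have hA' : Algebra.IsAlgebraic A F := IsLocalization.isAlgebraic F (nonZeroDivisors A)
  have hX := (IsTranscendenceBasis.mvPolynomial τ k).algebraMap_comp (A := F)
  have hcard := ht.lift_cardinalMk_eq hX
  have hfin : Finite t := by
    rw [← Cardinal.lt_aleph0_iff_finite]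
    have h1 : Cardinal.mk τ < Cardinal.aleph0 := Cardinal.lt_aleph0_of_finite τ
    have h2 := Cardinal.lift_lt_aleph0.mpr h1
    rw [← hcard] at h2
    exact Cardinal.lift_lt_aleph0.mp h2
  have hft : Fintype t := Fintype.ofFinite t
  have hcard' : Fintype.card t = Fintype.card τ := by
    have h1 := congrArg Cardinal.toNat hcard
    rw [Cardinal.toNat_lift, Cardinal.toNat_lift, Cardinal.mk_fintype, Cardinal.mk_fintype,
      Cardinal.toNat_natCast, Cardinal.toNat_natCast] at h1
    exact h1
  let im : Finset F := T.image (fun j : τ => algebraMap A F (X j))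
  have hex : ∀ y : t, (y : F) ∉ im → ∃ s : σ, algebraMap A F (φ (X s)) = y := by
    intro y hy
    rcases htS y.2 with ⟨s, hs⟩ | ⟨j, hj, hj'⟩
    · exact ⟨s, hs⟩
    · exfalso
      apply hy
      exact Finset.mem_image.mpr ⟨j, Finset.mem_coe.mp hj, hj'⟩
  choose g hg using hex
  let U : Finset t := Finset.univ.filter fun y => (y : F) ∉ im
  let gU : U → σ := fun y => g y.1 (Finset.mem_filter.mp y.2).2
  have hgU : ∀ y : U, algebraMap A F (φ (X (gU y))) = (y.1 : F) := fun y => hg _ _
  have hinj : Function.Injective gU := by
    intro y y' hy
    have h1 := hgU y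
    rw [hy, hgU y'] at h1
    exact Subtype.ext (Subtype.ext h1.symm)
  let B : Finset σ := Finset.univ.image gU
  have hB : ∀ s : B, ∃ y : U, gU y = s := by
    intro s
    obtain ⟨y, -, hy⟩ := Finset.mem_image.mp s.2
    exact ⟨y, hy⟩
  choose e he using hB
  refine ⟨B, ?_, ?_⟩
  · have h1 : AlgebraicIndependent k (fun s : B => (((e s).1 : t) : F)) := by
      refine ht.1.comp (fun s : B => (e s).1) ?_
      intro s s' hs
      have h2 : e s = e s' := Subtype.ext hs
      have h3 := congrArg gU h2
      rw [he, he] at h3
      exact Subtype.ext h3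
    have h2 : (fun s : B => (((e s).1 : t) : F)) =
        (IsScalarTower.toAlgHom k A F) ∘ (fun s : B => φ (X (s : σ))) := by
      funext s
      rw [← hgU (e s), he s]
      rfl
    rw [h2] at h1
    exact h1.of_comp _
  · have h1 : B.card = U.card := by
      rw [Finset.card_image_of_injective _ hinj, Finset.card_univ, Fintype.card_coe]
    have h2 : U.card + (Finset.univ.filter fun y : t => ¬ (y : F) ∉ im).card =
        Fintype.card t := by
      rw [← Finset.card_univ]
      exact Finset.card_filter_add_card_filter_not (s := (Finset.univ : Finset t))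
        (fun y : t => (y : F) ∉ im)
    have h3 : (Finset.univ.filter fun y : t => ¬ (y : F) ∉ im).card ≤ im.card := by
      refine Finset.card_le_card_of_injOn (fun y : t => (y : F)) (fun y hy => ?_)
        (fun y _ y' _ h => Subtype.ext h)
      exact not_not.mp (Finset.mem_filter.mp hy).2
    have h4 : im.card ≤ T.card := Finset.card_image_le
    omega

end MP9a7843.M
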